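import Mathlib

/-!
The growth of the powers of a space of generators.
-/

set_option autoImplicit false
set_option linter.unusedSectionVars false

namespace Pool.Agent.N131.MV

open Submodule MvPolynomial

variable {κ : Type} [Field κ]

section lower

variable {R : Type} [CommRing R] [IsDomain R] [Algebra κ R] {W : Submodule κ R}

theorem pow_le_pow_one (h1 : (1 : R) ∈ W) {l m : ℕ} (h : l ≤ m) : W ^ l ≤ W ^ m := by
  induction m, h using Nat.le_induction with
  | base => exact le_rfl
  | succ m _ ih =>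
    refine ih.trans fun x hx => ?_
    have := Submodule.mul_mem_mul hx h1
    rwa [mul_one, ← pow_succ] at this

theorem prod_pow_mem (h1 : (1 : R) ∈ W) {d : ℕ} {x : Fin d → R} (hx : ∀ i, x i ∈ W)
    (α : Fin d → ℕ) : ∏ i, x i ^ α i ∈ W ^ (∑ i, α i) := by
  classical
  have key : ∀ s : Finset (Fin d), ∏ i ∈ s, x i ^ α i ∈ W ^ (∑ i ∈ s, α i) := by
    intro s
    induction s using Finset.induction_on with
    | empty => simp [Submodule.mem_one]
    | insert a s ha ih =>
      rw [Finset.prod_insert ha, Finset.sum_insert ha, pow_add]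
      exact Submodule.mul_mem_mul (Submodule.pow_mem_pow _ (hx a) _) ih
  exact key Finset.univ

theorem lower_bound (hW : Module.Finite κ W) (h1 : (1 : R) ∈ W) {d : ℕ} {x : Fin d → R}
    (hx : ∀ i, x i ∈ W) (hind : AlgebraicIndependent κ x) (m : ℕ) :
    m ^ d ≤ Module.finrank κ ↥(W ^ (d * m)) := by
  classical
  have hfin : Module.Finite κ ↥(W ^ (d * m)) :=
    Module.Finite.iff_fg.2 ((Module.Finite.iff_fg.1 hW).pow _)
  let g : (Fin d → Fin m) → ↥(W ^ (d * m)) := fun α => ⟨∏ i, x i ^ (α i : ℕ), by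
    refine pow_le_pow_one h1 ?_ (prod_pow_mem h1 hx _)
    calc ∑ i, (α i : ℕ) ≤ ∑ _i : Fin d, m := Finset.sum_le_sum fun i _ => (α i).2.le
      _ = d * m := by simp⟩
  have hg : LinearIndependent κ g := by
    apply LinearIndependent.of_comp (W ^ (d * m)).subtype
    have h2 : LinearIndependent κ fun β : Fin d →₀ ℕ => (monomial β (1 : κ)) :=
      (basisMonomials (Fin d) κ).linearIndependent
    have h3 := h2.map' (aeval x : MvPolynomial (Fin d) κ →ₐ[κ] R).toLinearMap (by
      rw [LinearMap.ker_eq_bot]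
      exact hind)
    have h4 : Function.Injective fun α : Fin d → Fin m =>
        Finsupp.equivFunOnFinite.symm fun i => (α i : ℕ) := by
      intro α α' h
      have h5 := Finsupp.equivFunOnFinite.symm.injective h
      funext i
      exact Fin.ext (congrFun h5 i)
    have h5 := h3.comp _ h4
    have h6 : ⇑(W ^ (d * m)).subtype ∘ g = (⇑(aeval x : MvPolynomial (Fin d) κ →ₐ[κ] R).toLinearMap ∘
        fun β => (monomial β) 1) ∘ fun α : Fin d → Fin m =>
          Finsupp.equivFunOnFinite.symm fun i => (α i : ℕ) := by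
      funext α
      change ∏ i, x i ^ (α i : ℕ) = aeval x (monomial _ 1)
      rw [aeval_monomial, map_one, one_mul, Finsupp.prod_fintype]
      · rfl
      · intro i; exact pow_zero _
    rw [h6]
    exact h5
  have h6 := hg.fintype_card_le_finrank
  simpa using h6

end lower

section upper

variable {B : Type} [CommRing B] [IsDomain B] [Algebra κ B]

/-- the auxiliary spaces -/
noncomputable def Vs {e r : ℕ} (x : Fin e → B) (E : Fin r → B) (s : ℕ) : Submodule κ B :=
  span κ (Set.range fun p : (Fin e → Fin (s + 1)) × Fin r => (∏ i, x i ^ (p.1 i : ℕ)) * E p.2)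

theorem Vs_fin {e r : ℕ} (x : Fin e → B) (E : Fin r → B) (s : ℕ) :
    Module.Finite κ (Vs (κ := κ) x E s) ∧ Module.finrank κ (Vs (κ := κ) x E s) ≤ (s + 1) ^ e * r := by
  refine ⟨Module.Finite.iff_fg.2 (Submodule.fg_span (Set.finite_range _)), ?_⟩
  have h1 := finrank_range_le_card (R := κ) fun p : (Fin e → Fin (s + 1)) × Fin r =>
    (∏ i, x i ^ (p.1 i : ℕ)) * E p.2
  unfold Set.finrank at h1
  unfold Vs
  simpa using h1

theorem Vs_mul {e r : ℕ} {x : Fin e → B} {E : Fin r → B} {s c : ℕ} {p : MvPolynomial (Fin e) κ}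
    (hp : p.totalDegree ≤ c) {v : B} (hv : v ∈ Vs (κ := κ) x E s) :
    aeval x p * v ∈ Vs (κ := κ) x E (s + c) := by
  classical
  unfold Vs at hv
  induction hv using Submodule.span_induction with
  | zero => rw [mul_zero]; exact Submodule.zero_mem _
  | add a b _ _ ha hb => rw [mul_add]; exact Submodule.add_mem _ ha hb
  | smul a b _ hb => rw [mul_smul_comm]; exact Submodule.smul_mem _ _ hb
  | mem v hv =>
    obtain ⟨⟨α, j⟩, rfl⟩ := hv
    rw [p.as_sum, map_sum, Finset.sum_mul]
    refine Submodule.sum_mem _ fun β hβ => ?_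
    have h1 : ∀ i, β i ≤ c := by
      intro i
      refine le_trans ?_ ((le_totalDegree hβ).trans hp)
      by_cases hi : i ∈ β.support
      · exact Finset.single_le_sum (f := fun i => β i) (fun _ _ => Nat.zero_le _) hi
      · rw [Finsupp.notMem_support_iff.1 hi]; exact Nat.zero_le _
    rw [aeval_monomial, mul_assoc, ← Algebra.smul_def]
    apply Submodule.smul_mem
    apply Submodule.subset_span
    refine ⟨(fun i => ⟨β i + α i, by
      have := h1 i
      have := (α i).2
      omega⟩, j), ?_⟩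
    change (∏ i, x i ^ (β i + (α i : ℕ))) * E j = _
    simp only [pow_add, Finset.prod_mul_distrib]
    rw [Finsupp.prod_fintype _ _ fun i => pow_zero _]
    ring

/-- **The upper bound.** -/
theorem upper_bound {W : Submodule κ B} (hW : Module.Finite κ W) {e : ℕ}
    (he : Algebra.trdeg κ B = e) : ∃ C : ℕ, ∀ l : ℕ, Module.finrank κ ↥(W ^ l) ≤ C * (l + 1) ^ e := by
  classical
  have hf : FaithfulSMul κ B :=
    (faithfulSMul_iff_algebraMap_injective κ B).2 (algebraMap κ B).injective
  obtain ⟨x, hx⟩ : ∃ y : Fin e → B, IsTranscendenceBasis κ y := by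
    obtain ⟨ι'', y, hy⟩ := exists_isTranscendenceBasis' κ B
    have h1 := hy.cardinalMk_eq_trdeg
    rw [he] at h1
    have h2 : Finite ι'' := by
      rw [← Cardinal.lt_aleph0_iff_finite, h1]
      exact Cardinal.natCast_lt_aleph0
    have _ : Fintype ι'' := Fintype.ofFinite ι''
    rw [Cardinal.mk_fintype] at h1
    have h3 : Fintype.card ι'' = e := by exact_mod_cast h1
    let e : Fin e ≃ ι'' := (Fintype.equivFinOfCardEq h3).symm
    exact ⟨y ∘ e, hy.comp_equiv e⟩
  let A := Algebra.adjoin κ (Set.range x)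
  have halg : Algebra.IsAlgebraic A B := hx.isAlgebraic
  let b := Module.finBasis κ W
  have hAp : ∀ a : A, ∃ p : MvPolynomial (Fin e) κ, aeval x p = (a : B) := by
    intro a
    have h5 : (a : B) ∈ (aeval x : MvPolynomial (Fin e) κ →ₐ[κ] _).range := by
      rw [← Algebra.adjoin_range_eq_range_aeval]
      exact a.2
    exact h5
  -- integral multiples
  have hint : ∀ i, ∃ y : A, y ≠ 0 ∧ IsIntegral A (y • (b i : B)) := fun i =>
    (halg.isAlgebraic (b i : B)).exists_integral_multiple
  choose y hy0 hy using hint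
  let a : A := ∏ i, y i
  have ha0 : a ≠ 0 := Finset.prod_ne_zero_iff.2 fun i _ => hy0 i
  have hai : ∀ i, IsIntegral A (a • (b i : B)) := by
    intro i
    have h1 : a = (∏ j ∈ Finset.univ.erase i, y j) * y i :=
      (Finset.prod_erase_mul _ _ (Finset.mem_univ i)).symm
    rw [h1, mul_smul, Algebra.smul_def]
    exact (isIntegral_algebraMap).mul (hy i)
  let N : Subalgebra A B := Algebra.adjoin A (Set.range fun i => a • (b i : B))
  have hNfg : N.toSubmodule.FG := by
    apply fg_adjoin_of_finite (Set.finite_range _)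
    rintro _ ⟨i, rfl⟩
    exact hai i
  obtain ⟨r, E, hE⟩ := Submodule.fg_iff_exists_fin_generating_family.1 hNfg
  have hEN : ∀ j, E j ∈ N := by
    intro j
    have h1 : E j ∈ span A (Set.range E) := subset_span ⟨j, rfl⟩
    rw [hE] at h1
    exact h1
  have hexp : ∀ z ∈ N, ∃ p : Fin r → MvPolynomial (Fin e) κ, z = ∑ j, aeval x (p j) * E j := by
    intro z hz
    have h1 : z ∈ span A (Set.range E) := by
      rw [hE]; exact hz
    obtain ⟨c, hc⟩ := (Submodule.mem_span_range_iff_exists_fun A).1 h1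
    choose p hp using fun j => hAp (c j)
    refine ⟨p, ?_⟩
    rw [← hc]
    exact Finset.sum_congr rfl fun j _ => by rw [hp, Algebra.smul_def]; rfl
  choose q hq using fun (i : Fin (Module.finrank κ W)) (j : Fin r) =>
    hexp ((a • (b i : B)) * E j) (N.mul_mem (Algebra.subset_adjoin ⟨i, rfl⟩) (hEN j))
  obtain ⟨q1, hq1⟩ := hexp 1 N.one_mem
  let c : ℕ := (∑ i, ∑ j, ∑ l, (q i j l).totalDegree) + ∑ j, (q1 j).totalDegree
  have hc1 : ∀ i j l, (q i j l).totalDegree ≤ c := by
    intro i j l
    have h1 : (q i j l).totalDegree ≤ ∑ l, (q i j l).totalDegree :=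
      Finset.single_le_sum (f := fun l => (q i j l).totalDegree) (fun _ _ => Nat.zero_le _)
        (Finset.mem_univ l)
    have h2 : ∑ l, (q i j l).totalDegree ≤ ∑ j, ∑ l, (q i j l).totalDegree :=
      Finset.single_le_sum (f := fun j => ∑ l, (q i j l).totalDegree) (fun _ _ => Nat.zero_le _)
        (Finset.mem_univ j)
    have h3 : ∑ j, ∑ l, (q i j l).totalDegree ≤ ∑ i, ∑ j, ∑ l, (q i j l).totalDegree :=
      Finset.single_le_sum (f := fun i => ∑ j, ∑ l, (q i j l).totalDegree)
        (fun _ _ => Nat.zero_le _) (Finset.mem_univ i)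
    change _ ≤ (∑ i, ∑ j, ∑ l, (q i j l).totalDegree) + ∑ j, (q1 j).totalDegree
    omega
  have hc2 : ∀ j, (q1 j).totalDegree ≤ c := by
    intro j
    have h1 : (q1 j).totalDegree ≤ ∑ j, (q1 j).totalDegree :=
      Finset.single_le_sum (f := fun j => (q1 j).totalDegree) (fun _ _ => Nat.zero_le _)
        (Finset.mem_univ j)
    change _ ≤ (∑ i, ∑ j, ∑ l, (q i j l).totalDegree) + ∑ j, (q1 j).totalDegree
    omega
  have hEV : ∀ j, E j ∈ Vs (κ := κ) x E 0 := by
    intro j
    apply subset_span
    refine ⟨(fun _ => 0, j), ?_⟩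
    simp
  -- multiplication by the generators
  have hstep : ∀ i s, ∀ v ∈ Vs (κ := κ) x E s, (a • (b i : B)) * v ∈ Vs (κ := κ) x E (s + c) := by
    intro i s v hv
    unfold Vs at hv
    induction hv using Submodule.span_induction with
    | zero => rw [mul_zero]; exact Submodule.zero_mem _
    | add a b _ _ ha hb => rw [mul_add]; exact Submodule.add_mem _ ha hb
    | smul a b _ hb => rw [mul_smul_comm]; exact Submodule.smul_mem _ _ hb
    | mem v hv =>
      obtain ⟨⟨α, j⟩, rfl⟩ := hv
      have h1 : (a • (b i : B)) * ((∏ l, x l ^ (α l : ℕ)) * E j) =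
          ∑ l, aeval x (q i j l) * ((∏ l, x l ^ (α l : ℕ)) * E l) := by
        have h2 : (a • (b i : B)) * ((∏ l, x l ^ (α l : ℕ)) * E j) =
            (∏ l, x l ^ (α l : ℕ)) * ((a • (b i : B)) * E j) := by ring
        rw [h2, hq, Finset.mul_sum]
        exact Finset.sum_congr rfl fun l _ => by ring
      change (a • (b i : B)) * ((∏ l, x l ^ (α l : ℕ)) * E j) ∈ _
      rw [h1]
      refine Submodule.sum_mem _ fun l _ => ?_
      exact Vs_mul (hc1 i j l) (subset_span ⟨(α, l), rfl⟩)
  have hmain : ∀ l : ℕ, ∀ z ∈ W ^ l, (a : B) ^ l * z ∈ Vs (κ := κ) x E (c * l + c) := by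
    intro l
    induction l with
    | zero =>
      intro z hz
      rw [pow_zero, Submodule.mem_one] at hz
      obtain ⟨t, rfl⟩ := hz
      rw [pow_zero, one_mul, ← mul_one (algebraMap κ B t), ← Algebra.smul_def, hq1, mul_zero,
        zero_add]
      apply Submodule.smul_mem
      refine Submodule.sum_mem _ fun j _ => ?_
      have := Vs_mul (hc2 j) (hEV j)
      rwa [zero_add] at this
    | succ l ih =>
      intro z hz
      rw [pow_succ] at hz
      induction hz using Submodule.mul_induction_on' with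
      | mem_mul_mem u hu v hv =>
        have h1 := congrArg Subtype.val (b.sum_repr ⟨v, hv⟩)
        rw [AddSubmonoidClass.coe_finsetSum] at h1
        have h2 : (a : B) ^ (l + 1) * (u * v) = ∑ i, b.repr ⟨v, hv⟩ i •
            ((a • (b i : B)) * ((a : B) ^ l * u)) := by
          conv_lhs => rw [show v = ((⟨v, hv⟩ : W) : B) from rfl, ← h1]
          rw [Finset.mul_sum, Finset.mul_sum]
          apply Finset.sum_congr rfl
          intro i _
          rw [Submodule.coe_smul, Algebra.smul_def, Algebra.smul_def, Algebra.smul_def]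
          change (a : B) ^ (l + 1) * (u * (algebraMap κ B _ * (b i : B))) =
            algebraMap κ B _ * (((a : B) * (b i : B)) * ((a : B) ^ l * u))
          ring
        rw [h2]
        refine Submodule.sum_mem _ fun i _ => Submodule.smul_mem _ _ ?_
        have h3 := hstep i _ _ (ih u hu)
        have h4 : c * l + c + c = c * (l + 1) + c := by ring
        rwa [h4] at h3
      | add u _ v _ hu hv =>
        have h5 := Submodule.add_mem _ hu hv
        rwa [← mul_add] at h5
  refine ⟨(c + 1) ^ e * r, fun l => ?_⟩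
  obtain ⟨hVf, hVr⟩ := Vs_fin (κ := κ) x E (c * l + c)
  have haB : (a : B) ≠ 0 := fun h => ha0 (Subtype.ext h)
  let φ : ↥(W ^ l) →ₗ[κ] Vs (κ := κ) x E (c * l + c) :=
    { toFun := fun z => ⟨(a : B) ^ l * z, hmain l z z.2⟩
      map_add' := fun z z' => Subtype.ext (mul_add _ _ _)
      map_smul' := fun t z => Subtype.ext (mul_smul_comm _ _ _) }
  have hφ : Function.Injective φ := by
    intro z z' h
    have h1 := congrArg Subtype.val h
    exact Subtype.ext (mul_left_cancel₀ (pow_ne_zero l haB) h1)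
  calc Module.finrank κ ↥(W ^ l) ≤ Module.finrank κ (Vs (κ := κ) x E (c * l + c)) :=
        LinearMap.finrank_le_finrank_of_injective hφ
    _ ≤ (c * l + c + 1) ^ e * r := hVr
    _ ≤ ((c + 1) * (l + 1)) ^ e * r := by
        apply Nat.mul_le_mul_right
        apply Nat.pow_le_pow_left
        nlinarith
    _ = (c + 1) ^ e * r * (l + 1) ^ e := by rw [mul_pow]; ring

end upper

section pigeon

variable {R : Type} [CommRing R] [Algebra κ R]

/-- iterated derivatives of multiples -/
theorem iter_smul (δ : Derivation ℤ R R)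
    (hδ : ∀ c : κ, ∃ c' : κ, δ (algebraMap κ R c) = algebraMap κ R c') (Q : Ideal R) (j : ℕ) :
    ∀ (c : κ) (P : R), (∀ i < j, δ^[i] P ∈ Q) → δ^[j] (c • P) - c • δ^[j] P ∈ Q := by
  induction j with
  | zero => intro c P _; simp
  | succ j ih =>
    intro c P hP
    obtain ⟨c', hc⟩ := hδ c
    have hadd : ∀ (j : ℕ) (x y : R), δ^[j] (x + y) = δ^[j] x + δ^[j] y := by
      intro j
      induction j with
      | zero => intro x y; rfl
      | succ j ih => intro x y; rw [Function.iterate_succ_apply, map_add, ih]; rfl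
    have h1 : δ (c • P) = c • δ P + c' • P := by
      rw [Algebra.smul_def, δ.leibniz, hc, Algebra.smul_def (R := κ), Algebra.smul_def (R := κ),
        smul_eq_mul, smul_eq_mul]
      ring
    rw [Function.iterate_succ_apply, Function.iterate_succ_apply, h1, hadd]
    have h2 := ih c (δ P) fun i hi => by
      have := hP (i + 1) (by omega)
      rwa [Function.iterate_succ_apply] at this
    have h3 := ih c' P fun i hi => hP i (by omega)
    have h4 : c' • δ^[j] P ∈ Q := by
      rw [Algebra.smul_def]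
      exact Q.mul_mem_left _ (hP j (by omega))
    have h5 : δ^[j] (c • δ P) + δ^[j] (c' • P) - c • δ^[j] (δ P) =
        (δ^[j] (c • δ P) - c • δ^[j] (δ P)) + ((δ^[j] (c' • P) - c' • δ^[j] P) +
          c' • δ^[j] P) := by abel
    rw [h5]
    exact Q.add_mem h2 (Q.add_mem h3 h4)

theorem iter_mem {δ : Derivation ℤ R R} {Y : Submodule κ R} (hY : ∀ y ∈ Y, δ y ∈ Y) (j : ℕ) :
    ∀ y ∈ Y, δ^[j] y ∈ Y := by
  induction j with
  | zero => exact fun y hy => hy
  | succ j ih => exact fun y hy => by rw [Function.iterate_succ_apply]; exact ih _ (hY y hy)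

theorem iter_add (δ : Derivation ℤ R R) (j : ℕ) (x y : R) :
    δ^[j] (x + y) = δ^[j] x + δ^[j] y := by
  induction j generalizing x y with
  | zero => rfl
  | succ j ih => rw [Function.iterate_succ_apply, map_add, ih]; rfl

/-- **Counting.** -/
theorem pigeon (δ : Derivation ℤ R R)
    (hδ : ∀ c : κ, ∃ c' : κ, δ (algebraMap κ R c) = algebraMap κ R c') (Q : Ideal R)
    {Y : Submodule κ R} (hY : Module.Finite κ Y) (hδY : ∀ y ∈ Y, δ y ∈ Y)
    {V : Submodule κ (R ⧸ Q)} (hV : Module.Finite κ V)
    (hYV : ∀ y ∈ Y, Ideal.Quotient.mkₐ κ Q y ∈ V) (j : ℕ) :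
    ∃ K : Submodule κ R, K ≤ Y ∧ (∀ P ∈ K, ∀ i < j, δ^[i] P ∈ Q) ∧
      Module.finrank κ Y ≤ Module.finrank κ K + j * Module.finrank κ V := by
  induction j with
  | zero => exact ⟨Y, le_rfl, fun P _ i hi => absurd hi (Nat.not_lt_zero i), by omega⟩
  | succ j ih =>
    obtain ⟨K, hKY, hK, hKr⟩ := ih
    have hKf : Module.Finite κ K := Module.Finite.of_injective (Submodule.inclusion hKY)
      (Submodule.inclusion_injective _)
    let φ : K →ₗ[κ] V :=
      { toFun := fun P => ⟨Ideal.Quotient.mkₐ κ Q (δ^[j] P), hYV _ (iter_mem hδY j _ (hKY P.2))⟩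
        map_add' := fun P P' => Subtype.ext (by
          change Ideal.Quotient.mkₐ κ Q (δ^[j] ((P : R) + P')) = _
          rw [iter_add, map_add]
          rfl)
        map_smul' := fun c P => Subtype.ext (by
          change Ideal.Quotient.mkₐ κ Q (δ^[j] (c • (P : R))) =
            c • Ideal.Quotient.mkₐ κ Q (δ^[j] (P : R))
          rw [← map_smul, ← sub_eq_zero, ← map_sub]
          exact Ideal.Quotient.eq_zero_iff_mem.2 (iter_smul δ hδ Q j c P (hK P P.2))) }
    refine ⟨(LinearMap.ker φ).map K.subtype, ?_, ?_, ?_⟩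
    · exact (Submodule.map_subtype_le _ _).trans hKY
    · rintro _ ⟨P, hP, rfl⟩ i hi
      rcases Nat.lt_succ_iff_lt_or_eq.1 hi with h1 | rfl
      · exact hK P P.2 i h1
      · have h2 := congrArg Subtype.val (LinearMap.mem_ker.1 hP)
        exact Ideal.Quotient.eq_zero_iff_mem.1 h2
    · have h1 := φ.finrank_range_add_finrank_ker
      have h2 : Module.finrank κ (LinearMap.range φ) ≤ Module.finrank κ V :=
        Submodule.finrank_le _
      have h3 : Module.finrank κ ↥((LinearMap.ker φ).map K.subtype) =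
          Module.finrank κ (LinearMap.ker φ) :=
        (Submodule.equivMapOfInjective K.subtype K.injective_subtype _).finrank_eq.symm
      rw [h3]
      have h4 : (j + 1) * Module.finrank κ V = j * Module.finrank κ V + Module.finrank κ V := by
        ring
      omega

/-- **Elements with many derivatives in a prime ideal of codimension two.** -/
theorem exists_small [IsDomain R] (δ : Derivation ℤ R R)
    (hδ : ∀ c : κ, ∃ c' : κ, δ (algebraMap κ R c) = algebraMap κ R c') {W : Submodule κ R}
    (hW : Module.Finite κ W) (h1 : (1 : R) ∈ W) (hδW : ∀ l : ℕ, ∀ y ∈ W ^ l, δ y ∈ W ^ l)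
    {d e : ℕ} {x : Fin (d + 2) → R} (hx : ∀ i, x i ∈ W) (hind : AlgebraicIndependent κ x)
    (Q : Ideal R) [Q.IsPrime] (he : Algebra.trdeg κ (R ⧸ Q) = e) (hed : e ≤ d) (M : ℕ) :
    ∃ l : ℕ, 0 < l ∧ ∃ P ∈ W ^ l, P ≠ 0 ∧ ∀ j < M * l, δ^[j] P ∈ Q := by
  obtain ⟨C, hC⟩ := upper_bound (κ := κ) (W := W.map (Ideal.Quotient.mkₐ κ Q).toLinearMap)
    (Module.Finite.map _ _) he
  set m := M * C * (d + 2) * (2 * (d + 2)) ^ d + 1 with hm
  have hm1 : 1 ≤ m := by omega
  have hlow := lower_bound hW h1 hx hind m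
  set l := (d + 2) * m with hl
  have hl1 : 1 ≤ l := Nat.one_le_iff_ne_zero.2 (Nat.mul_ne_zero (by omega) (by omega))
  have hYf : Module.Finite κ ↥(W ^ l) :=
    Module.Finite.iff_fg.2 ((Module.Finite.iff_fg.1 hW).pow _)
  have hVf : Module.Finite κ ↥((W.map (Ideal.Quotient.mkₐ κ Q).toLinearMap) ^ l) :=
    Module.Finite.iff_fg.2 ((Module.Finite.iff_fg.1 (Module.Finite.map _ _)).pow _)
  obtain ⟨K, hK1, hK2, hK3⟩ := pigeon δ hδ Q hYf (hδW l) hVf (fun y hy => by
    rw [← Submodule.map_pow]
    exact ⟨y, hy, rfl⟩) (M * l)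
  have hpos : 0 < Module.finrank κ K := by
    have h2 := hC l
    have h3 : (l + 1) ^ e ≤ (2 * (d + 2)) ^ d * m ^ d := by
      rw [← mul_pow]
      calc (l + 1) ^ e ≤ (l + 1) ^ d := Nat.pow_le_pow_right (by omega) hed
        _ ≤ (2 * (d + 2) * m) ^ d := by
          apply Nat.pow_le_pow_left
          rw [hl]
          rw [hl] at hl1
          nlinarith
    have h4 : M * l * Module.finrank κ ↥((W.map (Ideal.Quotient.mkₐ κ Q).toLinearMap) ^ l) ≤
        (M * C * (d + 2) * (2 * (d + 2)) ^ d) * m ^ (d + 1) := by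
      calc M * l * Module.finrank κ ↥((W.map (Ideal.Quotient.mkₐ κ Q).toLinearMap) ^ l)
          ≤ M * l * (C * (l + 1) ^ e) := Nat.mul_le_mul_left _ h2
        _ ≤ M * l * (C * ((2 * (d + 2)) ^ d * m ^ d)) :=
            Nat.mul_le_mul_left _ (Nat.mul_le_mul_left _ h3)
        _ = (M * C * (d + 2) * (2 * (d + 2)) ^ d) * m ^ (d + 1) := by
            rw [hl, pow_succ m d]; ring
    have h5 : (M * C * (d + 2) * (2 * (d + 2)) ^ d) * m ^ (d + 1) < m ^ (d + 2) := by
      have h6 : M * C * (d + 2) * (2 * (d + 2)) ^ d < m := by omega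
      calc (M * C * (d + 2) * (2 * (d + 2)) ^ d) * m ^ (d + 1) < m * m ^ (d + 1) :=
            Nat.mul_lt_mul_of_pos_right h6 (pow_pos (by omega) _)
        _ = m ^ (d + 2) := by rw [pow_succ' m (d + 1)]
    omega
  have hKf : Module.Finite κ K := Module.Finite.of_injective (Submodule.inclusion hK1)
    (Submodule.inclusion_injective _)
  have hnt : Nontrivial K := Module.nontrivial_of_finrank_pos hpos
  obtain ⟨P, hP⟩ := exists_ne (0 : K)
  exact ⟨l, hl1, P, hK1 P.2, fun h => hP (Subtype.ext h), hK2 P P.2⟩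

end pigeon

end Pool.Agent.N131.MV
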