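import Mathlib
import Pool.Agent.Helper386.D5V.Helper386_FF_Fund
import Pool.Agent.W602.GT.Loc

/-!
Function fields of one variable: elements which are regular at all places of an affine curve, and
denominators at a place.
-/

set_option autoImplicit false
set_option linter.unusedSectionVars false

namespace Pool.Agent.N131.MV

open FF IntermediateField IsDedekindDomain Pool.Agent.W603.LV

section fin

variable {E F : Type} [Field E] [Field F] [Algebra E F]

/-- finitely generated algebraic extensions are finite -/
theorem fin_of_alg [Algebra.EssFiniteType E F] [Algebra.IsAlgebraic E F] : FiniteDimensional E F := by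
  obtain ⟨S, hS⟩ := IntermediateField.fg_top E F
  have h1 : FiniteDimensional E (IntermediateField.adjoin E (S : Set F)) :=
    IntermediateField.finiteDimensional_adjoin fun x _ =>
      (Algebra.IsAlgebraic.isAlgebraic x).isIntegral
  rw [hS] at h1
  exact LinearEquiv.finiteDimensional (IntermediateField.topEquiv (F := E) (E := F)).toLinearEquiv

end fin

section one

variable {E F : Type} [Field E] [Field F] [Algebra E F] [CharZero E] {t : F}

open scoped IntermediateField.algebraAdjoinAdjoin

/-- **The affine curve.** -/
theorem curve_ded (ht : Transcendental E t) [Algebra.EssFiniteType E F]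
    (halg : Algebra.IsAlgebraic (IntermediateField.adjoin E {t}) F) :
    IsDedekindDomain (integralClosure (Algebra.adjoin E {t}) F) ∧
      IsFractionRing (integralClosure (Algebra.adjoin E {t}) F) F ∧
      Module.Finite (Algebra.adjoin E {t}) (integralClosure (Algebra.adjoin E {t}) F) := by
  let S := Algebra.adjoin E {t}
  let L := IntermediateField.adjoin E {t}
  let e := Polynomial.algEquivOfTranscendental E t ht
  have hpid : IsPrincipalIdealRing S := IsPrincipalIdealRing.of_surjective e.toRingEquiv e.surjective
  have hess : Algebra.EssFiniteType L F := Algebra.EssFiniteType.of_comp E L F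
  have hfd : FiniteDimensional L F := fin_of_alg
  have hchar : CharZero L := charZero_of_injective_algebraMap (algebraMap E L).injective
  have hsep : Algebra.IsSeparable L F := inferInstance
  have hst : IsScalarTower S L F := inferInstance
  refine ⟨integralClosure.isDedekindDomain S L F, ?_, ?_⟩
  · exact integralClosure.isFractionRing_of_finite_extension L F
  · exact IsIntegralClosure.finite S L F (integralClosure S F)

/-- elements which are regular on the affine curve are integral -/
theorem integral_of_reg (ht : Transcendental E t) [Algebra.EssFiniteType E F]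
    (halg : Algebra.IsAlgebraic (IntermediateField.adjoin E {t}) F) {g : F}
    (hg : ∀ P : Place E F, P.Reg t → P.Reg g) : IsIntegral (Algebra.adjoin E {t}) g := by
  obtain ⟨h1, h2, h3⟩ := curve_ded ht halg
  let C := integralClosure (Algebra.adjoin E {t}) F
  have hst : IsScalarTower E C F := inferInstance
  have h4 := HeightOneSpectrum.mem_integers_of_valuation_le_one (R := C) (K := F) g (by
    intro v
    by_cases hg0 : g = 0
    · rw [hg0, map_zero]; exact zero_le
    have h5 := hg (placeOf (k := E) (L := F) v)
      (placeOf_reg v ⟨t, isIntegral_algebraMap (R := Algebra.adjoin E {t}) (A := F)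
        (x := ⟨t, Algebra.self_mem_adjoin_singleton E t⟩)⟩)
    rcases h5 with h6 | h6
    · exact absurd h6 hg0
    · exact (placeOf_nonneg (k := E) v hg0).1 h6)
  obtain ⟨a, rfl⟩ := h4
  exact a.2

/-- **Denominators.** -/
theorem denom (ht : Transcendental E t) [Algebra.EssFiniteType E F]
    (halg : Algebra.IsAlgebraic (IntermediateField.adjoin E {t}) F) (P : Place E F)
    (hP : P.Reg t) : ∃ (r : ℕ) (c : Fin r → F), (∀ i, P.Reg (c i)) ∧
      ∀ x, P.Reg x → ∃ a b : Fin r → Polynomial E, ∃ y z : F,
        y = ∑ i, Polynomial.aeval t (a i) * c i ∧ z = ∑ i, Polynomial.aeval t (b i) * c i ∧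
          z ≠ 0 ∧ P.ord z = 0 ∧ x * z = y := by
  obtain ⟨h1, h2, h3⟩ := curve_ded ht halg
  let S := Algebra.adjoin E {t}
  let C := integralClosure S F
  have hSreg : ∀ s : S, P.Reg (s : F) := by
    rintro ⟨s, hs⟩
    have h4 : s ∈ Algebra.adjoin E {t} := hs
    change P.Reg s
    clear hs
    induction h4 using Algebra.adjoin_induction with
    | mem x hx => rw [Set.mem_singleton_iff.1 hx]; exact hP
    | algebraMap c => exact P.reg_const c
    | add x y _ _ hx hy => exact P.reg_add hx hy
    | mul x y _ _ hx hy => exact P.reg_mul hx hy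
  have hCreg : ∀ c : C, P.Reg (c : F) := fun c => P.reg_of_isIntegral (A := S) hSreg c.2
  obtain ⟨v, hv⟩ := exists_placeOf_eq (B := C) P hCreg
  obtain ⟨r, c, hc⟩ := Submodule.fg_iff_exists_fin_generating_family.1
    (Module.Finite.fg_top (R := S) (M := C))
  have hexp : ∀ y : C, ∃ a : Fin r → Polynomial E,
      (y : F) = ∑ i, Polynomial.aeval t (a i) * (c i : F) := by
    intro y
    have h4 : y ∈ Submodule.span S (Set.range c) := by rw [hc]; trivial
    obtain ⟨s, hs⟩ := (Submodule.mem_span_range_iff_exists_fun S).1 h4
    have h5 : ∀ s : S, ∃ p : Polynomial E, Polynomial.aeval t p = (s : F) := by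
      intro s
      have h6 : (s : F) ∈ Algebra.adjoin E {t} := s.2
      rw [Algebra.adjoin_singleton_eq_range_aeval] at h6
      exact h6
    choose p hp using fun i => h5 (s i)
    refine ⟨p, ?_⟩
    rw [← hs, AddSubmonoidClass.coe_finsetSum]
    apply Finset.sum_congr rfl
    intro i _
    rw [hp]
    rfl
  refine ⟨r, fun i => (c i : F), fun i => hCreg (c i), fun x hx => ?_⟩
  by_cases hx0 : x = 0
  · obtain ⟨b, hb⟩ := hexp 1
    refine ⟨0, b, 0, 1, by simp, by rw [← hb]; rfl, one_ne_zero, P.ord_one, by rw [hx0, zero_mul]⟩
  obtain ⟨n, d, h⟩ := v.exists_primeCompl_mul_eq_of_integer x (by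
    rw [← placeOf_nonneg (k := E) v hx0, hv]
    exact (P.reg_iff hx0).1 hx)
  obtain ⟨a, ha⟩ := hexp n
  obtain ⟨b, hb⟩ := hexp d
  have hd0 : ((d : C) : F) ≠ 0 := by
    intro h0
    apply d.2
    have : (d : C) = 0 := Subtype.ext h0
    rw [this]
    exact v.asIdeal.zero_mem
  refine ⟨a, b, n, (d : C), ha, hb, hd0, ?_, h⟩
  have h5 := placeOf_red_eq_zero (k := E) (L := F) v (d : C)
  rw [hv] at h5
  have h6 : ¬ P.red (algebraMap C F d) = 0 := fun h7 => d.2 (h5.1 h7)
  have h8 : P.Reg (algebraMap C F d) := hCreg d
  rw [P.red_eq_zero_iff h8] at h6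
  push Not at h6
  have h7 := (P.reg_iff h6.1).1 h8
  exact le_antisymm h6.2 h7

end one

end Pool.Agent.N131.MV
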