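import Mathlib

/-!
Descent: subspaces which are stable under derivations are spanned by constant vectors.
-/

set_option autoImplicit false

namespace Pool.Agent.N131.MV

open Submodule

variable {F : Type} [Field F] {ι : Type} [Finite ι]

/-- **Descent.** -/
theorem descent (𝒟 : Set (F → F)) (h0 : ∀ δ ∈ 𝒟, δ 0 = 0) (h1 : ∀ δ ∈ 𝒟, δ 1 = 0)
    (V : Submodule F (ι → F)) (hV : ∀ δ ∈ 𝒟, ∀ v ∈ V, (fun i => δ (v i)) ∈ V) :
    V ≤ span F {v | v ∈ V ∧ ∀ δ ∈ 𝒟, ∀ i, δ (v i) = 0} := by
  classical
  cases nonempty_fintype ι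
  set S := span F {v | v ∈ V ∧ ∀ δ ∈ 𝒟, ∀ i, δ (v i) = 0} with hS
  have hSV : S ≤ V := by
    rw [hS, span_le]
    exact fun v hv => hv.1
  let sp : (ι → F) → Finset ι := fun v => Finset.univ.filter fun i => v i ≠ 0
  have hsp : ∀ v i, i ∈ sp v ↔ v i ≠ 0 := fun v i => by simp [sp]
  have key : ∀ n : ℕ, ∀ v ∈ V, (sp v).card ≤ n → v ∈ S := by
    intro n
    induction n with
    | zero =>
      intro v _ hn
      have h2 : sp v = ∅ := Finset.card_eq_zero.1 (Nat.le_zero.1 hn)
      have h3 : v = 0 := by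
        funext i
        by_contra h4
        have h5 := (hsp v i).2 h4
        rw [h2] at h5
        exact absurd h5 (Finset.notMem_empty i)
      rw [h3]
      exact S.zero_mem
    | succ n ih =>
      intro v hv hn
      by_cases hv0 : v = 0
      · rw [hv0]; exact S.zero_mem
      -- a nonzero vector of minimal support
      have hex : ∃ m, ∃ u ∈ V, u ≠ 0 ∧ sp u ⊆ sp v ∧ (sp u).card = m :=
        ⟨_, v, hv, hv0, subset_rfl, rfl⟩
      obtain ⟨u, hu, hu0, huv, hum⟩ := Nat.find_spec hex
      have hmin : ∀ w ∈ V, sp w ⊂ sp u → w = 0 := by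
        intro w hw hws
        by_contra hw0
        have h2 := Nat.find_min hex (m := (sp w).card) (by
          rw [← hum]
          exact Finset.card_lt_card hws)
        exact h2 ⟨w, hw, hw0, hws.1.trans huv, rfl⟩
      obtain ⟨i, hi⟩ := Function.ne_iff.1 hu0
      have hi' : u i ≠ 0 := hi
      set u' : ι → F := (u i)⁻¹ • u with hu'
      have hu'V : u' ∈ V := V.smul_mem _ hu
      have hu'i : u' i = 1 := by
        rw [hu', Pi.smul_apply, smul_eq_mul, inv_mul_cancel₀ hi']
      have hu's : ∀ j, u' j ≠ 0 ↔ u j ≠ 0 := by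
        intro j
        rw [hu', Pi.smul_apply, smul_eq_mul]
        simp [hi']
      have hu'c : u' ∈ S := by
        apply subset_span
        refine ⟨hu'V, fun δ hδ => ?_⟩
        have h2 : (fun j => δ (u' j)) = 0 := by
          apply hmin _ (hV δ hδ u' hu'V)
          rw [Finset.ssubset_iff_of_subset]
          · refine ⟨i, (hsp u i).2 hi', fun h3 => ?_⟩
            rw [hsp, hu'i, h1 δ hδ] at h3
            exact h3 rfl
          · intro j hj
            rw [hsp] at hj ⊢
            intro h3
            apply hj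
            have h4 : u' j = 0 := by
              by_contra h5
              exact (hu's j).1 h5 h3
            rw [h4, h0 δ hδ]
        exact fun j => congrFun h2 j
      have h5 : v - v i • u' ∈ S := by
        apply ih _ (V.sub_mem hv (V.smul_mem _ hu'V))
        have h6 : sp (v - v i • u') ⊂ sp v := by
          rw [Finset.ssubset_iff_of_subset]
          · refine ⟨i, huv ((hsp u i).2 hi'), fun h3 => ?_⟩
            rw [hsp, Pi.sub_apply, Pi.smul_apply, hu'i, smul_eq_mul, mul_one, sub_self] at h3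
            exact h3 rfl
          · intro j hj
            rw [hsp] at hj
            by_contra h3
            rw [hsp, not_not] at h3
            apply hj
            have h4 : u j = 0 := by
              by_contra h7
              have := huv ((hsp u j).2 h7)
              rw [hsp] at this
              exact this h3
            have h5 : u' j = 0 := by
              by_contra h7
              exact (hu's j).1 h7 h4
            rw [Pi.sub_apply, Pi.smul_apply, h3, h5, smul_zero, sub_zero]
        have := Finset.card_lt_card h6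
        omega
      have h6 : v = (v - v i • u') + v i • u' := by abel
      rw [h6]
      exact S.add_mem h5 (S.smul_mem _ hu'c)
  exact fun v hv => key _ v hv le_rfl

/-- spanning sets of modules by means of linear maps to spaces of vectors -/
theorem span_of {M : Type} [AddCommGroup M] [Module F M] (Φ : M →ₗ[F] (ι → F))
    (hΦ : Function.Injective Φ) (𝒯 : Set ((F → F) × (M → M))) (h0 : ∀ t ∈ 𝒯, t.1 0 = 0)
    (h1 : ∀ t ∈ 𝒯, t.1 1 = 0) (h : ∀ t ∈ 𝒯, ∀ m i, t.1 (Φ m i) = Φ (t.2 m) i) :
    span F {m : M | ∀ t ∈ 𝒯, t.2 m = 0} = ⊤ := by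
  have h2 := descent (Prod.fst '' 𝒯) (by
    rintro _ ⟨t, ht, rfl⟩
    exact h0 t ht) (by
    rintro _ ⟨t, ht, rfl⟩
    exact h1 t ht) (LinearMap.range Φ) (by
    rintro _ ⟨t, ht, rfl⟩ _ ⟨m, rfl⟩
    exact ⟨t.2 m, funext fun i => (h t ht m i).symm⟩)
  rw [eq_top_iff]
  intro m _
  have h3 : {v | v ∈ LinearMap.range Φ ∧ ∀ δ ∈ Prod.fst '' 𝒯, ∀ i, δ (v i) = 0} ⊆
      Φ '' {m : M | ∀ t ∈ 𝒯, t.2 m = 0} := by
    rintro _ ⟨⟨m, rfl⟩, h4⟩
    refine ⟨m, fun t ht => ?_, rfl⟩
    apply hΦ
    rw [map_zero]
    funext i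
    rw [← h t ht m i, h4 t.1 ⟨t, ht, rfl⟩ i]
    rfl
  have h4 := span_mono (R := F) h3 (h2 ⟨m, rfl⟩)
  rw [span_image] at h4
  obtain ⟨m', h5, h6⟩ := h4
  rwa [← hΦ h6]

end Pool.Agent.N131.MV
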