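import Mathlib
import Pool.Agent.W602.GT.Der
import Pool.Agent.N131.MV.Lin

/-!
Derivations which commute with the derivation of a linear differential equation; the Lie algebra of
the left invariant derivations.
-/

set_option autoImplicit false
set_option linter.unusedSectionVars false

namespace Pool.Agent.N131.MV

open Matrix Submodule

variable {k κ F : Type} [Field k] [Field κ] [Field F] [Algebra k F] [Algebra κ F] [CharZero F]

section mat

variable {R : Type} [CommRing R] [Algebra R F]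

omit [CharZero F] in
theorem map_mul_der (δ : Derivation R F F) {a b c : Type} [Fintype b] (M : Matrix a b F)
    (N : Matrix b c F) : (M * N).map δ = M.map δ * N + M * N.map δ := by
  ext i j
  simp only [map_apply, Matrix.mul_apply, Matrix.add_apply, map_sum, Derivation.leibniz, smul_eq_mul,
    Finset.sum_add_distrib]
  rw [add_comm]
  congr 1
  exact Finset.sum_congr rfl fun _ _ => mul_comm _ _

omit [CharZero F] in
theorem map_add_der (δ : Derivation R F F) {a b : Type} (M N : Matrix a b F) :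
    (M + N).map δ = M.map δ + N.map δ := by
  ext i j
  simp

omit [CharZero F] in
theorem map_sub_der (δ : Derivation R F F) {a b : Type} (M N : Matrix a b F) :
    (M - N).map δ = M.map δ - N.map δ := by
  ext i j
  simp

omit [CharZero F] in
theorem map_smul_der (δ : Derivation R F F) {a b : Type} (s : F) (M : Matrix a b F) :
    (s • M).map δ = δ s • M + s • M.map δ := by
  ext i j
  simp only [map_apply, Matrix.smul_apply, Matrix.add_apply, smul_eq_mul, Derivation.leibniz]
  ring

omit [CharZero F] in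
theorem map_one_der (δ : Derivation R F F) {a : Type} [DecidableEq a] :
    (1 : Matrix a a F).map δ = 0 := by
  ext i j
  by_cases h : i = j
  · subst h; simp
  · simp [h]

omit [CharZero F] in
theorem map_inv_der (δ : Derivation R F F) {a : Type} [Fintype a] [DecidableEq a]
    {M : Matrix a a F} (hM : M.det ≠ 0) : (M⁻¹).map δ = -(M⁻¹ * M.map δ * M⁻¹) := by
  have hu : IsUnit M.det := isUnit_iff_ne_zero.2 hM
  have h1 : (M * M⁻¹).map δ = 0 := by rw [mul_nonsing_inv M hu, map_one_der]
  rw [map_mul_der] at h1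
  have h2 : M⁻¹ * (M * (M⁻¹).map δ) = (M⁻¹).map δ := by
    rw [← Matrix.mul_assoc, nonsing_inv_mul M hu, Matrix.one_mul]
  have h3 : M * (M⁻¹).map δ = -(M.map δ * M⁻¹) := by
    rw [eq_neg_iff_add_eq_zero, add_comm]
    exact h1
  rw [← h2, h3, Matrix.mul_neg, Matrix.mul_assoc]

end mat

variable {n : ℕ}

/-- the traceless part -/
noncomputable def tl (M : Matrix (Fin (n + 1)) (Fin (n + 1)) F) :
    Matrix (Fin (n + 1)) (Fin (n + 1)) F := M - (M.trace * ((n : F) + 1)⁻¹) • 1

omit [CharZero F] in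
theorem tl_add (M N : Matrix (Fin (n + 1)) (Fin (n + 1)) F) : tl (M + N) = tl M + tl N := by
  unfold tl
  rw [trace_add, add_mul, add_smul]
  abel

omit [CharZero F] in
theorem tl_smul (s : F) (M : Matrix (Fin (n + 1)) (Fin (n + 1)) F) : tl (s • M) = s • tl M := by
  unfold tl
  rw [trace_smul, smul_sub, smul_smul, smul_eq_mul, mul_assoc]

theorem nn : ((n : F) + 1) ≠ 0 := by exact_mod_cast Nat.succ_ne_zero n

theorem tl_one (s : F) : tl (s • (1 : Matrix (Fin (n + 1)) (Fin (n + 1)) F)) = 0 := by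
  unfold tl
  rw [trace_smul, trace_one, Fintype.card_fin, smul_eq_mul]
  push_cast
  rw [mul_assoc, mul_inv_cancel₀ nn, mul_one, sub_self]

theorem tl_trace (M : Matrix (Fin (n + 1)) (Fin (n + 1)) F) : (tl M).trace = 0 := by
  unfold tl
  rw [trace_sub, trace_smul, trace_one, Fintype.card_fin, smul_eq_mul]
  push_cast
  rw [mul_assoc, inv_mul_cancel₀ nn, mul_one, sub_self]

omit [CharZero F] in
theorem tl_eq (M : Matrix (Fin (n + 1)) (Fin (n + 1)) F) :
    M = tl M + (M.trace * ((n : F) + 1)⁻¹) • 1 := by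
  unfold tl
  abel

omit [CharZero F] in
theorem tl_map {R : Type} [CommRing R] [Algebra R F] (δ : Derivation R F F)
    (M : Matrix (Fin (n + 1)) (Fin (n + 1)) F) : (tl M).map δ = tl (M.map δ) := by
  have h1 : δ (((n : F) + 1)⁻¹) = 0 := by
    rw [Derivation.leibniz_inv]
    have : δ ((n : F) + 1) = 0 := by
      rw [map_add, δ.map_natCast, δ.map_one_eq_zero, add_zero]
    rw [this]; simp
  have h2 : δ M.trace = (M.map δ).trace := by
    unfold trace
    rw [map_sum]
    rfl
  unfold tl
  rw [map_sub_der, map_smul_der, map_one_der, smul_zero, add_zero, Derivation.leibniz, h1, h2]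
  simp [mul_comm]

/-- the data of a linear differential equation in a projective gauge -/
structure PV (κ : Type) [Field κ] [Algebra κ F] (D : Derivation k F F) (n : ℕ)
    (U : Matrix (Fin (n + 1)) (Fin (n + 1)) F) (ρ ℓ : F)
    (A : Matrix (Fin (n + 1)) (Fin (n + 1)) κ) : Prop where
  stab : ∀ c : κ, ∃ c' : κ, D (algebraMap κ F c) = algebraMap κ F c'
  cst : ∀ x, D x = 0 → ∃ c : κ, algebraMap κ F c = x
  alg : ∀ x : F, IsAlgebraic κ x → ∃ c : κ, algebraMap κ F c = x
  one : U 0 0 = 1
  eq : U.map D = (A.map (algebraMap κ F) - ℓ • 1) * U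
  det : ρ * U.det = 1
  rho : D ρ = ((n : F) + 1) * ℓ * ρ
  gen : Algebra.IsAlgebraic
    (IntermediateField.adjoin κ (Set.range fun p : Fin (n + 1) × Fin (n + 1) => U p.1 p.2)) F

/-- the commutator with the derivation -/
noncomputable def br (D : Derivation k F F)
    (hD : ∀ c : κ, ∃ c' : κ, D (algebraMap κ F c) = algebraMap κ F c') (Δ : Derivation κ F F) :
    Derivation κ F F :=
  Derivation.mk'
    { toFun := fun x => D (Δ x) - Δ (D x)
      map_add' := fun x y => by rw [map_add, map_add, map_add, map_add]; ring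
      map_smul' := fun c x => by
        obtain ⟨c', hc⟩ := hD c
        rw [RingHom.id_apply, Algebra.smul_def, Algebra.smul_def]
        have e1 : Δ (algebraMap κ F c * x) = algebraMap κ F c * Δ x := by
          rw [Derivation.leibniz, Δ.map_algebraMap, smul_zero, add_zero, smul_eq_mul]
        have e2 : D (algebraMap κ F c * x) = algebraMap κ F c * D x + algebraMap κ F c' * x := by
          rw [Derivation.leibniz, hc, smul_eq_mul, smul_eq_mul]
          ring
        have e3 : ∀ (a : κ) (z : F), Δ (algebraMap κ F a * z) = algebraMap κ F a * Δ z := by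
          intro a z
          rw [Derivation.leibniz, Δ.map_algebraMap, smul_zero, add_zero, smul_eq_mul]
        rw [e1, e2, map_add, e3, e3, Derivation.leibniz, hc]
        simp only [smul_eq_mul]
        ring }
    fun x y => by
      change D (Δ (x * y)) - Δ (D (x * y)) = x * (D (Δ y) - Δ (D y)) + y * (D (Δ x) - Δ (D x))
      simp only [Derivation.leibniz, smul_eq_mul, map_add]
      ring

omit [CharZero F] in
theorem br_apply (D : Derivation k F F)
    (hD : ∀ c : κ, ∃ c' : κ, D (algebraMap κ F c) = algebraMap κ F c') (Δ : Derivation κ F F)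
    (x : F) : br D hD Δ x = D (Δ x) - Δ (D x) := rfl

variable (κ) in
/-- the derivations which commute with the given one -/
def Cent (D : Derivation k F F) : Set (Derivation κ F F) := {Δ | ∀ x, D (Δ x) = Δ (D x)}

variable (κ) in
/-- the invariant derivations -/
def Inv (D : Derivation k F F) : Set (Derivation κ F F) := {Δ | ∀ Δ' ∈ Cent κ D, ⁅Δ', Δ⁆ = 0}

section

variable {D : Derivation k F F} {U : Matrix (Fin (n + 1)) (Fin (n + 1)) F} {ρ ℓ : F}
  {A : Matrix (Fin (n + 1)) (Fin (n + 1)) κ}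

theorem PV.det_ne (h : PV κ D n U ρ ℓ A) : U.det ≠ 0 := by
  intro h0
  have := h.det
  rw [h0, mul_zero] at this
  exact zero_ne_one this

theorem PV.rho_ne (h : PV κ D n U ρ ℓ A) : ρ ≠ 0 := by
  intro h0
  have := h.det
  rw [h0, zero_mul] at this
  exact zero_ne_one this

theorem PV.der_zero (h : PV κ D n U ρ ℓ A) [CharZero κ] {Δ : Derivation κ F F}
    (hΔ : U.map Δ = 0) : Δ = 0 := by
  refine Pool.Agent.W602.GT.der_eq_zero Δ _ h.gen ?_
  rintro _ ⟨p, rfl⟩
  exact congrFun (congrFun hΔ p.1) p.2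

theorem PV.scalar (h : PV κ D n U ρ ℓ A) [CharZero κ] {Δ : Derivation κ F F} {μ : F}
    (hΔ : U.map Δ = μ • U) : Δ = 0 := by
  have h1 : Δ (U 0 0) = μ * U 0 0 := congrFun (congrFun hΔ 0) 0
  rw [h.one, Δ.map_one_eq_zero, mul_one] at h1
  apply h.der_zero
  rw [hΔ, ← h1, zero_smul]

/-- the right logarithmic derivative -/
noncomputable def RR (U : Matrix (Fin (n + 1)) (Fin (n + 1)) F) (Δ : Derivation κ F F) :
    Matrix (Fin (n + 1)) (Fin (n + 1)) F := tl (U⁻¹ * U.map Δ)

/-- the left logarithmic derivative -/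
noncomputable def LL (U : Matrix (Fin (n + 1)) (Fin (n + 1)) F) (Δ : Derivation κ F F) :
    Matrix (Fin (n + 1)) (Fin (n + 1)) F := tl (U.map Δ * U⁻¹)

omit [CharZero F] in
theorem map_addΔ (Δ Δ' : Derivation κ F F) : U.map ⇑(Δ + Δ') = U.map Δ + U.map Δ' := by
  ext i j
  simp

omit [CharZero F] in
theorem map_smulΔ (s : F) (Δ : Derivation κ F F) : U.map ⇑(s • Δ) = s • U.map Δ := by
  ext i j
  simp

omit [CharZero F] in
/-- the right logarithmic derivative as a linear map -/
noncomputable def RL (U : Matrix (Fin (n + 1)) (Fin (n + 1)) F) :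
    Derivation κ F F →ₗ[F] (Fin (n + 1) × Fin (n + 1) → F) where
  toFun Δ p := RR U Δ p.1 p.2
  map_add' Δ Δ' := by
    funext p
    simp only [RR, map_addΔ, Matrix.mul_add, tl_add, Pi.add_apply, Matrix.add_apply]
  map_smul' s Δ := by
    funext p
    simp only [RR, map_smulΔ, Matrix.mul_smul, tl_smul, Pi.smul_apply, Matrix.smul_apply,
      RingHom.id_apply]

/-- the left logarithmic derivative as a linear map -/
noncomputable def LLl (U : Matrix (Fin (n + 1)) (Fin (n + 1)) F) :
    Derivation κ F F →ₗ[F] (Fin (n + 1) × Fin (n + 1) → F) where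
  toFun Δ p := LL U Δ p.1 p.2
  map_add' Δ Δ' := by
    funext p
    simp only [LL, map_addΔ, Matrix.add_mul, tl_add, Pi.add_apply, Matrix.add_apply]
  map_smul' s Δ := by
    funext p
    simp only [LL, map_smulΔ, Matrix.smul_mul, tl_smul, Pi.smul_apply, Matrix.smul_apply,
      RingHom.id_apply]

theorem PV.RL_inj (h : PV κ D n U ρ ℓ A) [CharZero κ] :
    Function.Injective (RL U : Derivation κ F F →ₗ[F] _) := by
  rw [← LinearMap.ker_eq_bot, LinearMap.ker_eq_bot']
  intro Δ hΔ
  have h1 : tl (U⁻¹ * U.map Δ) = 0 := by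
    ext i j
    exact congrFun hΔ (i, j)
  have h2 := tl_eq (U⁻¹ * U.map Δ)
  rw [h1, zero_add] at h2
  apply h.scalar (μ := (U⁻¹ * U.map Δ).trace * ((n : F) + 1)⁻¹)
  have h3 : U * (U⁻¹ * U.map Δ) = U.map Δ := by
    rw [← Matrix.mul_assoc, mul_nonsing_inv U (isUnit_iff_ne_zero.2 h.det_ne), Matrix.one_mul]
  conv_lhs => rw [← h3, h2, Matrix.mul_smul, Matrix.mul_one]

theorem PV.LL_inj (h : PV κ D n U ρ ℓ A) [CharZero κ] :
    Function.Injective (LLl U : Derivation κ F F →ₗ[F] _) := by
  rw [← LinearMap.ker_eq_bot, LinearMap.ker_eq_bot']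
  intro Δ hΔ
  have h1 : tl (U.map Δ * U⁻¹) = 0 := by
    ext i j
    exact congrFun hΔ (i, j)
  have h2 := tl_eq (U.map Δ * U⁻¹)
  rw [h1, zero_add] at h2
  apply h.scalar (μ := (U.map Δ * U⁻¹).trace * ((n : F) + 1)⁻¹)
  have h3 : (U.map Δ * U⁻¹) * U = U.map Δ := by
    rw [Matrix.mul_assoc, nonsing_inv_mul U (isUnit_iff_ne_zero.2 h.det_ne), Matrix.mul_one]
  conv_lhs => rw [← h3, h2, Matrix.smul_mul, Matrix.one_mul]

omit [CharZero F] in
theorem map_alg {a b : Type} (Δ : Derivation κ F F) (M : Matrix a b κ) :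
    (M.map (algebraMap κ F)).map Δ = 0 := by
  ext i j
  simp

theorem PV.R_der (h : PV κ D n U ρ ℓ A) (Δ : Derivation κ F F) :
    (RR U Δ).map D = RR U (br D h.stab Δ) := by
  have hu : IsUnit U.det := isUnit_iff_ne_zero.2 h.det_ne
  have e1 : (U.map Δ).map D = (U.map D).map Δ + U.map (br D h.stab Δ) := by
    ext i j
    simp only [map_apply, Matrix.add_apply, br_apply]
    ring
  have e2 : (U.map D).map Δ = (A.map (algebraMap κ F) - ℓ • 1) * U.map Δ - Δ ℓ • U := by
    rw [h.eq, map_mul_der, map_sub_der, map_alg, map_smul_der, map_one_der, smul_zero, add_zero,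
      zero_sub, Matrix.neg_mul, Matrix.smul_mul, Matrix.one_mul]
    abel
  have e3 : (U⁻¹ * U.map Δ).map D = U⁻¹ * U.map (br D h.stab Δ) - Δ ℓ • 1 := by
    rw [map_mul_der, map_inv_der D h.det_ne, e1, e2, h.eq]
    have e4 : U⁻¹ * ((A.map (algebraMap κ F) - ℓ • 1) * U) * U⁻¹ * U.map Δ =
        U⁻¹ * ((A.map (algebraMap κ F) - ℓ • 1) * U.map Δ) := by
      rw [Matrix.mul_assoc U⁻¹, Matrix.mul_assoc _ U U⁻¹, mul_nonsing_inv U hu, Matrix.mul_one,
        Matrix.mul_assoc]
    rw [Matrix.neg_mul, e4, Matrix.mul_add, Matrix.mul_sub, Matrix.mul_smul,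
      nonsing_inv_mul U hu]
    abel
  unfold RR
  rw [tl_map, e3, sub_eq_add_neg, tl_add, ← neg_smul, tl_one, add_zero]

/-- **The derivations which commute with the given one span all derivations.** -/
theorem PV.cent_span (h : PV κ D n U ρ ℓ A) [CharZero κ] : span F (Cent κ D) = ⊤ := by
  have h1 := span_of (RL U : Derivation κ F F →ₗ[F] _) h.RL_inj {(⇑D, br D h.stab)} (by
    rintro _ rfl
    exact map_zero D) (by
    rintro _ rfl
    exact D.map_one_eq_zero) (by
    rintro _ rfl Δ p
    exact congrFun (congrFun (h.R_der Δ) p.1) p.2)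
  rw [← h1]
  congr 1
  ext Δ
  constructor
  · rintro hΔ _ rfl
    ext x
    change br D h.stab Δ x = 0
    rw [br_apply, hΔ x, sub_self]
  · intro hΔ x
    have h2 : br D h.stab Δ = 0 := hΔ _ rfl
    have h3 : br D h.stab Δ x = 0 := by rw [h2]; rfl
    rw [br_apply, sub_eq_zero] at h3
    exact h3

/-- elements which are annihilated by the commuting derivations -/
theorem PV.cent_const (h : PV κ D n U ρ ℓ A) [CharZero κ] {x : F}
    (hx : ∀ Δ ∈ Cent κ D, Δ x = 0) : ∃ c : κ, algebraMap κ F c = x := by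
  apply h.alg
  by_contra htr
  have h1 : ∀ Δ : Derivation κ F F, Δ x = 0 := by
    intro Δ
    have h2 : Δ ∈ span F (Cent κ D) := by rw [h.cent_span]; trivial
    induction h2 using span_induction with
    | mem Δ hΔ => exact hx Δ hΔ
    | zero => rfl
    | add Δ Δ' _ _ h3 h4 => rw [Derivation.add_apply, h3, h4, add_zero]
    | smul a Δ _ h3 => rw [Derivation.smul_apply, h3, smul_zero]
  have h3 : AlgebraicIndepOn κ id ({x} : Set F) := by
    have h4 : AlgebraicIndependent κ fun i : ({x} : Set F) => (i : F) := by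
      rw [algebraicIndependent_unique_type_iff]
      exact htr
    exact h4
  obtain ⟨t, ht, hb⟩ := exists_isTranscendenceBasis_superset h3
  obtain ⟨Δ, hΔ⟩ := Pool.Agent.W602.GT.exists_der (fun i : t => (i : F)) hb fun _ => 1
  have h4 := hΔ ⟨x, ht rfl⟩
  rw [h1 Δ] at h4
  exact zero_ne_one h4

/-- the right logarithmic derivatives of commuting derivations are constant -/
theorem PV.R_const (h : PV κ D n U ρ ℓ A) {Δ : Derivation κ F F} (hΔ : Δ ∈ Cent κ D) :
    ∃ M : Matrix (Fin (n + 1)) (Fin (n + 1)) κ, RR U Δ = M.map (algebraMap κ F) := by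
  have h1 : (RR U Δ).map D = 0 := by
    rw [h.R_der]
    have h2 : U.map (br D h.stab Δ) = 0 := by
      ext i j
      simp only [map_apply, br_apply, hΔ (U i j), sub_self, Matrix.zero_apply]
    unfold RR
    rw [h2, Matrix.mul_zero]
    ext i j
    simp [tl]
  choose M hM using fun i j => h.cst (RR U Δ i j) (congrFun (congrFun h1 i) j)
  exact ⟨Matrix.of M, by ext i j; exact (hM i j).symm⟩

theorem PV.L_der (h : PV κ D n U ρ ℓ A) {Δ' : Derivation κ F F} (hΔ' : Δ' ∈ Cent κ D)
    (Δ : Derivation κ F F) : (LL U Δ).map Δ' = LL U ⁅Δ', Δ⁆ := by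
  have hu : IsUnit U.det := isUnit_iff_ne_zero.2 h.det_ne
  obtain ⟨M, hM⟩ := h.R_const hΔ'
  set r' := U⁻¹ * U.map Δ' with hr'
  set μ := r'.trace * ((n : F) + 1)⁻¹ with hμ
  have e0 : r' = M.map (algebraMap κ F) + μ • 1 := by
    rw [← hM]
    exact tl_eq r'
  have e1 : U.map Δ' = U * r' := by
    rw [hr', ← Matrix.mul_assoc, mul_nonsing_inv U hu, Matrix.one_mul]
  have e2 : (U.map Δ).map Δ' = (U.map Δ').map Δ + U.map ⇑⁅Δ', Δ⁆ := by
    ext i j
    simp only [map_apply, Matrix.add_apply, Derivation.commutator_apply]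
    ring
  have e3 : (U.map Δ').map Δ = U.map Δ * r' + Δ μ • U := by
    rw [e1, map_mul_der]
    have e4 : r'.map Δ = Δ μ • 1 := by
      rw [e0, map_add_der, map_alg, map_smul_der, map_one_der, smul_zero, add_zero, zero_add]
    rw [e4, Matrix.mul_smul, Matrix.mul_one]
  have e5 : (U.map Δ * U⁻¹).map Δ' = U.map ⇑⁅Δ', Δ⁆ * U⁻¹ + Δ μ • 1 := by
    rw [map_mul_der, map_inv_der Δ' h.det_ne, e2, e3, e1]
    have e6 : U⁻¹ * (U * r') * U⁻¹ = r' * U⁻¹ := by
      rw [← Matrix.mul_assoc, nonsing_inv_mul U hu, Matrix.one_mul]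
    rw [e6, Matrix.mul_neg, Matrix.add_mul, Matrix.add_mul, Matrix.smul_mul,
      mul_nonsing_inv U hu, Matrix.mul_assoc]
    abel
  unfold LL
  rw [tl_map, e5, tl_add, tl_one, add_zero]

/-- **The invariant derivations span all derivations.** -/
theorem PV.inv_span (h : PV κ D n U ρ ℓ A) [CharZero κ] : span F (Inv κ D) = ⊤ := by
  have h1 := span_of (LLl U : Derivation κ F F →ₗ[F] _) h.LL_inj
    ((fun Δ' : Derivation κ F F => ((⇑Δ' : F → F), fun Δ => ⁅Δ', Δ⁆)) '' Cent κ D) (by
    rintro _ ⟨Δ', -, rfl⟩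
    exact map_zero Δ') (by
    rintro _ ⟨Δ', -, rfl⟩
    exact Δ'.map_one_eq_zero) (by
    rintro _ ⟨Δ', hΔ', rfl⟩ Δ p
    exact congrFun (congrFun (h.L_der hΔ' Δ) p.1) p.2)
  rw [← h1]
  congr 1
  ext Δ
  constructor
  · rintro hΔ _ ⟨Δ', hΔ', rfl⟩
    exact hΔ Δ' hΔ'
  · intro hΔ Δ' hΔ'
    exact hΔ _ ⟨Δ', hΔ', rfl⟩

/-- the left logarithmic derivatives of invariant derivations are constant -/
theorem PV.L_const (h : PV κ D n U ρ ℓ A) [CharZero κ] {Δ : Derivation κ F F}
    (hΔ : Δ ∈ Inv κ D) :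
    ∃ M : Matrix (Fin (n + 1)) (Fin (n + 1)) κ, LL U Δ = M.map (algebraMap κ F) := by
  have h1 : ∀ i j, ∃ c : κ, algebraMap κ F c = LL U Δ i j := by
    intro i j
    apply h.cent_const
    intro Δ' hΔ'
    have h2 := congrFun (congrFun (h.L_der hΔ' Δ) i) j
    rw [hΔ Δ' hΔ'] at h2
    have h3 : LL U (0 : Derivation κ F F) = 0 := by
      unfold LL
      have h4 : U.map ⇑(0 : Derivation κ F F) = 0 := by
        ext i j
        simp
      rw [h4, Matrix.zero_mul]
      ext i j
      simp [tl]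
    rw [h3] at h2
    exact h2
  choose M hM using h1
  exact ⟨Matrix.of M, by ext i j; exact (hM i j).symm⟩

/-- **Finite-dimensional spaces which are stable under the derivation are stable under the
invariant derivations.** -/
theorem PV.stable (h : PV κ D n U ρ ℓ A) [CharZero κ] {Y : Submodule κ F} (hfin : Module.Finite κ Y)
    (hY : ∀ y ∈ Y, D y ∈ Y) {Δ : Derivation κ F F} (hΔ : Δ ∈ Inv κ D) {y : F} (hy : y ∈ Y) :
    Δ y ∈ Y := by
  classical
  set s := Module.finrank κ Y with hs
  let b0 := Module.finBasis κ Y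
  let b : Fin s → F := fun i => (b0 i : F)
  have hbY : ∀ i, b i ∈ Y := fun i => (b0 i).2
  have hbind : ∀ c : Fin s → κ, ∑ i, algebraMap κ F (c i) * b i = 0 → c = 0 := by
    intro c hc
    have h1 : ∑ i, c i • b0 i = 0 := by
      apply Subtype.ext
      rw [AddSubmonoidClass.coe_finsetSum]
      simp only [Submodule.coe_smul, ZeroMemClass.coe_zero]
      rw [← hc]
      exact Finset.sum_congr rfl fun i _ => Algebra.smul_def _ _
    funext i
    exact Fintype.linearIndependent_iff.1 b0.linearIndependent c h1 i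
  have hbspan : ∀ y ∈ Y, ∃ c : Fin s → κ, y = ∑ i, algebraMap κ F (c i) * b i := by
    intro y hy
    refine ⟨fun i => b0.repr ⟨y, hy⟩ i, ?_⟩
    have h1 := congrArg Subtype.val (b0.sum_repr ⟨y, hy⟩)
    rw [AddSubmonoidClass.coe_finsetSum] at h1
    refine h1.symm.trans ?_
    exact Finset.sum_congr rfl fun i _ => (Algebra.smul_def _ _)
  choose B hB using fun i => hbspan _ (hY _ (hbY i))
  -- solutions
  let Sol : Set (Fin s → F) := {v | ∀ i, D (v i) = ∑ j, algebraMap κ F (B i j) * v j}
  have hcent : ∀ Δ' ∈ Cent κ D, ∀ v ∈ Sol, (fun i => Δ' (v i)) ∈ Sol := by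
    intro Δ' hΔ' v hv i
    rw [hΔ' (v i), hv i, map_sum]
    apply Finset.sum_congr rfl
    intro j _
    rw [Derivation.leibniz, Δ'.map_algebraMap]
    simp
  have hbSol : b ∈ Sol := hB
  have hspan : span F Sol = ⊤ := by
    let V : Submodule F (Fin s → F) :=
      { carrier := {c | ∀ v ∈ Sol, ∑ i, c i * v i = 0}
        add_mem' := fun {a a'} h1 h2 v hv => by
          simp only [Pi.add_apply, add_mul, Finset.sum_add_distrib]
          rw [h1 v hv, h2 v hv, add_zero]
        zero_mem' := fun v _ => by simp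
        smul_mem' := fun a c h1 v hv => by
          simp only [Pi.smul_apply, smul_eq_mul, mul_assoc]
          rw [← Finset.mul_sum, h1 v hv, mul_zero] }
    have hV : V = ⊥ := by
      have h1 := descent ((fun Δ' : Derivation κ F F => (⇑Δ' : F → F)) '' Cent κ D) (by
        rintro _ ⟨Δ', -, rfl⟩
        exact map_zero Δ') (by
        rintro _ ⟨Δ', -, rfl⟩
        exact Δ'.map_one_eq_zero) V (by
        rintro _ ⟨Δ', hΔ', rfl⟩ c hc v hv
        have h2 := congrArg (⇑Δ') (hc v hv)
        rw [map_sum, map_zero] at h2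
        simp only [Derivation.leibniz, smul_eq_mul, Finset.sum_add_distrib] at h2
        have h3 := hc _ (hcent Δ' hΔ' v hv)
        rw [h3, zero_add] at h2
        rw [← h2]
        exact Finset.sum_congr rfl fun i _ => mul_comm _ _)
      rw [eq_bot_iff]
      refine h1.trans ?_
      rw [span_le]
      rintro c ⟨hc1, hc2⟩
      choose c' hc' using fun i => h.cent_const (x := c i) fun Δ' hΔ' => hc2 _ ⟨Δ', hΔ', rfl⟩ i
      have h2 := hc1 b hbSol
      simp only [← hc'] at h2
      have h3 := hbind c' h2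
      rw [SetLike.mem_coe, Submodule.mem_bot]
      funext i
      rw [← hc', h3]
      simp
    by_contra hne
    obtain ⟨f, hf0, hf⟩ := Submodule.exists_le_ker_of_lt_top _ (lt_top_iff_ne_top.2 hne)
    apply hf0
    have h1 : (fun i => f (Pi.single i 1)) ∈ V := by
      intro v hv
      have h2 := hf (subset_span hv)
      rw [LinearMap.mem_ker] at h2
      rw [← h2]
      conv_rhs => rw [← Finset.univ_sum_single v, map_sum]
      apply Finset.sum_congr rfl
      intro i _
      have h3 : (Pi.single i (v i) : Fin s → F) = v i • Pi.single i 1 := by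
        rw [← Pi.single_smul, smul_eq_mul, mul_one]
      rw [h3, map_smul, smul_eq_mul, mul_comm]
    rw [hV, Submodule.mem_bot] at h1
    apply LinearMap.pi_ext
    intro i x
    have h3 : (Pi.single i x : Fin s → F) = x • Pi.single i 1 := by
      rw [← Pi.single_smul, smul_eq_mul, mul_one]
    have h4 := congrFun h1 i
    simp only [Pi.zero_apply] at h4
    rw [h3, map_smul, h4]
    simp
  -- a fundamental matrix
  obtain ⟨t, ht1, ht2, ht3⟩ := exists_linearIndependent F Sol
  have ht4 : ⊤ ≤ span F (Set.range ((↑) : t → Fin s → F)) := by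
    rw [Subtype.range_coe_subtype, Set.ofPred_mem_eq, ht2, hspan]
  let bt := Module.Basis.mk ht3 ht4
  have hfint : Fintype t := FiniteDimensional.fintypeBasisIndex bt
  have hcard : Fintype.card t = s := by
    rw [← Module.finrank_eq_card_basis bt, Module.finrank_fin_fun]
  let e : Fin s ≃ t := (Fintype.equivFinOfCardEq hcard).symm
  let Z : Matrix (Fin s) (Fin s) F := Matrix.of fun i j => (e j : Fin s → F) i
  have hZdet : Z.det ≠ 0 := by
    have h1 : LinearIndependent F fun j => (e j : Fin s → F) :=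
      ht3.comp e e.injective
    have h2 : LinearIndependent F Z.col := h1
    exact (Matrix.linearIndependent_cols_iff_isUnit.1 h2 |>.map Matrix.detMonoidHom).ne_zero
  have huZ : IsUnit Z.det := isUnit_iff_ne_zero.2 hZdet
  have hZD : Z.map D = (Matrix.of B).map (algebraMap κ F) * Z := by
    ext i j
    exact ht1 (e j).2 i
  -- the matrix of the derivation
  have hN : ∀ Δ' ∈ Cent κ D, ∃ N : Matrix (Fin s) (Fin s) κ,
      Z⁻¹ * Z.map Δ' = N.map (algebraMap κ F) := by
    intro Δ' hΔ'
    have h1 : (Z.map Δ').map D = (Matrix.of B).map (algebraMap κ F) * Z.map Δ' := by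
      ext i j
      exact hcent Δ' hΔ' _ (ht1 (e j).2) i
    have h2 : (Z⁻¹ * Z.map Δ').map D = 0 := by
      rw [map_mul_der, map_inv_der D hZdet, h1, hZD, Matrix.neg_mul]
      have h3 : Z⁻¹ * ((Matrix.of B).map (algebraMap κ F) * Z) * Z⁻¹ * Z.map Δ' =
          Z⁻¹ * ((Matrix.of B).map (algebraMap κ F) * Z.map Δ') := by
        rw [Matrix.mul_assoc Z⁻¹, Matrix.mul_assoc _ Z Z⁻¹, mul_nonsing_inv Z huZ, Matrix.mul_one,
          Matrix.mul_assoc]
      rw [h3, neg_add_cancel]
    choose N hN using fun i j => h.cst _ (congrFun (congrFun h2 i) j)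
    exact ⟨Matrix.of N, by ext i j; exact (hN i j).symm⟩
  have hM : ∀ i j, ∃ c : κ, algebraMap κ F c = (Z.map Δ * Z⁻¹) i j := by
    have h0 : ∀ Δ' ∈ Cent κ D, (Z.map Δ * Z⁻¹).map Δ' = 0 := by
      intro Δ' hΔ'
      obtain ⟨N, hN⟩ := hN Δ' hΔ'
      have e1 : Z.map Δ' = Z * N.map (algebraMap κ F) := by
        rw [← hN, ← Matrix.mul_assoc, mul_nonsing_inv Z huZ, Matrix.one_mul]
      have e2 : (Z.map Δ).map Δ' = (Z.map Δ').map Δ := by
        ext i j
        have h1 : ⁅Δ', Δ⁆ (Z i j) = 0 := by rw [hΔ Δ' hΔ']; rfl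
        rw [Derivation.commutator_apply, sub_eq_zero] at h1
        exact h1
      rw [map_mul_der, map_inv_der Δ' hZdet, e2, e1, map_mul_der, map_alg, Matrix.mul_zero,
        add_zero]
      have e6 : Z⁻¹ * (Z * N.map (algebraMap κ F)) * Z⁻¹ = N.map (algebraMap κ F) * Z⁻¹ := by
        rw [← Matrix.mul_assoc, nonsing_inv_mul Z huZ, Matrix.one_mul]
      rw [e6, Matrix.mul_neg, Matrix.mul_assoc, add_neg_cancel]
    intro i j
    apply h.cent_const
    intro Δ' hΔ'
    exact congrFun (congrFun (h0 Δ' hΔ') i) j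
  choose M hM using hM
  have hZΔ : Z.map Δ = (Matrix.of M).map (algebraMap κ F) * Z := by
    have h1 : (Matrix.of M).map (algebraMap κ F) = Z.map Δ * Z⁻¹ := by
      ext i j
      exact hM i j
    rw [h1, Matrix.mul_assoc, nonsing_inv_mul Z huZ, Matrix.mul_one]
  -- the basis
  have hc : ∃ c : Fin s → κ, b = Z *ᵥ fun i => algebraMap κ F (c i) := by
    let bm : Matrix (Fin s) (Fin 1) F := Matrix.of fun i _ => b i
    have h1 : bm.map D = (Matrix.of B).map (algebraMap κ F) * bm := by
      ext i j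
      exact hB i
    have h2 : (Z⁻¹ * bm).map D = 0 := by
      rw [map_mul_der, map_inv_der D hZdet, h1, hZD, Matrix.neg_mul]
      have h3 : Z⁻¹ * ((Matrix.of B).map (algebraMap κ F) * Z) * Z⁻¹ * bm =
          Z⁻¹ * ((Matrix.of B).map (algebraMap κ F) * bm) := by
        rw [Matrix.mul_assoc Z⁻¹, Matrix.mul_assoc _ Z Z⁻¹, mul_nonsing_inv Z huZ, Matrix.mul_one,
          Matrix.mul_assoc]
      rw [h3, neg_add_cancel]
    choose c hc using fun i => h.cst _ (congrFun (congrFun h2 i) 0)
    refine ⟨c, ?_⟩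
    have h4 : bm = Z * (Z⁻¹ * bm) := by
      rw [← Matrix.mul_assoc, mul_nonsing_inv Z huZ, Matrix.one_mul]
    funext i
    have h5 := congrFun (congrFun h4 i) 0
    change b i = _ at h5
    rw [h5, Matrix.mul_apply, Matrix.mulVec, dotProduct]
    exact Finset.sum_congr rfl fun j _ => by rw [hc]
  obtain ⟨c, hc⟩ := hc
  have hbΔ : ∀ i, Δ (b i) = ∑ j, algebraMap κ F (M i j) * b j := by
    intro i
    have h1 : Δ (b i) = ∑ j, (Z.map Δ) i j * algebraMap κ F (c j) := by
      rw [hc, Matrix.mulVec, dotProduct, map_sum]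
      apply Finset.sum_congr rfl
      intro j _
      rw [Derivation.leibniz, Δ.map_algebraMap, smul_zero, zero_add, smul_eq_mul, mul_comm]
      rfl
    rw [h1, hZΔ]
    have h2 : ∀ j, b j = ∑ l, Z j l * algebraMap κ F (c l) := fun j => by
      conv_lhs => rw [hc]
      rfl
    simp only [h2, Matrix.mul_apply, Finset.sum_mul, Finset.mul_sum]
    rw [Finset.sum_comm]
    refine Finset.sum_congr rfl fun j _ => Finset.sum_congr rfl fun l _ => ?_
    rw [mul_assoc]
    rfl
  obtain ⟨a, rfl⟩ := hbspan y hy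
  rw [map_sum]
  apply Submodule.sum_mem
  intro i _
  rw [Derivation.leibniz, Δ.map_algebraMap, smul_zero, add_zero, hbΔ i, smul_eq_mul,
    ← Algebra.smul_def]
  apply Submodule.smul_mem
  apply Submodule.sum_mem
  intro j _
  rw [← Algebra.smul_def]
  exact Submodule.smul_mem _ _ (hbY j)

end

end Pool.Agent.N131.MV
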