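import Mathlib
import Pool.Agent.N131.MV.Pv

/-!
The ring of a linear differential equation in a projective gauge has no prime ideals which are
stable under the derivation.
-/

set_option autoImplicit false
set_option linter.unusedSectionVars false

namespace Pool.Agent.N131.MV

open Matrix Submodule

variable {k κ F : Type} [Field k] [Field κ] [Field F] [Algebra k F] [Algebra κ F] [CharZero F]

/-- the derivative of a product -/
theorem der_prod {R : Type} [CommRing R] [Algebra R F] (δ : Derivation R F F) {ι : Type}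
    [DecidableEq ι] (s : Finset ι) (x : ι → F) :
    δ (∏ i ∈ s, x i) = ∑ i ∈ s, ∏ j ∈ s, Function.update x i (δ (x i)) j := by
  induction s using Finset.induction_on with
  | empty => simp
  | insert a s ha ih =>
    rw [Finset.prod_insert ha, Derivation.leibniz, ih, Finset.sum_insert ha, Finset.prod_insert ha,
      Function.update_self, Finset.prod_update_of_notMem ha, smul_eq_mul, smul_eq_mul,
      Finset.mul_sum, add_comm]
    congr 1
    · ring
    · apply Finset.sum_congr rfl
      intro i hi
      have hia : a ≠ i := fun h => ha (h ▸ hi)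
      rw [Finset.prod_insert ha, Function.update_of_ne hia]

section pow

variable {W : Submodule κ F}

theorem pow_le_succ (h1 : (1 : F) ∈ W) (l : ℕ) : W ^ l ≤ W ^ (l + 1) := by
  intro x hx
  have := Submodule.mul_mem_mul hx h1
  rwa [mul_one, ← pow_succ] at this

theorem pow_mono' (h1 : (1 : F) ∈ W) {l m : ℕ} (h : l ≤ m) : W ^ l ≤ W ^ m := by
  induction m, h using Nat.le_induction with
  | base => exact le_rfl
  | succ m _ ih => exact ih.trans (pow_le_succ h1 m)

theorem adj_iff (h1 : (1 : F) ∈ W) {x : F} :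
    x ∈ Algebra.adjoin κ (W : Set F) ↔ ∃ l : ℕ, x ∈ W ^ l := by
  constructor
  · intro hx
    induction hx using Algebra.adjoin_induction with
    | mem x hx => exact ⟨1, by rwa [pow_one]⟩
    | algebraMap c => exact ⟨0, by rw [pow_zero]; exact Submodule.mem_one.2 ⟨c, rfl⟩⟩
    | add x y _ _ hx hy =>
      obtain ⟨l, hl⟩ := hx
      obtain ⟨m, hm⟩ := hy
      exact ⟨max l m, Submodule.add_mem _ (pow_mono' h1 (le_max_left _ _) hl)
        (pow_mono' h1 (le_max_right _ _) hm)⟩
    | mul x y _ _ hx hy =>
      obtain ⟨l, hl⟩ := hx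
      obtain ⟨m, hm⟩ := hy
      exact ⟨l + m, by rw [pow_add]; exact Submodule.mul_mem_mul hl hm⟩
  · rintro ⟨l, hl⟩
    induction l generalizing x with
    | zero =>
      rw [pow_zero, Submodule.mem_one] at hl
      obtain ⟨c, rfl⟩ := hl
      exact Subalgebra.algebraMap_mem _ c
    | succ l ih =>
      rw [pow_succ] at hl
      induction hl using Submodule.mul_induction_on' with
      | mem_mul_mem a ha b hb => exact mul_mem (ih ha) (Algebra.subset_adjoin hb)
      | add a _ b _ ha hb => exact add_mem ha hb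

theorem pow_stab {D : Derivation k F F}
    (hD : ∀ c : κ, ∃ c' : κ, D (algebraMap κ F c) = algebraMap κ F c')
    (hW : ∀ x ∈ W, D x ∈ W) (l : ℕ) : ∀ x ∈ W ^ l, D x ∈ W ^ l := by
  induction l with
  | zero =>
    intro x hx
    rw [pow_zero, Submodule.mem_one] at hx ⊢
    obtain ⟨c, rfl⟩ := hx
    obtain ⟨c', hc⟩ := hD c
    exact ⟨c', hc.symm⟩
  | succ l ih =>
    intro x hx
    rw [pow_succ] at hx ⊢
    induction hx using Submodule.mul_induction_on' with
    | mem_mul_mem a ha b hb =>
      rw [D.leibniz, smul_eq_mul, smul_eq_mul]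
      refine Submodule.add_mem _ (Submodule.mul_mem_mul ha (hW b hb)) ?_
      rw [mul_comm b]
      exact Submodule.mul_mem_mul (ih a ha) hb
    | add a _ b _ ha hb =>
      rw [map_add]
      exact Submodule.add_mem _ ha hb

theorem pow_fin (hW : Module.Finite κ W) (l : ℕ) : Module.Finite κ ↥(W ^ l) :=
  Module.Finite.iff_fg.2 ((Module.Finite.iff_fg.1 hW).pow l)

end pow

variable {n : ℕ}

/-- the generators of the ring -/
noncomputable def gen1 (U : Matrix (Fin (n + 1)) (Fin (n + 1)) F) (ρ : F)
    (p : (Fin (n + 1) → Fin (n + 1)) × (Fin (n + 1) → Fin (n + 1))) : F :=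
  ρ * ∏ s, U (p.1 s) (p.2 s)

variable (κ) in
/-- the space of the generators -/
noncomputable def W1 (U : Matrix (Fin (n + 1)) (Fin (n + 1)) F) (ρ : F) : Submodule κ F :=
  span κ (Set.range (gen1 U ρ))

variable (κ) in
/-- the ring -/
noncomputable def R0 (U : Matrix (Fin (n + 1)) (Fin (n + 1)) F) (ρ : F) : Subalgebra κ F :=
  Algebra.adjoin κ (W1 κ U ρ : Set F)

section

variable {D : Derivation k F F} {U : Matrix (Fin (n + 1)) (Fin (n + 1)) F} {ρ ℓ : F}
  {A : Matrix (Fin (n + 1)) (Fin (n + 1)) κ}

theorem W1_fin : Module.Finite κ (W1 κ U ρ) :=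
  Module.Finite.iff_fg.2 (Submodule.fg_span (Set.finite_range _))

theorem PV.one_mem (h : PV κ D n U ρ ℓ A) : (1 : F) ∈ W1 κ U ρ := by
  rw [← h.det, Matrix.det_apply, Finset.mul_sum]
  apply Submodule.sum_mem
  intro σ _
  rw [mul_smul_comm]
  have h1 : ρ * ∏ i, U (σ i) i ∈ W1 κ U ρ := subset_span ⟨(σ, id), rfl⟩
  have h2 : (Equiv.Perm.sign σ) • (ρ * ∏ i, U (σ i) i) =
      (((Equiv.Perm.sign σ : ℤˣ) : ℤ) : κ) • (ρ * ∏ i, U (σ i) i) := by
    rw [Units.smul_def, Algebra.smul_def (R := κ), map_intCast, zsmul_eq_mul]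
  rw [h2]
  exact Submodule.smul_mem _ _ h1

theorem PV.W1_stab (h : PV κ D n U ρ ℓ A) : ∀ x ∈ W1 κ U ρ, D x ∈ W1 κ U ρ := by
  classical
  intro x hx
  unfold W1 at hx
  induction hx using Submodule.span_induction with
  | zero => rw [map_zero]; exact Submodule.zero_mem _
  | add x y _ _ hx hy => rw [map_add]; exact Submodule.add_mem _ hx hy
  | smul c x hx' hx =>
    rw [Algebra.smul_def, D.leibniz]
    obtain ⟨c', hc⟩ := h.stab c
    rw [hc, smul_eq_mul, smul_eq_mul, ← Algebra.smul_def, mul_comm x, ← Algebra.smul_def]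
    exact Submodule.add_mem _ (Submodule.smul_mem _ _ hx) (Submodule.smul_mem _ _ hx')
  | mem x hx =>
    obtain ⟨⟨a, j⟩, rfl⟩ := hx
    have hU : ∀ i j, D (U i j) = ∑ b, algebraMap κ F (A i b) * U b j - ℓ * U i j := by
      intro i j
      have h1 := congrFun (congrFun h.eq i) j
      rw [Matrix.map_apply, Matrix.sub_mul, Matrix.smul_mul, Matrix.one_mul, Matrix.sub_apply,
        Matrix.smul_apply, Matrix.mul_apply] at h1
      exact h1
    have h2 : D (gen1 U ρ (a, j)) =
        ∑ s, ∑ b, algebraMap κ F (A (a s) b) * gen1 U ρ (Function.update a s b, j) := by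
      unfold gen1
      simp only
      rw [D.leibniz, der_prod, h.rho, smul_eq_mul, smul_eq_mul]
      have h3 : ∀ s, ∏ t, Function.update (fun s => U (a s) (j s)) s (D (U (a s) (j s))) t =
          ∑ b, algebraMap κ F (A (a s) b) * ∏ t, U (Function.update a s b t) (j t) -
            ℓ * ∏ t, U (a t) (j t) := by
        intro s
        have h4 : ∀ y : F, ∏ t, Function.update (fun s => U (a s) (j s)) s y t =
            y * ∏ t ∈ Finset.univ \ {s}, U (a t) (j t) := fun y =>
          Finset.prod_update_of_mem (Finset.mem_univ s) _ _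
        have h5 : ∀ b, ∏ t, U (Function.update a s b t) (j t) =
            U b (j s) * ∏ t ∈ Finset.univ \ {s}, U (a t) (j t) := by
          intro b
          have h6 : (fun t => U (Function.update a s b t) (j t)) =
              Function.update (fun t => U (a t) (j t)) s (U b (j s)) := by
            funext t
            by_cases ht : t = s
            · subst ht; simp
            · simp [ht]
          rw [← h4, ← h6]
        have h7 : ∏ t, U (a t) (j t) = U (a s) (j s) * ∏ t ∈ Finset.univ \ {s}, U (a t) (j t) := by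
          rw [← h5, Function.update_eq_self]
        rw [h4, hU, sub_mul, Finset.sum_mul, h7]
        congr 1
        · exact Finset.sum_congr rfl fun b _ => by rw [h5]; ring
        · ring
      simp only [h3, Finset.sum_sub_distrib, Finset.sum_const, Finset.card_univ,
        Fintype.card_fin, nsmul_eq_mul]
      push_cast
      have h8 : ∀ s b, algebraMap κ F (A (a s) b) * (ρ * ∏ t, U (Function.update a s b t) (j t)) =
          ρ * (algebraMap κ F (A (a s) b) * ∏ t, U (Function.update a s b t) (j t)) := by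
        intro s b
        ring
      simp only [h8, ← Finset.mul_sum]
      ring
    rw [h2]
    refine Submodule.sum_mem _ fun s _ => Submodule.sum_mem _ fun b _ => ?_
    rw [← Algebra.smul_def]
    exact Submodule.smul_mem _ _ (subset_span ⟨_, rfl⟩)

theorem PV.R0_pow (h : PV κ D n U ρ ℓ A) {x : F} :
    x ∈ R0 κ U ρ ↔ ∃ l : ℕ, x ∈ (W1 κ U ρ) ^ l := adj_iff h.one_mem

theorem PV.R0_D (h : PV κ D n U ρ ℓ A) {x : F} (hx : x ∈ R0 κ U ρ) : D x ∈ R0 κ U ρ := by
  obtain ⟨l, hl⟩ := h.R0_pow.1 hx
  exact h.R0_pow.2 ⟨l, pow_stab h.stab h.W1_stab l x hl⟩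

theorem PV.R0_inv (h : PV κ D n U ρ ℓ A) [CharZero κ] {Δ : Derivation κ F F}
    (hΔ : Δ ∈ Inv κ D) {x : F} (hx : x ∈ R0 κ U ρ) : Δ x ∈ R0 κ U ρ := by
  obtain ⟨l, hl⟩ := h.R0_pow.1 hx
  exact h.R0_pow.2 ⟨l, h.stable (pow_fin W1_fin l) (pow_stab h.stab h.W1_stab l) hΔ hl⟩

/-- elements of the ring: ratios of the generators are the entries -/
theorem PV.gen_U (h : PV κ D n U ρ ℓ A) (i j : Fin (n + 1)) :
    gen1 U ρ (Function.update (fun _ => 0) 0 i, Function.update (fun _ => 0) 0 j) = ρ * U i j := by
  unfold gen1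
  congr 1
  rw [Finset.prod_eq_single (0 : Fin (n + 1))]
  · simp
  · intro b _ hb
    simp only [Function.update_of_ne hb]
    exact h.one
  · intro h0
    exact absurd (Finset.mem_univ _) h0

theorem PV.rho_mem (h : PV κ D n U ρ ℓ A) : ρ ∈ W1 κ U ρ := by
  have h1 := h.gen_U 0 0
  rw [h.one, mul_one] at h1
  have h2 : gen1 U ρ (Function.update (fun _ => 0) 0 0, Function.update (fun _ => 0) 0 0) ∈
      W1 κ U ρ := subset_span (Set.mem_range_self _)
  rwa [h1] at h2

theorem PV.rhoU_mem (h : PV κ D n U ρ ℓ A) (i j : Fin (n + 1)) : ρ * U i j ∈ W1 κ U ρ := by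
  rw [← h.gen_U i j]
  exact subset_span ⟨_, rfl⟩

/-- elements which are algebraic over a ring -/
def algF (R : Subalgebra κ F) : IntermediateField κ F where
  carrier := {x | IsAlgebraic R x}
  mul_mem' := fun ha hb => IsAlgebraic.mul ha hb
  add_mem' := fun ha hb => IsAlgebraic.add ha hb
  algebraMap_mem' := fun c => isAlgebraic_algebraMap (R := R) (A := F) ⟨_, R.algebraMap_mem c⟩
  inv_mem' := fun _ ha => IsAlgebraic.inv ha

theorem alg_of_adjoin {R : Subalgebra κ F} {S : Set F} (hS : ∀ s ∈ S, IsAlgebraic R s)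
    (hF : Algebra.IsAlgebraic (IntermediateField.adjoin κ S) F) : Algebra.IsAlgebraic R F := by
  constructor
  intro x
  have hle : IntermediateField.adjoin κ S ≤ algF R := by
    rw [IntermediateField.adjoin_le_iff]
    exact hS
  have h2 : IsAlgebraic (algF R) x := by
    let _ : Algebra (IntermediateField.adjoin κ S) (algF R) :=
      (IntermediateField.inclusion hle).toRingHom.toAlgebra
    have : IsScalarTower (IntermediateField.adjoin κ S) (algF R) F :=
      IsScalarTower.of_algebraMap_eq fun x => rfl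
    exact (hF.isAlgebraic x).extendScalars (IntermediateField.inclusion hle).toRingHom.injective
  have hR : R ≤ (algF R).toSubalgebra := fun r hr =>
    isAlgebraic_algebraMap (R := R) (A := F) ⟨r, hr⟩
  let _ : Algebra R (algF R) := (Subalgebra.inclusion hR).toRingHom.toAlgebra
  have : IsScalarTower R (algF R) F := IsScalarTower.of_algebraMap_eq fun x => rfl
  have h3 : Algebra.IsAlgebraic R (algF R) := by
    constructor
    intro y
    have h4 : IsAlgebraic R (algebraMap (algF R) F y) := y.2
    exact (isAlgebraic_algebraMap_iff (algebraMap (algF R) F).injective).1 h4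
  exact IsAlgebraic.restrictScalars R h2

/-- the field is algebraic over the ring -/
theorem PV.alg_R0 (h : PV κ D n U ρ ℓ A) : Algebra.IsAlgebraic (R0 κ U ρ) F := by
  refine alg_of_adjoin ?_ h.gen
  rintro _ ⟨p, rfl⟩
  have h2 : IsAlgebraic (R0 κ U ρ) ρ :=
    isAlgebraic_algebraMap (R := R0 κ U ρ) (A := F) ⟨_, Algebra.subset_adjoin h.rho_mem⟩
  have h3 : IsAlgebraic (R0 κ U ρ) (ρ * U p.1 p.2) :=
    isAlgebraic_algebraMap (R := R0 κ U ρ) (A := F)
      ⟨_, Algebra.subset_adjoin (h.rhoU_mem p.1 p.2)⟩
  have h4 : (fun p : Fin (n + 1) × Fin (n + 1) => U p.1 p.2) p = (ρ * U p.1 p.2) * ρ⁻¹ := by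
    change U p.1 p.2 = _
    rw [mul_comm, inv_mul_cancel_left₀ h.rho_ne]
  rw [h4]
  exact h3.mul h2.inv

/-- derivations with values in a field which vanish on generators -/
theorem der_kill {B M : Type} [CommRing B] [IsDomain B] [Field M] [Algebra κ B] [Algebra B M]
    [Algebra κ M] [IsScalarTower κ B M] [CharZero B] (hinj : Function.Injective (algebraMap B M))
    (δ : Derivation κ B M) (S : Set B) (hS : ∀ s ∈ S, δ s = 0)
    (halg : Algebra.IsAlgebraic (Algebra.adjoin κ S) B) : δ = 0 := by
  let C : Subalgebra κ B :=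
    { carrier := {b | δ b = 0}
      mul_mem' := fun {a b} ha hb => by
        change δ (a * b) = 0
        have ha' : δ a = 0 := ha
        have hb' : δ b = 0 := hb
        rw [δ.leibniz, ha', hb', smul_zero, smul_zero, add_zero]
      add_mem' := fun {a b} ha hb => by
        change δ (a + b) = 0
        have ha' : δ a = 0 := ha
        have hb' : δ b = 0 := hb
        rw [map_add, ha', hb', add_zero]
      algebraMap_mem' := fun c => δ.map_algebraMap c }
  have hle : Algebra.adjoin κ S ≤ C := Algebra.adjoin_le hS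
  let δ' : Derivation C B M := Derivation.mk'
    { toFun := fun x => δ x
      map_add' := fun x y => map_add δ x y
      map_smul' := fun c x => by
        have h0 : δ (c : B) = 0 := c.2
        rw [RingHom.id_apply, Subalgebra.smul_def, smul_eq_mul, δ.leibniz, h0, smul_zero, add_zero]
        rfl }
    (fun x y => δ.leibniz x y)
  have hδ' : ∀ b, δ' b = δ b := fun b => rfl
  ext b
  rw [Derivation.zero_apply]
  have h1 : IsAlgebraic C b := by
    let _ : Algebra (Algebra.adjoin κ S) C := (Subalgebra.inclusion hle).toRingHom.toAlgebra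
    have : IsScalarTower (Algebra.adjoin κ S) C B := IsScalarTower.of_algebraMap_eq fun x => rfl
    exact (halg.isAlgebraic b).extendScalars (Subalgebra.inclusion_injective hle)
  classical
  have hex : ∃ m, ∃ P : Polynomial C, P ≠ 0 ∧ Polynomial.aeval b P = 0 ∧ P.natDegree = m := by
    obtain ⟨P, hP, hP0⟩ := h1
    exact ⟨_, P, hP, hP0, rfl⟩
  obtain ⟨P, hP, hP0, hPm⟩ := Nat.find_spec hex
  have hmin := fun m hm => Nat.find_min hex (m := m) hm
  have h2 : δ' (Polynomial.aeval b P) = 0 := by rw [hP0, map_zero]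
  rw [Derivation.map_aeval, hδ'] at h2
  have h3 : P.natDegree ≠ 0 := by
    intro h0
    rw [Polynomial.eq_C_of_natDegree_eq_zero h0, Polynomial.aeval_C] at hP0
    apply hP
    rw [Polynomial.eq_C_of_natDegree_eq_zero h0]
    have h4 : P.coeff 0 = 0 := Subtype.ext hP0
    rw [h4, map_zero]
  have hC : CharZero C := ⟨fun a b hab => by
    have := congrArg (algebraMap C B) hab
    simpa using this⟩
  have h4 : Polynomial.aeval b (Polynomial.derivative P) ≠ 0 := by
    intro h0
    have h5 : (Polynomial.derivative P).natDegree < P.natDegree :=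
      Polynomial.natDegree_derivative_lt h3
    refine hmin _ (by rw [← hPm]; exact h5) ⟨Polynomial.derivative P, fun h6 => ?_, h0, rfl⟩
    exact h3 (Polynomial.derivative_eq_zero.1 h6)
  rw [algebra_compatible_smul M, smul_eq_mul, mul_eq_zero] at h2
  rcases h2 with h2 | h2
  · exact absurd ((map_eq_zero_iff _ hinj).1 h2) h4
  · exact h2

end

end Pool.Agent.N131.MV
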