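import Mathlib
import Pool.Agent.N131.MV.Ded
import Pool.Agent.N131.MV.Smp

/-!
Divisorial places and regular and logarithmic derivations.
-/

set_option autoImplicit false
set_option linter.unusedSectionVars false

namespace Pool.Agent.N131.MV

open FF MvPolynomial Pool.Agent.W603.LV
open Pool.Agent.W602.GT (DerReg DerLog)

variable {k κ F : Type} [Field k] [Field κ] [Field F] [Algebra k F] [Algebra κ F]

/-- residually independent elements -/
def Ri (P : Place κ F) {ι : Type} (s : ι → F) : Prop :=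
  ∀ G : MvPolynomial ι κ, G ≠ 0 → aeval s G ≠ 0 ∧ P.ord (aeval s G) = 0

variable {P : Place κ F} {ι : Type} {s : ι → F}

theorem Ri.reg (h : Ri P s) (i : ι) : P.Reg (s i) := by
  obtain ⟨h1, h2⟩ := h (X i) (X_ne_zero i)
  rw [aeval_X] at h2
  exact Or.inr h2.ge

theorem Ri.adj (h : Ri P s) {x : F} (hx : x ∈ Algebra.adjoin κ (Set.range s)) (h0 : x ≠ 0) :
    P.ord x = 0 := by
  rw [Algebra.adjoin_range_eq_range_aeval] at hx
  obtain ⟨G, rfl⟩ := hx
  refine (h G fun h1 => h0 ?_).2
  rw [h1]
  exact map_zero _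

theorem Ri.fld (h : Ri P s) {x : F} (hx : x ∈ IntermediateField.adjoin κ (Set.range s))
    (h0 : x ≠ 0) : P.ord x = 0 := by
  obtain ⟨a, ha, b, hb, rfl⟩ := IntermediateField.mem_adjoin_iff_div.1 hx
  have ha0 : a ≠ 0 := fun h1 => h0 (by rw [h1, zero_div])
  have hb0 : b ≠ 0 := fun h1 => h0 (by rw [h1, div_zero])
  rw [P.ord_div ha0 hb0, h.adj ha ha0, h.adj hb hb0, sub_zero]

theorem Ri.comp (h : Ri P s) {ι' : Type} (f : ι' → ι) (hf : Function.Injective f) :
    Ri P (s ∘ f) := by
  intro G hG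
  have h1 := h (rename f G) (by
    rw [Ne, map_eq_zero_iff _ (rename_injective f hf)]
    exact hG)
  rwa [aeval_rename] at h1

/-- values of polynomials at uniformizers -/
theorem ord_poly {A : Type} [CommRing A] [Algebra A F]
    (hA : ∀ a : A, a ≠ 0 → algebraMap A F a ≠ 0 ∧ P.ord (algebraMap A F a) = 0) {t : F}
    (ht : P.ord t = 1) (G : Polynomial A) :
    G ≠ 0 → Polynomial.aeval t G ≠ 0 ∧ 0 ≤ P.ord (Polynomial.aeval t G) ∧
      (G.coeff 0 = 0 → 1 ≤ P.ord (Polynomial.aeval t G)) := by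
  have ht0 : t ≠ 0 := by
    rintro rfl
    rw [P.ord_zero] at ht; omega
  induction G using Polynomial.recOnHorner with
  | M0 => exact fun h => absurd rfl h
  | MC p a hp ha ih =>
    intro _
    have h1 := hA a ha
    rw [map_add, Polynomial.aeval_C, Polynomial.coeff_add, Polynomial.coeff_C_zero, hp, zero_add]
    by_cases hp0 : p = 0
    · rw [hp0, map_zero, zero_add]
      exact ⟨h1.1, h1.2.ge, fun h => absurd h ha⟩
    · obtain ⟨h2, h3, h4⟩ := ih hp0
      have h5 := P.ord_add_eq (f := algebraMap A F a) (g := Polynomial.aeval t p) h1.1 h2 (by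
        rw [h1.2]
        exact h4 hp)
      rw [add_comm]
      exact ⟨h5.1, by rw [h5.2, h1.2], fun h => absurd h ha⟩
  | MX p hp ih =>
    intro _
    obtain ⟨h2, h3, h4⟩ := ih hp
    rw [map_mul, Polynomial.aeval_X, P.ord_mul h2 ht0, ht]
    exact ⟨mul_ne_zero h2 ht0, by omega, fun _ => by omega⟩

theorem Ri.trans (h : Ri P s) {t : F} (ht : P.ord t = 1) :
    Transcendental (IntermediateField.adjoin κ (Set.range s)) t := by
  rw [transcendental_iff]
  intro G hG
  by_contra h0
  exact (ord_poly (fun a ha => by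
    have ha' : (a : F) ≠ 0 := fun h1 => ha (Subtype.ext h1)
    exact ⟨ha', h.fld a.2 ha'⟩) ht G h0).1 hG

theorem Ri.ind (h : Ri P s) : AlgebraicIndependent κ s := by
  rw [algebraicIndependent_iff]
  intro G hG
  by_contra h0
  exact (h G h0).1 hG

/-- a uniformizer is independent of residually independent elements -/
theorem Ri.opt (h : Ri P s) {t : F} (ht : P.ord t = 1) :
    AlgebraicIndependent κ fun o : Option ι => o.elim t s := by
  rw [h.ind.option_iff_transcendental t]
  rw [transcendental_iff]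
  intro G hG
  by_contra h0
  exact (ord_poly (A := Algebra.adjoin κ (Set.range s)) (fun a ha => by
    have ha' : (a : F) ≠ 0 := fun h1 => ha (Subtype.ext h1)
    exact ⟨ha', h.adj a.2 ha'⟩) ht G h0).1 hG

/-- the residues -/
theorem Ri.red (h : Ri P s) : AlgebraicIndependent κ fun i => P.red (s i) := by
  have key : ∀ G : MvPolynomial ι κ, P.Reg (aeval s G) ∧
      P.red (aeval s G) = aeval (fun i => P.red (s i)) G := by
    intro G
    induction G using MvPolynomial.induction_on with
    | C a => exact ⟨by rw [aeval_C]; exact P.reg_const a, by rw [aeval_C, aeval_C]; rfl⟩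
    | add p q hp hq =>
      rw [map_add, map_add]
      exact ⟨P.reg_add hp.1 hq.1, by rw [P.red_add hp.1 hq.1, hp.2, hq.2]⟩
    | mul_X p i hp =>
      rw [map_mul, map_mul, aeval_X, aeval_X]
      exact ⟨P.reg_mul hp.1 (h.reg i), by rw [P.red_mul hp.1 (h.reg i), hp.2]⟩
  rw [algebraicIndependent_iff]
  intro G hG
  by_contra h0
  obtain ⟨h1, h2⟩ := h G h0
  exact P.red_ne_zero h1 h2 ((key G).2.trans hG)

theorem ri_of_red (hs : ∀ i, P.Reg (s i)) (h : AlgebraicIndependent κ fun i => P.red (s i)) :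
    Ri P s := by
  have key : ∀ G : MvPolynomial ι κ, P.Reg (aeval s G) ∧
      P.red (aeval s G) = aeval (fun i => P.red (s i)) G := by
    intro G
    induction G using MvPolynomial.induction_on with
    | C a => exact ⟨by rw [aeval_C]; exact P.reg_const a, by rw [aeval_C, aeval_C]; rfl⟩
    | add p q hp hq =>
      rw [map_add, map_add]
      exact ⟨P.reg_add hp.1 hq.1, by rw [P.red_add hp.1 hq.1, hp.2, hq.2]⟩
    | mul_X p i hp =>
      rw [map_mul, map_mul, aeval_X, aeval_X]
      exact ⟨P.reg_mul hp.1 (hs i), by rw [P.red_mul hp.1 (hs i), hp.2]⟩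
  intro G hG
  have h1 : P.red (aeval s G) ≠ 0 := by
    rw [(key G).2]
    intro h2
    exact hG ((algebraicIndependent_iff.1 h) G h2)
  rw [Ne, P.red_eq_zero_iff (key G).1] at h1
  push Not at h1
  exact ⟨h1.1, le_antisymm h1.2 ((P.reg_iff h1.1).1 (key G).1)⟩

section trd

variable {m : ℕ} (hd : Algebra.trdeg κ F = (m + 1 : ℕ))
include hd

/-- the transcendence basis of a divisorial place -/
theorem Ri.basis {s : Fin m → F} (h : Ri P s) {t : F} (ht : P.ord t = 1) :
    IsTranscendenceBasis κ fun o : Option (Fin m) => o.elim t s := by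
  apply (h.opt ht).isTranscendenceBasis_of_trdeg_le_of_finite
  rw [hd]
  simp

/-- the residue field is algebraic over the residues -/
theorem Ri.res_basis {s : Fin m → F} (h : Ri P s) :
    IsTranscendenceBasis κ fun i => P.red (s i) := by
  apply h.red.isTranscendenceBasis_of_trdeg_le_of_finite
  obtain ⟨ι', a, ha⟩ := exists_isTranscendenceBasis' κ P.RF
  rw [← ha.cardinalMk_eq_trdeg]
  choose x hx1 hx2 using fun i => P.red_surjective (a i)
  have h1 : Ri P x := ri_of_red hx1 (by simp only [hx2]; exact ha.1)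
  obtain ⟨t, ht0, ht⟩ := P.surj
  have h2 := (h1.opt ht).cardinalMk_le_trdeg
  rw [hd, Cardinal.mk_option] at h2
  push_cast at h2
  rw [Cardinal.mk_fin]
  exact (Cardinal.add_le_add_iff_of_lt_aleph0 Cardinal.one_lt_aleph0).1 h2

theorem Ri.alg_line [CharZero κ] {s : Fin m → F} (h : Ri P s) {t : F} (ht : P.ord t = 1) :
    Algebra.IsAlgebraic (IntermediateField.adjoin (IntermediateField.adjoin κ (Set.range s)) {t})
      F := by
  have h1 := (h.basis hd ht).isAlgebraic_field
  constructor
  intro x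
  set K1 := IntermediateField.adjoin κ (Set.range fun o : Option (Fin m) => o.elim t s)
  set K2 := IntermediateField.adjoin (IntermediateField.adjoin κ (Set.range s)) ({t} : Set F)
  have hle : ∀ y ∈ K1, y ∈ K2 := by
    have h2 : K1 ≤ K2.restrictScalars κ := by
      rw [IntermediateField.adjoin_le_iff]
      rintro _ ⟨o, rfl⟩
      cases o with
      | none => exact IntermediateField.subset_adjoin _ _ rfl
      | some i =>
        have h3 : s i ∈ IntermediateField.adjoin κ (Set.range s) :=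
          IntermediateField.subset_adjoin _ _ ⟨i, rfl⟩
        exact K2.algebraMap_mem (⟨s i, h3⟩ : IntermediateField.adjoin κ (Set.range s))
    exact fun y hy => h2 hy
  let φ : K1 →+* K2 :=
    { toFun := fun y => ⟨y, hle y y.2⟩
      map_one' := rfl
      map_mul' := fun _ _ => rfl
      map_zero' := rfl
      map_add' := fun _ _ => rfl }
  let _ : Algebra K1 K2 := φ.toAlgebra
  have : IsScalarTower K1 K2 F := IsScalarTower.of_algebraMap_eq fun x => rfl
  exact (h1.isAlgebraic x).extendScalars φ.injective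

end trd

/-- a place over a larger field of constants -/
def overPlace (P : Place κ F) (E : IntermediateField κ F) (hE : ∀ x ∈ E, x ≠ 0 → P.ord x = 0) :
    Place E F where
  ord := P.ord
  ord_zero := P.ord_zero
  ord_mul := P.ord_mul
  ord_add := P.ord_add
  ord_const := fun {c} hc => hE c c.2 (fun h => hc (Subtype.ext h))
  surj := P.surj

theorem ge_inv {x : F} (h0 : P.ord x = 0) : Ge P 0 x⁻¹ := by
  right
  rw [P.ord_inv, h0]
  rfl

/-- lower bounds for finite families -/
theorem exists_ge {r : ℕ} (f : Fin r → F) : ∃ n : ℤ, n ≤ 0 ∧ ∀ i, Ge P n (f i) := by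
  refine ⟨-∑ i, |P.ord (f i)|, neg_nonpos.2 (Finset.sum_nonneg fun _ _ => abs_nonneg _),
    fun i => Or.inr ?_⟩
  have h1 : |P.ord (f i)| ≤ ∑ i, |P.ord (f i)| :=
    Finset.single_le_sum (f := fun i => |P.ord (f i)|) (fun _ _ => abs_nonneg _)
      (Finset.mem_univ i)
  have h2 := neg_abs_le (P.ord (f i))
  omega

section der

variable {m : ℕ} {s : Fin m → F} {δ : Derivation k F F}

/-- the derivatives of the field of the residually independent elements -/
theorem der_fld (h : Ri P s) (hκ : ∀ c : κ, P.Reg (δ (algebraMap κ F c)))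
    (hs : ∀ i, P.Reg (δ (s i))) {x : F} (hx : x ∈ IntermediateField.adjoin κ (Set.range s)) :
    P.Reg (δ x) := by
  have h1 : ∀ y ∈ Algebra.adjoin κ (Set.range s), P.Reg y ∧ P.Reg (δ y) := by
    intro y hy
    induction hy using Algebra.adjoin_induction with
    | mem y hy =>
      obtain ⟨i, rfl⟩ := hy
      exact ⟨h.reg i, hs i⟩
    | algebraMap c => exact ⟨P.reg_const c, hκ c⟩
    | add y z _ _ hy hz => exact ⟨P.reg_add hy.1 hz.1, by rw [map_add]; exact P.reg_add hy.2 hz.2⟩
    | mul y z _ _ hy hz =>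
      refine ⟨P.reg_mul hy.1 hz.1, ?_⟩
      rw [δ.leibniz]
      exact P.reg_add (P.reg_mul hy.1 hz.2) (P.reg_mul hz.1 hy.2)
  obtain ⟨a, ha, b, hb, rfl⟩ := IntermediateField.mem_adjoin_iff_div.1 hx
  by_cases hb0 : b = 0
  · rw [hb0, div_zero, map_zero]; exact P.reg_zero
  obtain ⟨ha1, ha2⟩ := h1 a ha
  obtain ⟨hb1, hb2⟩ := h1 b hb
  have hbi : P.Reg b⁻¹ := Or.inr (by rw [P.ord_inv, h.adj hb hb0]; rfl)
  rw [div_eq_mul_inv, δ.leibniz, δ.leibniz_inv, smul_eq_mul, smul_eq_mul]
  refine P.reg_add (P.reg_mul ha1 ?_) (P.reg_mul hbi ha2)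
  rw [neg_mul]
  refine P.reg_neg (P.reg_mul ?_ hb2)
  rw [pow_two]
  exact P.reg_mul hbi hbi

/-- **Boundedness.** -/
theorem bounded [CharZero κ] [Algebra.EssFiniteType κ F] (hd : Algebra.trdeg κ F = (m + 1 : ℕ))
    (h : Ri P s) (hκ : ∀ c : κ, P.Reg (δ (algebraMap κ F c))) (hs : ∀ i, P.Reg (δ (s i))) :
    ∃ n : ℤ, n ≤ 0 ∧ ∀ x, P.Reg x → Ge P n (δ x) := by
  obtain ⟨t, ht0, ht⟩ := P.surj
  let E := IntermediateField.adjoin κ (Set.range s)
  let PE := overPlace P E fun x hx h0 => h.fld hx h0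
  have hchar : CharZero E := charZero_of_injective_algebraMap (algebraMap κ E).injective
  have hess : Algebra.EssFiniteType E F := Algebra.EssFiniteType.of_comp κ E F
  have htr : P.Reg t := Or.inr (by rw [ht]; exact zero_le_one)
  obtain ⟨r, c, hc, hden⟩ := denom (h.trans ht) (h.alg_line hd ht) PE htr
  obtain ⟨n1, hn1, hn1t⟩ := exists_ge (P := P) (r := 1) fun _ => δ t
  obtain ⟨n2, hn2, hn2c⟩ := exists_ge (P := P) fun i => δ (c i)
  have hpoly : ∀ a : Polynomial E, P.Reg (Polynomial.aeval t a) ∧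
      Ge P n1 (δ (Polynomial.aeval t a)) := by
    intro a
    induction a using Polynomial.induction_on with
    | C e =>
      rw [Polynomial.aeval_C]
      have h1 : P.Reg (algebraMap E F e) := PE.reg_const e
      have h2 : P.Reg (δ (algebraMap E F e)) := der_fld h hκ hs e.2
      exact ⟨h1, Ge.mono hn1 h2⟩
    | add p q hp hq =>
      rw [map_add, map_add]
      exact ⟨P.reg_add hp.1 hq.1, hp.2.add hq.2⟩
    | monomial j e ih =>
      have h1 : Polynomial.aeval t (Polynomial.C e * Polynomial.X ^ (j + 1)) =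
          Polynomial.aeval t (Polynomial.C e * Polynomial.X ^ j) * t := by
        rw [pow_succ, ← mul_assoc, map_mul, Polynomial.aeval_X]
      rw [h1, δ.leibniz, smul_eq_mul, smul_eq_mul]
      refine ⟨P.reg_mul ih.1 htr, ?_⟩
      have h2 : Ge P (0 + n1) (Polynomial.aeval t (Polynomial.C e * Polynomial.X ^ j) * δ t) :=
        Ge.mul ih.1 (hn1t 0)
      have h3 : Ge P (0 + n1) (t * δ (Polynomial.aeval t (Polynomial.C e * Polynomial.X ^ j))) :=
        Ge.mul htr ih.2
      rw [zero_add] at h2 h3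
      exact h2.add h3
  have hsum : ∀ a : Fin r → Polynomial E, Ge P (min n1 n2)
      (δ (∑ i, Polynomial.aeval t (a i) * c i)) ∧ P.Reg (∑ i, Polynomial.aeval t (a i) * c i) := by
    intro a
    constructor
    · rw [map_sum]
      apply Ge.sum
      intro i _
      rw [δ.leibniz, smul_eq_mul, smul_eq_mul]
      have h2 : Ge P (0 + n2) (Polynomial.aeval t (a i) * δ (c i)) :=
        Ge.mul (hpoly (a i)).1 (hn2c i)
      have h3 : Ge P (0 + n1) (c i * δ (Polynomial.aeval t (a i))) :=
        Ge.mul (hc i) (hpoly (a i)).2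
      rw [zero_add] at h2 h3
      exact (h2.mono (min_le_right _ _)).add (h3.mono (min_le_left _ _))
    · exact Ge.sum (P := P) (N := 0) _ _ fun i _ => P.reg_mul (hpoly (a i)).1 (hc i)
  refine ⟨min n1 n2, (min_le_left _ _).trans hn1, fun x hx => ?_⟩
  obtain ⟨a, b, y, z, hy, hz, hz0, hzo, hxz⟩ := hden x hx
  have h1 : δ x = (δ y - x * δ z) * z⁻¹ := by
    rw [← hxz, δ.leibniz, smul_eq_mul, smul_eq_mul]
    field_simp
    ring
  have h2 : Ge P (min n1 n2) (δ y) := by rw [hy]; exact (hsum a).1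
  have h3 : Ge P (min n1 n2) (δ z) := by rw [hz]; exact (hsum b).1
  have h4 : Ge P (0 + min n1 n2) (x * δ z) := Ge.mul hx h3
  rw [zero_add] at h4
  have h5 := (h2.sub h4).mul (ge_inv (P := P) (x := z) hzo)
  rw [add_zero] at h5
  rwa [h1]

/-- **The step.** -/
theorem step [CharZero κ] (hd : Algebra.trdeg κ F = (m + 1 : ℕ))
    (h : Ri P s) (hκ : ∀ c : κ, P.Reg (δ (algebraMap κ F c))) (hs : ∀ i, P.Reg (δ (s i)))
    {n : ℤ} (hn : n < 0) (h1 : ∀ x, P.Reg x → Ge P n (δ x))
    (h2 : ∀ x, Ge P 1 x → Ge P (n + 1) (δ x)) : ∀ x, P.Reg x → Ge P (n + 1) (δ x) := by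
  classical
  obtain ⟨t, ht0, ht⟩ := P.surj
  have htn0 : t ^ (-n) ≠ 0 := zpow_ne_zero _ ht0
  have htn : P.ord (t ^ (-n)) = -n := by rw [P.ord_zpow, ht, mul_one]
  have hmul : ∀ {l : ℤ} {f : F}, Ge P l f → Ge P (l - n) (t ^ (-n) * f) := by
    intro l f hf
    have h3 : Ge P (-n) (t ^ (-n)) := Or.inr htn.ge
    have h4 := h3.mul hf
    rwa [neg_add_eq_sub] at h4
  have hreg : ∀ x, P.Reg x → P.Reg (t ^ (-n) * δ x) := by
    intro x hx
    have h3 := hmul (h1 x hx)
    rw [sub_self] at h3
    exact h3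
  have hred0 : ∀ {f : F}, Ge P 1 f → P.red f = 0 := by
    intro f hf
    have h3 : P.Reg f := hf.mono (by omega)
    rw [P.red_eq_zero_iff h3]
    exact hf.imp_right fun h4 => by omega
  let θ : F → P.RF := fun x => P.red (t ^ (-n) * δ x)
  have hθadd : ∀ x y, P.Reg x → P.Reg y → θ (x + y) = θ x + θ y := by
    intro x y hx hy
    change P.red _ = P.red _ + P.red _
    rw [map_add, mul_add, P.red_add (hreg x hx) (hreg y hy)]
  have hθmul : ∀ x y, P.Reg x → P.Reg y → θ (x * y) = P.red x * θ y + P.red y * θ x := by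
    intro x y hx hy
    change P.red _ = P.red x * P.red _ + P.red y * P.red _
    rw [δ.leibniz, smul_eq_mul, smul_eq_mul]
    have e1 : t ^ (-n) * (x * δ y + y * δ x) = x * (t ^ (-n) * δ y) + y * (t ^ (-n) * δ x) := by
      ring
    rw [e1, P.red_add (P.reg_mul hx (hreg y hy)) (P.reg_mul hy (hreg x hx)),
      P.red_mul hx (hreg y hy), P.red_mul hy (hreg x hx)]
  have hθm : ∀ x, Ge P 1 x → θ x = 0 := by
    intro x hx
    apply hred0
    have h3 := hmul (h2 x hx)
    rwa [add_sub_cancel_left] at h3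
  have hθ0 : ∀ x, P.Reg (δ x) → θ x = 0 := by
    intro x hx
    apply hred0
    have h3 : Ge P (0 - n) (t ^ (-n) * δ x) := hmul hx
    exact h3.mono (by omega)
  have hcongr : ∀ x y, P.Reg x → P.Reg y → P.red x = P.red y → θ x = θ y := by
    intro x y hx hy hxy
    have h3 : P.red (x - y) = 0 := by rw [P.red_sub hx hy, hxy, sub_self]
    have hxy' : P.Reg (x - y) := by
      rw [sub_eq_add_neg]; exact P.reg_add hx (P.reg_neg hy)
    rw [P.red_eq_zero_iff hxy'] at h3
    have h4 : Ge P 1 (x - y) := h3.imp_right fun h5 => by omega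
    have h5 := hθadd (x - y) y hxy' hy
    rw [hθm _ h4, zero_add, sub_add_cancel] at h5
    exact h5
  choose li hli1 hli2 using fun c : P.RF => P.red_surjective c
  let Θ : Derivation κ P.RF P.RF := Derivation.mk'
    { toFun := fun a => θ (li a)
      map_add' := fun a b => by
        rw [← hθadd _ _ (hli1 a) (hli1 b)]
        apply hcongr _ _ (hli1 _) (P.reg_add (hli1 a) (hli1 b))
        rw [P.red_add (hli1 a) (hli1 b), hli2, hli2, hli2]
      map_smul' := fun c a => by
        rw [RingHom.id_apply, Algebra.smul_def, Algebra.smul_def]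
        have h3 : θ (li (algebraMap κ P.RF c * a)) = θ (algebraMap κ F c * li a) := by
          apply hcongr _ _ (hli1 _) (P.reg_mul (P.reg_const c) (hli1 a))
          rw [P.red_mul (P.reg_const c) (hli1 a), hli2, hli2]
          rfl
        rw [h3, hθmul _ _ (P.reg_const c) (hli1 a), hθ0 _ (hκ c), mul_zero, add_zero]
        rfl }
    (fun a b => by
      change θ (li (a * b)) = a * θ (li b) + b * θ (li a)
      have h3 : θ (li (a * b)) = θ (li a * li b) := by
        apply hcongr _ _ (hli1 _) (P.reg_mul (hli1 a) (hli1 b))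
        rw [P.red_mul (hli1 a) (hli1 b), hli2, hli2, hli2]
      rw [h3, hθmul _ _ (hli1 a) (hli1 b), hli2, hli2])
  have hΘ : ∀ x, P.Reg x → Θ (P.red x) = θ x := by
    intro x hx
    change θ (li (P.red x)) = θ x
    exact hcongr _ _ (hli1 _) hx (hli2 _)
  have hchar : CharZero P.RF := charZero_of_injective_algebraMap (algebraMap κ P.RF).injective
  have hΘ0 : Θ = 0 := by
    refine der_kill (M := P.RF) Function.injective_id Θ (Set.range fun i => P.red (s i)) ?_
      (h.res_basis hd).isAlgebraic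
    rintro _ ⟨i, rfl⟩
    rw [hΘ _ (h.reg i)]
    exact hθ0 _ (hs i)
  intro x hx
  have h3 : P.red (t ^ (-n) * δ x) = 0 := by
    have h4 := hΘ x hx
    rw [hΘ0] at h4
    exact h4.symm
  rw [P.red_eq_zero_iff (hreg x hx)] at h3
  rcases h3 with h3 | h3
  · left
    exact (mul_eq_zero.1 h3).resolve_left htn0
  · by_cases hx0 : δ x = 0
    · exact Or.inl hx0
    · right
      rw [P.ord_mul htn0 hx0, htn] at h3
      omega

/-- **Regular derivations.** -/
theorem der_regular [CharZero κ] [Algebra.EssFiniteType κ F]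
    (hd : Algebra.trdeg κ F = (m + 1 : ℕ)) (h : Ri P s)
    (hκ : ∀ c : κ, P.Reg (δ (algebraMap κ F c))) (hs : ∀ i, P.Reg (δ (s i)))
    {t : F} (ht : P.ord t = 1) (hδt : P.Reg (δ t)) : ∀ x, P.Reg x → P.Reg (δ x) := by
  have ht0 : t ≠ 0 := by
    rintro rfl
    rw [P.ord_zero] at ht; omega
  obtain ⟨n, hn, hb⟩ := bounded hd h hκ hs
  have key : ∀ j : ℕ, n + j ≤ 0 → ∀ x, P.Reg x → Ge P (n + j) (δ x) := by
    intro j
    induction j with
    | zero => intro _ x hx; simpa using hb x hx
    | succ j ih =>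
      intro hj
      push_cast at hj
      have h3 := step hd h hκ hs (n := n + j) (by omega) (ih (by omega)) (by
        intro x hx
        have h4 : x = t * (x / t) := by rw [mul_div_cancel₀ _ ht0]
        have h5 : P.Reg (x / t) := by
          have := Pool.Agent.W602.GT.ge_div ht0 hx
          rw [ht, sub_self] at this
          exact this
        rw [h4, δ.leibniz, smul_eq_mul, smul_eq_mul]
        have h6 : Ge P (1 + (n + j)) (t * δ (x / t)) :=
          Ge.mul (Or.inr ht.ge) (ih (by omega) _ h5)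
        have h7 : P.Reg (x / t * δ t) := P.reg_mul h5 hδt
        have h8 : Ge P (1 + (n + j)) (x / t * δ t) := Ge.mono (by omega) h7
        have h9 := h6.add h8
        rwa [add_comm 1] at h9)
      intro x hx
      have h4 := h3 x hx
      push_cast
      rwa [add_assoc] at h4
  intro x hx
  have h3 := key (-n).toNat (by omega) x hx
  have h4 : n + ((-n).toNat : ℤ) = 0 := by omega
  rw [h4] at h3
  exact h3

/-- **Logarithmic derivations.** -/
theorem der_log [CharZero κ] [Algebra.EssFiniteType κ F]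
    (hd : Algebra.trdeg κ F = (m + 1 : ℕ)) (h : Ri P s)
    (hκ : ∀ c : κ, P.Reg (δ (algebraMap κ F c))) (hs : ∀ i, P.Reg (δ (s i)))
    {η : F} (hη0 : η ≠ 0) (hη : P.ord η ≠ 0) (hδη : P.Reg (δ η / η)) :
    ∀ x, P.Reg (δ x / x) := by
  obtain ⟨t, ht0, ht⟩ := P.surj
  obtain ⟨n0, hn0, hb⟩ := bounded hd h hκ hs
  have hF : CharZero F := charZero_of_injective_algebraMap (algebraMap κ F).injective
  have hlog : ∀ x, x ≠ 0 → ∃ u : F, u ≠ 0 ∧ P.ord u = 0 ∧
      δ x / x = δ u / u + P.ord x * (δ t / t) := by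
    intro x hx0
    obtain ⟨u, hu, hu0, hxu⟩ := Pool.Agent.W602.GT.unit_mul P ht hx0
    refine ⟨u, hu, hu0, ?_⟩
    have h1 : t ^ (P.ord x) ≠ 0 := zpow_ne_zero _ ht0
    have h2 := Pool.Agent.W602.GT.der_zpow δ ht0 (P.ord x)
    generalize P.ord x = l at hxu h1 h2
    rw [hxu, δ.leibniz, h2]
    simp only [smul_eq_mul]
    field_simp
    ring
  have hgu : ∀ {l : ℤ} {u : F}, (∀ x, P.Reg x → Ge P l (δ x)) → u ≠ 0 → P.ord u = 0 →
      Ge P l (δ u / u) := by
    intro l u h3 hu hu0
    have h4 := (h3 u (Or.inr hu0.ge)).mul (ge_inv (P := P) (x := u) hu0)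
    rw [add_zero] at h4
    rwa [div_eq_mul_inv]
  have hint : ∀ (l : ℤ), Ge P 0 ((l : ℤ) : F) := fun l => Ge.intCast (P := P) l
  have hunit : ∀ {l : ℤ}, (∀ x, P.Reg x → Ge P l (δ x)) → Ge P l (δ t / t) →
      ∀ x, Ge P l (δ x / x) := by
    intro l h3 h4 x
    by_cases hx0 : x = 0
    · rw [hx0, map_zero, zero_div]; exact Ge.zero
    obtain ⟨u, hu, hu0, hxu⟩ := hlog x hx0
    rw [hxu]
    have h5 := (hint (P.ord x)).mul h4
    rw [zero_add] at h5
    exact (hgu h3 hu hu0).add h5
  have hstart : ∀ x, Ge P (n0 - 1) (δ x / x) := by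
    apply hunit (fun x hx => (hb x hx).mono (by omega))
    have h3 := (hb t (Or.inr (by rw [ht]; exact zero_le_one)))
    have h4 := Pool.Agent.W602.GT.ge_div ht0 h3
    rwa [ht] at h4
  have key : ∀ j : ℕ, n0 - 1 + j ≤ 0 → ∀ x, Ge P (n0 - 1 + j) (δ x / x) := by
    intro j
    induction j with
    | zero => intro _ x; simpa using hstart x
    | succ j ih =>
      intro hj
      push_cast at hj
      have ih' := ih (by omega)
      have hmul : ∀ {l : ℤ} {x : F}, Ge P l x → Ge P (l + (n0 - 1 + j)) (δ x) := by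
        intro l x hx
        by_cases hx0 : x = 0
        · rw [hx0, map_zero]; exact Ge.zero
        have h3 : δ x = x * (δ x / x) := by rw [mul_div_cancel₀ _ hx0]
        rw [h3]
        exact hx.mul (ih' x)
      have h3 := step hd h hκ hs (n := n0 - 1 + j) (by omega) (fun x hx => by
        have := hmul (l := 0) hx
        rwa [zero_add] at this) (fun x hx => by
        have := hmul hx
        rwa [add_comm 1] at this)
      have h4 : Ge P (n0 - 1 + j + 1) (δ t / t) := by
        obtain ⟨u, hu, hu0, hηu⟩ := hlog η hη0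
        have h5 : (P.ord η : F) ≠ 0 := by exact_mod_cast hη
        have h6 : δ t / t = ((P.ord η : ℚ)⁻¹ : ℚ) * (δ η / η - δ u / u) := by
          rw [hηu]
          push_cast
          field_simp
          ring
        rw [h6]
        have h7 : Ge P 0 ((((P.ord η : ℚ)⁻¹ : ℚ) : F)) := by
          have := Ge.const (P := P) (((P.ord η : ℚ)⁻¹ : ℚ) : κ)
          rwa [map_ratCast] at this
        have h8 : Ge P (n0 - 1 + j + 1) (δ η / η) := Ge.mono (by omega) hδη
        have h9 := h7.mul (h8.sub (hgu h3 hu hu0))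
        rwa [zero_add] at h9
      intro x
      have h5 := hunit h3 h4 x
      push_cast
      rwa [add_assoc] at h5
  intro x
  have h3 := key (-(n0 - 1)).toNat (by omega) x
  have h4 : n0 - 1 + ((-(n0 - 1)).toNat : ℤ) = 0 := by omega
  rw [h4] at h3
  exact h3

end der

end Pool.Agent.N131.MV
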