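import Mathlib
import Pool.Agent.N131.MV.Smp

/-!
Simplicity of the ring of a linear differential equation.
-/

set_option autoImplicit false
set_option linter.unusedSectionVars false

namespace Pool.Agent.N131.MV

open Matrix Submodule

variable {k κ F : Type} [Field k] [Field κ] [Field F] [Algebra k F] [Algebra κ F] [CharZero F]

theorem der_sum {R B M ι : Type} [CommRing R] [CommRing B] [AddCommGroup M] [Algebra R B]
    [Module R M] [Module B M] (s : Finset ι) (δ : ι → Derivation R B M) (b : B) :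
    (∑ i ∈ s, δ i) b = ∑ i ∈ s, δ i b := by
  classical
  induction s using Finset.induction_on with
  | empty => rfl
  | insert i s hi ih => rw [Finset.sum_insert hi, Derivation.add_apply, ih, Finset.sum_insert hi]

/-- matrix units span all matrices -/
theorem unit_span {M : Type} [Field M] {n : ℕ}
    (Z : Fin (n + 1) → Fin (n + 1) → Matrix (Fin (n + 1)) (Fin (n + 1)) M)
    (h1 : ∀ j l l' j', Z j l * Z l' j' = if l = l' then Z j j' else 0) (h2 : ∑ j, Z j j = 1)
    {T : Matrix (Fin (n + 1)) (Fin (n + 1)) M} (hT : ∀ j l, T * Z j l = Z j l * T)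
    (N : Matrix (Fin (n + 1)) (Fin (n + 1)) M) : T * N = N * T := by
  classical
  let φ : Matrix (Fin (n + 1)) (Fin (n + 1)) M →ₗ[M] Matrix (Fin (n + 1)) (Fin (n + 1)) M :=
    { toFun := fun N => ∑ j, ∑ l, N j l • Z j l
      map_add' := fun N N' => by
        simp only [Matrix.add_apply, add_smul, Finset.sum_add_distrib]
      map_smul' := fun c N => by
        simp only [Matrix.smul_apply, smul_eq_mul, mul_smul, Finset.smul_sum, RingHom.id_apply] }
  have hφ : ∀ N, φ N = ∑ j, ∑ l, N j l • Z j l := fun N => rfl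
  have hne : Z 0 0 ≠ 0 := by
    intro h0
    have h3 : ∀ j, Z j j = 0 := by
      intro j
      have h4 := h1 j 0 0 j
      rw [if_pos rfl] at h4
      have h5 := h1 j 0 0 0
      rw [if_pos rfl, h0, Matrix.mul_zero] at h5
      rw [← h4, ← h5, Matrix.zero_mul]
    simp only [h3, Finset.sum_const_zero] at h2
    exact zero_ne_one h2
  have hinj : Function.Injective φ := by
    rw [← LinearMap.ker_eq_bot, LinearMap.ker_eq_bot']
    intro N hN
    ext j l
    have h3 : Z 0 j * φ N * Z l 0 = N j l • Z 0 0 := by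
      rw [hφ, Finset.mul_sum, Finset.sum_mul]
      simp only [Finset.mul_sum, Finset.sum_mul, Matrix.mul_smul, Matrix.smul_mul, h1]
      rw [Finset.sum_eq_single j]
      · rw [Finset.sum_eq_single l]
        · rw [if_pos rfl, h1, if_pos rfl]
        · intro b _ hb
          rw [if_pos rfl, h1, if_neg hb, smul_zero]
        · intro h; exact absurd (Finset.mem_univ _) h
      · intro b _ hb
        simp [Ne.symm hb]
      · intro h; exact absurd (Finset.mem_univ _) h
    rw [hN, Matrix.mul_zero, Matrix.zero_mul] at h3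
    rcases smul_eq_zero.1 h3.symm with h4 | h4
    · exact h4
    · exact absurd h4 hne
  have hsurj : Function.Surjective φ := LinearMap.injective_iff_surjective.1 hinj
  obtain ⟨N', rfl⟩ := hsurj N
  rw [hφ, Finset.mul_sum, Finset.sum_mul]
  apply Finset.sum_congr rfl
  intro j _
  rw [Finset.mul_sum, Finset.sum_mul]
  apply Finset.sum_congr rfl
  intro l _
  rw [Matrix.mul_smul, Matrix.smul_mul, hT]

/-- the space of derivations -/
theorem finrank_der [CharZero κ] {d : ℕ} {x : Fin d → F} (hx : IsTranscendenceBasis κ x) :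
    Module.Finite F (Derivation κ F F) ∧ Module.finrank F (Derivation κ F F) = d := by
  let Φ : Derivation κ F F →ₗ[F] (Fin d → F) :=
    { toFun := fun Δ i => Δ (x i)
      map_add' := fun _ _ => rfl
      map_smul' := fun _ _ => rfl }
  have hinj : Function.Injective Φ := fun Δ Δ' h =>
    Pool.Agent.W602.GT.der_ext x hx fun i => congrFun h i
  have hsurj : Function.Surjective Φ := fun c => by
    obtain ⟨Δ, hΔ⟩ := Pool.Agent.W602.GT.exists_der x hx c
    exact ⟨Δ, funext hΔ⟩
  let e := LinearEquiv.ofBijective Φ ⟨hinj, hsurj⟩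
  exact ⟨Module.Finite.equiv e.symm, by rw [e.finrank_eq, Module.finrank_fin_fun]⟩

/-- a dependence between induced derivations -/
theorem dep {R B M : Type} [CommRing R] [CommRing B] [IsDomain B] [Field M] [Algebra κ R]
    [Algebra κ B] [Algebra B M] [Algebra κ M] [IsScalarTower κ B M] [CharZero B]
    (hinj : Function.Injective (algebraMap B M)) {π : R →ₐ[κ] B} (hπ : Function.Surjective π)
    {t ι' : Type} [Fintype t] [Fintype ι'] (dR : t → Derivation κ R R)
    (hd : ∀ Δ r, π r = 0 → π (dR Δ r) = 0) {xb : ι' → B} (hxb : IsTranscendenceBasis κ xb)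
    (hcard : Fintype.card ι' < Fintype.card t) :
    ∃ c : t → M, c ≠ 0 ∧ ∀ r, ∑ Δ, c Δ * algebraMap B M (π (dR Δ r)) = 0 := by
  let dB : t → Derivation κ B B := fun Δ => Derivation.liftOfSurjective (f := π) hπ (hd Δ)
  have hdB : ∀ Δ r, dB Δ (π r) = π (dR Δ r) := fun Δ r =>
    Derivation.liftOfSurjective_apply hπ (hd Δ) r
  let dM : t → Derivation κ B M := fun Δ => (Algebra.linearMap B M).compDer (dB Δ)
  have hdM : ∀ Δ b, dM Δ b = algebraMap B M (dB Δ b) := fun Δ b => rfl
  obtain ⟨c, hc0, hc⟩ : ∃ c : t → M, c ≠ 0 ∧ ∀ i, ∑ Δ, c Δ * dM Δ (xb i) = 0 := by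
    let Ψ : (t → M) →ₗ[M] (ι' → M) :=
      { toFun := fun c i => ∑ Δ, c Δ * dM Δ (xb i)
        map_add' := fun c c' => by
          funext i
          simp only [Pi.add_apply, add_mul, Finset.sum_add_distrib]
        map_smul' := fun s c => by
          funext i
          simp only [Pi.smul_apply, smul_eq_mul, mul_assoc, ← Finset.mul_sum, RingHom.id_apply] }
    have h1 : Module.finrank M (ι' → M) < Module.finrank M (t → M) := by
      rw [Module.finrank_fintype_fun_eq_card, Module.finrank_fintype_fun_eq_card]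
      exact hcard
    obtain ⟨c, hc, hc0⟩ := Submodule.exists_mem_ne_zero_of_ne_bot
      (LinearMap.ker_ne_bot_of_finrank_lt (f := Ψ) h1)
    exact ⟨c, hc0, fun i => congrFun (LinearMap.mem_ker.1 hc) i⟩
  let δ : Derivation κ B M := ∑ Δ, c Δ • dM Δ
  have hδ : ∀ b, δ b = ∑ Δ, c Δ * dM Δ b := by
    intro b
    change (∑ Δ, c Δ • dM Δ) b = _
    rw [der_sum]
    rfl
  have hδ0 : δ = 0 := by
    refine der_kill hinj δ (Set.range xb) ?_ hxb.isAlgebraic
    rintro _ ⟨i, rfl⟩
    rw [hδ, hc]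
  refine ⟨c, hc0, fun r => ?_⟩
  have h1 : δ (π r) = 0 := by rw [hδ0]; rfl
  rw [hδ] at h1
  rw [← h1]
  apply Finset.sum_congr rfl
  intro Δ _
  rw [hdM, hdB]

/-- the matrix of a dependence vanishes -/
theorem mat_zero {M R : Type} [Field M] [CharZero M] [CommRing R] [Algebra κ M] [Algebra κ R]
    {n : ℕ} (θ : R →+* M) (hθ : ∀ c : κ, θ (algebraMap κ R c) = algebraMap κ M c)
    (z : Fin (n + 1) → Fin (n + 1) → Fin (n + 1) → Fin (n + 1) → R)
    (hz1 : ∀ a j l l' j' b, ∑ c, z a j l c * z c l' j' b = if l = l' then z a j j' b else 0)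
    (hz2 : ∀ a b, ∑ j, z a j j b = if a = b then 1 else 0)
    {t : Type} [Fintype t] (Lm : t → Matrix (Fin (n + 1)) (Fin (n + 1)) κ)
    (htr : ∀ Δ, (Lm Δ).trace = 0) (c : t → M) (e : t → R → R)
    (he : ∀ Δ a j l b, e Δ (z a j l b) = ∑ i, algebraMap κ R (Lm Δ a i) * z i j l b -
      ∑ i, z a j l i * algebraMap κ R (Lm Δ i b))
    (hc : ∀ r, ∑ Δ, c Δ * θ (e Δ r) = 0) (a b : Fin (n + 1)) :
    ∑ Δ, c Δ * algebraMap κ M (Lm Δ a b) = 0 := by
  classical
  let Z : Fin (n + 1) → Fin (n + 1) → Matrix (Fin (n + 1)) (Fin (n + 1)) M := fun j l =>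
    Matrix.of fun a b => θ (z a j l b)
  have hZ1 : ∀ j l l' j', Z j l * Z l' j' = if l = l' then Z j j' else 0 := by
    intro j l l' j'
    ext a b
    have h2 := congrArg θ (hz1 a j l l' j' b)
    rw [map_sum] at h2
    simp only [map_mul] at h2
    rw [Matrix.mul_apply]
    refine h2.trans ?_
    split_ifs with h3
    · rfl
    · rw [map_zero]; rfl
  have hZ2 : ∑ j, Z j j = 1 := by
    ext a b
    have h2 := congrArg θ (hz2 a b)
    rw [map_sum] at h2
    rw [Matrix.sum_apply, Matrix.one_apply]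
    refine h2.trans ?_
    split_ifs with h3
    · exact map_one θ
    · exact map_zero θ
  let T : Matrix (Fin (n + 1)) (Fin (n + 1)) M := ∑ Δ, c Δ • (Lm Δ).map (algebraMap κ M)
  have hT : ∀ j l, T * Z j l = Z j l * T := by
    intro j l
    ext a b
    have h1 := hc (z a j l b)
    have h2 : ∀ Δ : t, θ (e Δ (z a j l b)) =
        ∑ i, algebraMap κ M (Lm Δ a i) * θ (z i j l b) -
          ∑ i, θ (z a j l i) * algebraMap κ M (Lm Δ i b) := by
      intro Δ
      rw [he, map_sub, map_sum, map_sum]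
      simp only [map_mul, hθ]
    simp only [h2, mul_sub, Finset.sum_sub_distrib] at h1
    rw [sub_eq_zero] at h1
    have h4 : (T * Z j l) a b = ∑ Δ, c Δ * ∑ e, algebraMap κ M (Lm Δ a e) * θ (z e j l b) := by
      change ((∑ Δ, c Δ • (Lm Δ).map (algebraMap κ M)) * Z j l) a b = _
      rw [Finset.sum_mul, Matrix.sum_apply]
      apply Finset.sum_congr rfl
      intro Δ _
      rw [Matrix.smul_mul, Matrix.smul_apply, Matrix.mul_apply]
      rfl
    have h5 : (Z j l * T) a b = ∑ Δ, c Δ * ∑ e, θ (z a j l e) * algebraMap κ M (Lm Δ e b) := by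
      change (Z j l * (∑ Δ, c Δ • (Lm Δ).map (algebraMap κ M))) a b = _
      rw [Finset.mul_sum, Matrix.sum_apply]
      apply Finset.sum_congr rfl
      intro Δ _
      rw [Matrix.mul_smul, Matrix.smul_apply, Matrix.mul_apply]
      rfl
    rw [h4, h5, h1]
  have hTc := unit_span Z hZ1 hZ2 hT
  obtain ⟨s, hs⟩ : T ∈ Set.range (Matrix.scalar (Fin (n + 1))) := by
    apply Matrix.mem_range_scalar_of_commute_single
    intro i j _
    exact (hTc _).symm
  have hTtr : T.trace = 0 := by
    change (∑ Δ, c Δ • (Lm Δ).map (algebraMap κ M)).trace = 0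
    rw [Matrix.trace_sum]
    apply Finset.sum_eq_zero
    intro Δ _
    rw [Matrix.trace_smul]
    have h3 : ((Lm Δ).map (algebraMap κ M)).trace = 0 := by
      rw [← map_zero (algebraMap κ M), ← htr Δ]
      unfold Matrix.trace
      rw [map_sum]
      rfl
    rw [h3, smul_zero]
  have hT0 : T = 0 := by
    rw [← hs] at hTtr
    have h1 : (Matrix.scalar (Fin (n + 1)) s).trace = ((n : M) + 1) * s := by
      rw [Matrix.trace]
      simp
    rw [h1] at hTtr
    rcases mul_eq_zero.1 hTtr with h2 | h2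
    · exact absurd h2 nn
    · rw [← hs, h2, map_zero]
  have h1 : T a b = ∑ Δ, c Δ * algebraMap κ M (Lm Δ a b) := by
    change (∑ Δ, c Δ • (Lm Δ).map (algebraMap κ M)) a b = _
    rw [Matrix.sum_apply]
    rfl
  rw [← h1, hT0]
  rfl

/-- linear independence after an extension of scalars -/
theorem ind_ext {M : Type} [Field M] [Algebra κ M] {n : ℕ} {t : Type} [Fintype t] [DecidableEq t]
    (Lm : t → Matrix (Fin (n + 1)) (Fin (n + 1)) κ)
    (hL : ∀ a : t → κ, ∑ Δ, a Δ • Lm Δ = 0 → a = 0) (c : t → M)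
    (hc : ∀ i j, ∑ Δ, c Δ * algebraMap κ M (Lm Δ i j) = 0) : c = 0 := by
  classical
  let Λ : (t → κ) →ₗ[κ] Matrix (Fin (n + 1)) (Fin (n + 1)) κ :=
    { toFun := fun a => ∑ Δ, a Δ • Lm Δ
      map_add' := fun a b => by
        simp only [Pi.add_apply, add_smul, Finset.sum_add_distrib]
      map_smul' := fun s a => by
        simp only [Pi.smul_apply, smul_eq_mul, mul_smul, Finset.smul_sum, RingHom.id_apply] }
  have hΛ : LinearMap.ker Λ = ⊥ := by
    rw [LinearMap.ker_eq_bot']
    exact fun a ha => hL a ha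
  obtain ⟨Ξ, hΞ⟩ := Λ.exists_leftInverse_of_injective hΛ
  funext Δ0
  have h1 : ∀ N : Matrix (Fin (n + 1)) (Fin (n + 1)) κ,
      Ξ N Δ0 = ∑ i, ∑ j, N i j * Ξ (Matrix.single i j 1) Δ0 := by
    intro N
    conv_lhs => rw [Matrix.matrix_eq_sum_single N]
    rw [map_sum, Finset.sum_apply]
    apply Finset.sum_congr rfl
    intro i _
    rw [map_sum, Finset.sum_apply]
    apply Finset.sum_congr rfl
    intro j _
    have h2 : Matrix.single i j (N i j) = N i j • Matrix.single i j (1 : κ) := by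
      rw [Matrix.smul_single, smul_eq_mul, mul_one]
    rw [h2, map_smul, Pi.smul_apply, smul_eq_mul]
  have h2 : ∀ Δ, ∑ i, ∑ j, Lm Δ i j * Ξ (Matrix.single i j 1) Δ0 = if Δ = Δ0 then 1 else 0 := by
    intro Δ
    rw [← h1]
    have h3 : Lm Δ = Λ (Pi.single Δ 1) := by
      change _ = ∑ Δ', (Pi.single Δ (1 : κ) : t → κ) Δ' • Lm Δ'
      rw [Finset.sum_eq_single Δ]
      · rw [Pi.single_eq_same, one_smul]
      · intro b _ hb
        rw [Pi.single_eq_of_ne hb, zero_smul]
      · intro h; exact absurd (Finset.mem_univ _) h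
    rw [h3]
    have h4 := congrFun (LinearMap.congr_fun hΞ (Pi.single Δ 1)) Δ0
    refine h4.trans ?_
    rw [LinearMap.id_apply, Pi.single_apply]
    by_cases h5 : Δ = Δ0
    · rw [if_pos h5, if_pos h5.symm]
    · rw [if_neg h5, if_neg (Ne.symm h5)]
  have h3 : ∑ i, ∑ j, (∑ Δ, c Δ * algebraMap κ M (Lm Δ i j)) *
      algebraMap κ M (Ξ (Matrix.single i j 1) Δ0) = c Δ0 := by
    rw [Finset.sum_congr rfl fun i _ => Finset.sum_congr rfl fun j _ => Finset.sum_mul _ _ _]
    rw [Finset.sum_congr rfl fun i _ => Finset.sum_comm]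
    rw [Finset.sum_comm]
    have h6 : ∀ Δ : t, ∑ i : Fin (n + 1), ∑ j : Fin (n + 1), c Δ * algebraMap κ M (Lm Δ i j) *
        algebraMap κ M (Ξ (Matrix.single i j 1) Δ0) = c Δ * if Δ = Δ0 then 1 else 0 := by
      intro Δ
      have h7 := congrArg (algebraMap κ M) (h2 Δ)
      simp only [map_sum, map_mul] at h7
      simp only [mul_assoc, ← Finset.mul_sum]
      rw [h7]
      split_ifs
      · rw [map_one]
      · rw [map_zero]
    simp only [h6, mul_ite, mul_one, mul_zero]
    rw [Finset.sum_ite_eq' Finset.univ Δ0]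
    simp
  rw [← h3]
  simp [hc]

/-- the transcendence degree of a quotient -/
theorem quot_card {R B : Type} [CommRing R] [IsDomain R] [CommRing B] [IsDomain B] [Algebra κ R]
    [Algebra κ B] (π : R →ₐ[κ] B) (hπs : Function.Surjective π) {d : ℕ}
    (htr : Algebra.trdeg κ R = d) {a : R} (ha0 : a ≠ 0) (ha : π a = 0) {ι' : Type} {xb : ι' → B}
    (hxb : IsTranscendenceBasis κ xb) : Cardinal.mk ι' < d := by
  choose x hx using fun i => hπs (xb i)
  have hxi : AlgebraicIndependent κ x := by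
    apply AlgebraicIndependent.of_comp π
    have : (π ∘ x) = xb := funext hx
    rw [this]
    exact hxb.1
  have h1 := hxi.cardinalMk_le_trdeg
  rw [htr] at h1
  refine lt_of_le_of_ne h1 fun h2 => ?_
  have hfin : Finite ι' := by
    rw [← Cardinal.lt_aleph0_iff_finite, h2]
    exact Cardinal.natCast_lt_aleph0
  have h3 : IsTranscendenceBasis κ x :=
    hxi.isTranscendenceBasis_of_trdeg_le_of_finite (by rw [htr, h2])
  have h4 : IsAlgebraic (Algebra.adjoin κ (Set.range x)) a := h3.isAlgebraic.isAlgebraic a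
  obtain ⟨c, hc0, b, hb⟩ := h4.exists_nonzero_dvd (mem_nonZeroDivisors_of_ne_zero ha0)
  have hcP : π (algebraMap (Algebra.adjoin κ (Set.range x)) R c) = 0 := by
    rw [hb, map_mul, ha, zero_mul]
  obtain ⟨p, hp⟩ : ∃ p : MvPolynomial ι' κ, MvPolynomial.aeval x p = (c : R) := by
    have h5 : (c : R) ∈ (MvPolynomial.aeval x : MvPolynomial ι' κ →ₐ[κ] _).range := by
      rw [← Algebra.adjoin_range_eq_range_aeval]
      exact c.2
    exact h5
  have h6 : MvPolynomial.aeval xb p = 0 := by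
    have h7 : MvPolynomial.aeval xb p = π (MvPolynomial.aeval x p) := by
      rw [← funext hx]
      exact (MvPolynomial.comp_aeval_apply (f := x) π p).symm
    rw [h7, hp]
    exact hcP
  have h7 : p = 0 := (algebraicIndependent_iff.1 hxb.1) p h6
  rw [h7, map_zero] at hp
  exact hc0 (Subtype.ext hp.symm)

/-- a finite transcendence basis -/
theorem exists_basis {R : Type} [CommRing R] [IsDomain R] [Algebra κ R] [FaithfulSMul κ R] {d : ℕ}
    (hd : Algebra.trdeg κ R = d) : ∃ y : Fin d → R, IsTranscendenceBasis κ y := by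
  obtain ⟨ι'', y, hy⟩ := exists_isTranscendenceBasis' κ R
  have h1 := hy.cardinalMk_eq_trdeg
  rw [hd] at h1
  have h2 : Finite ι'' := by
    rw [← Cardinal.lt_aleph0_iff_finite, h1]
    exact Cardinal.natCast_lt_aleph0
  have _ : Fintype ι'' := Fintype.ofFinite ι''
  rw [Cardinal.mk_fintype] at h1
  have h3 : Fintype.card ι'' = d := by exact_mod_cast h1
  let e : Fin d ≃ ι'' := (Fintype.equivFinOfCardEq h3).symm
  exact ⟨y ∘ e, hy.comp_equiv e⟩

variable {n : ℕ}

section

variable {D : Derivation k F F} {U : Matrix (Fin (n + 1)) (Fin (n + 1)) F} {ρ ℓ : F}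
  {A : Matrix (Fin (n + 1)) (Fin (n + 1)) κ}

/-- the inverse of the fundamental matrix -/
theorem PV.inv_mem (h : PV κ D n U ρ ℓ A) (a j l b : Fin (n + 1)) :
    U a j * U⁻¹ l b ∈ R0 κ U ρ := by
  have h1 : U⁻¹ l b = ρ * U.adjugate l b := by
    rw [Matrix.inv_def, Matrix.smul_apply, smul_eq_mul]
    congr 1
    rw [Ring.inverse_eq_inv', eq_comm]
    exact eq_inv_of_mul_eq_one_left h.det
  rw [h1]
  have h2 : U a j * (ρ * U.adjugate l b) = ρ * (U a j * U.adjugate l b) := by ring
  rw [h2]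
  -- the cofactor times an entry is the determinant of a matrix with entries from the matrix
  have h3 : U a j * U.adjugate l b =
      (Matrix.updateRow U b (Pi.single l (U a j))).det := by
    rw [Matrix.adjugate_apply]
    have h4 : (Pi.single l (U a j) : Fin (n + 1) → F) = U a j • Pi.single l 1 := by
      rw [← Pi.single_smul, smul_eq_mul, mul_one]
    rw [h4, Matrix.det_updateRow_smul]
  rw [h3, Matrix.det_apply, Finset.mul_sum]
  refine sum_mem fun σ _ => ?_
  rw [mul_smul_comm]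
  have h5 : ρ * ∏ i, (Matrix.updateRow U b (Pi.single l (U a j))) (σ i) i ∈ R0 κ U ρ := by
    by_cases hσ : σ l = b
    · have h6 : ∏ i, (Matrix.updateRow U b (Pi.single l (U a j))) (σ i) i =
          ∏ i, U (Function.update (⇑σ) l a i) (Function.update id l j i) := by
        apply Finset.prod_congr rfl
        intro i _
        by_cases hi : i = l
        · subst hi
          rw [← hσ, Matrix.updateRow_self, Pi.single_eq_same, Function.update_self,
            Function.update_self]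
        · have h7 : σ i ≠ b := by
            intro h8
            exact hi (σ.injective (h8.trans hσ.symm))
          rw [Matrix.updateRow_ne h7, Function.update_of_ne hi, Function.update_of_ne hi]
          rfl
      rw [h6]
      exact Algebra.subset_adjoin (subset_span ⟨(_, _), rfl⟩)
    · have h6 : ∏ i, (Matrix.updateRow U b (Pi.single l (U a j))) (σ i) i = 0 := by
        apply Finset.prod_eq_zero (Finset.mem_univ (σ.symm b))
        rw [Equiv.apply_symm_apply, Matrix.updateRow_self, Pi.single_eq_of_ne]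
        intro h7
        apply hσ
        rw [← h7, Equiv.apply_symm_apply]
      rw [h6, mul_zero]
      exact zero_mem _
  rw [Units.smul_def]
  exact zsmul_mem h5 _

theorem PV.Z_der (h : PV κ D n U ρ ℓ A) {Δ : Derivation κ F F}
    {L : Matrix (Fin (n + 1)) (Fin (n + 1)) κ} (hL : LL U Δ = L.map (algebraMap κ F))
    (a j l b : Fin (n + 1)) :
    Δ (U a j * U⁻¹ l b) = ∑ c, algebraMap κ F (L a c) * (U c j * U⁻¹ l b) -
      ∑ c, (U a j * U⁻¹ l c) * algebraMap κ F (L c b) := by
  have hu : IsUnit U.det := isUnit_iff_ne_zero.2 h.det_ne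
  set μ := (U.map Δ * U⁻¹).trace * ((n : F) + 1)⁻¹ with hμ
  have e0 : U.map Δ * U⁻¹ = L.map (algebraMap κ F) + μ • 1 := by
    rw [← hL]
    exact tl_eq _
  have e1 : U.map Δ = L.map (algebraMap κ F) * U + μ • U := by
    have h1 : (U.map Δ * U⁻¹) * U = U.map Δ := by
      rw [Matrix.mul_assoc, nonsing_inv_mul U hu, Matrix.mul_one]
    rw [← h1, e0, Matrix.add_mul, Matrix.smul_mul, Matrix.one_mul]
  have e2 : (U⁻¹).map Δ = -(U⁻¹ * L.map (algebraMap κ F)) - μ • U⁻¹ := by
    rw [map_inv_der Δ h.det_ne, Matrix.mul_assoc, e0, Matrix.mul_add, Matrix.mul_smul,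
      Matrix.mul_one, neg_add]
    abel
  have e3 : Δ (U a j) = ∑ c, algebraMap κ F (L a c) * U c j + μ * U a j := by
    have := congrFun (congrFun e1 a) j
    rw [Matrix.map_apply, Matrix.add_apply, Matrix.smul_apply, Matrix.mul_apply] at this
    exact this
  have e4 : Δ (U⁻¹ l b) = -(∑ c, U⁻¹ l c * algebraMap κ F (L c b)) - μ * U⁻¹ l b := by
    have := congrFun (congrFun e2 l) b
    rw [Matrix.map_apply, Matrix.sub_apply, Matrix.neg_apply, Matrix.smul_apply,
      Matrix.mul_apply] at this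
    exact this
  rw [Δ.leibniz, e3, e4, smul_eq_mul, smul_eq_mul]
  have h5 : ∑ c, algebraMap κ F (L a c) * (U c j * U⁻¹ l b) =
      (∑ c, algebraMap κ F (L a c) * U c j) * U⁻¹ l b := by
    rw [Finset.sum_mul]
    exact Finset.sum_congr rfl fun c _ => by ring
  have h6 : ∑ c, (U a j * U⁻¹ l c) * algebraMap κ F (L c b) =
      U a j * ∑ c, U⁻¹ l c * algebraMap κ F (L c b) := by
    rw [Finset.mul_sum]
    exact Finset.sum_congr rfl fun c _ => by ring
  rw [h5, h6]
  ring


theorem PV.trdeg_R0 (h : PV κ D n U ρ ℓ A) {d : ℕ} (hd : Algebra.trdeg κ F = d) :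
    Algebra.trdeg κ (R0 κ U ρ) = d := by
  have hRalg := h.alg_R0
  have h1 := _root_.trdeg_add_eq κ (R0 κ U ρ) (A := F)
  have h2 : Algebra.trdeg (R0 κ U ρ) F = 0 := _root_.trdeg_eq_zero_iff.2 hRalg
  rw [h2, add_zero] at h1
  rw [h1, hd]

/-- **Simplicity.** -/
theorem PV.simple (h : PV κ D n U ρ ℓ A) [CharZero κ] {d : ℕ} (hd : Algebra.trdeg κ F = d)
    (P : Ideal (R0 κ U ρ)) [hP : P.IsPrime]
    (hPD : ∀ r ∈ P, ∀ s : R0 κ U ρ, (s : F) = D r → s ∈ P) : P = ⊥ := by
  classical
  by_contra hne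
  obtain ⟨a, ha, ha0⟩ := Submodule.exists_mem_ne_zero_of_ne_bot hne
  -- stability
  have hPΔ : ∀ Δ ∈ Inv κ D, ∀ r ∈ P, ∀ s : R0 κ U ρ, (s : F) = Δ r → s ∈ P := by
    intro Δ hΔ r hr s hs
    obtain ⟨l, hl⟩ := h.R0_pow.1 r.2
    let Y : Submodule κ F := (W1 κ U ρ) ^ l ⊓ (P.restrictScalars κ).map (R0 κ U ρ).val.toLinearMap
    have hYfin : Module.Finite κ Y := by
      have h1 := pow_fin (κ := κ) (W := W1 κ U ρ) W1_fin l
      exact Module.Finite.of_injective (Submodule.inclusion (inf_le_left : Y ≤ _))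
        (Submodule.inclusion_injective _)
    have hYmem : ∀ y : F, y ∈ Y ↔ y ∈ (W1 κ U ρ) ^ l ∧ ∃ s ∈ P, (s : F) = y := fun y => Iff.rfl
    have hYD : ∀ y ∈ Y, D y ∈ Y := by
      intro y hy
      rw [hYmem] at hy ⊢
      obtain ⟨h1, s, h2, rfl⟩ := hy
      exact ⟨pow_stab h.stab h.W1_stab l _ h1, ⟨_, h.R0_D s.2⟩,
        hPD s h2 ⟨_, h.R0_D s.2⟩ rfl, rfl⟩
    have h3 := h.stable hYfin hYD hΔ ((hYmem r).2 ⟨hl, r, hr, rfl⟩)
    obtain ⟨-, s', h4, h5⟩ := (hYmem _).1 h3
    have h6 : s = s' := Subtype.ext (hs.trans h5.symm)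
    rwa [h6]
  have htr := h.trdeg_R0 hd
  have hκB : CharZero (R0 κ U ρ ⧸ P) :=
    charZero_of_injective_algebraMap (algebraMap κ (R0 κ U ρ ⧸ P)).injective
  have hπs := Ideal.Quotient.mkₐ_surjective κ P
  have hπ0 : ∀ r, Ideal.Quotient.mkₐ κ P r = 0 ↔ r ∈ P := fun r => Ideal.Quotient.eq_zero_iff_mem
  obtain ⟨ι', xb, hxb⟩ := exists_isTranscendenceBasis' κ (R0 κ U ρ ⧸ P)
  have hcard := quot_card (Ideal.Quotient.mkₐ κ P) hπs htr ha0 ((hπ0 a).2 ha) hxb
  have hfin : Finite ι' := by
    rw [← Cardinal.lt_aleph0_iff_finite]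
    exact hcard.trans Cardinal.natCast_lt_aleph0
  have _ : Fintype ι' := Fintype.ofFinite ι'
  have hcard' : Fintype.card ι' < d := by
    rw [Cardinal.mk_fintype] at hcard
    exact_mod_cast hcard
  -- independent invariant derivations
  obtain ⟨t, ht1, ht2, ht3⟩ := exists_linearIndependent F (Inv κ D)
  obtain ⟨y, hy⟩ := exists_basis hd
  obtain ⟨hdf, hdr⟩ := finrank_der hy
  have ht4 : ⊤ ≤ span F (Set.range ((↑) : t → Derivation κ F F)) := by
    rw [Subtype.range_coe_subtype, Set.ofPred_mem_eq, ht2, h.inv_span]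
  let bt := Module.Basis.mk ht3 ht4
  have hfint : Fintype t := FiniteDimensional.fintypeBasisIndex bt
  have hcardt : Fintype.card t = d := by
    rw [← Module.finrank_eq_card_basis bt, hdr]
  choose Lm hLm using fun Δ : t => h.L_const (ht1 Δ.2)
  -- the induced derivations
  have hΔR : ∀ Δ : t, ∀ r : R0 κ U ρ, (Δ : Derivation κ F F) r ∈ R0 κ U ρ := fun Δ r =>
    h.R0_inv (ht1 Δ.2) r.2
  let dR : t → Derivation κ (R0 κ U ρ) (R0 κ U ρ) := fun Δ => Derivation.mk'
    { toFun := fun r => ⟨(Δ : Derivation κ F F) r, hΔR Δ r⟩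
      map_add' := fun r s => Subtype.ext (map_add (Δ : Derivation κ F F) _ _)
      map_smul' := fun c r => Subtype.ext ((Δ : Derivation κ F F).map_smul c (r : F)) }
    (fun r s => Subtype.ext ((Δ : Derivation κ F F).leibniz r s))
  have hdR : ∀ Δ r, ((dR Δ r : R0 κ U ρ) : F) = (Δ : Derivation κ F F) r := fun Δ r => rfl
  obtain ⟨c, hc0, hc⟩ := dep (M := FractionRing (R0 κ U ρ ⧸ P))
    (IsFractionRing.injective _ _) hπs dR (fun Δ r hr => by
      rw [hπ0] at hr ⊢
      exact hPΔ _ (ht1 Δ.2) r hr _ rfl) hxb (by rw [hcardt]; exact hcard')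
  have hκM : CharZero (FractionRing (R0 κ U ρ ⧸ P)) :=
    charZero_of_injective_algebraMap (IsFractionRing.injective (R0 κ U ρ ⧸ P)
      (FractionRing (R0 κ U ρ ⧸ P)))
  let z : Fin (n + 1) → Fin (n + 1) → Fin (n + 1) → Fin (n + 1) → R0 κ U ρ := fun a j l b =>
    ⟨U a j * U⁻¹ l b, h.inv_mem a j l b⟩
  have hu : IsUnit U.det := isUnit_iff_ne_zero.2 h.det_ne
  have hUU : ∀ l l', ∑ b, U⁻¹ l b * U b l' = if l = l' then 1 else 0 := by
    intro l l'
    have h1 := congrFun (congrFun (nonsing_inv_mul U hu) l) l'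
    rw [Matrix.mul_apply, Matrix.one_apply] at h1
    exact h1
  have hz1 : ∀ a j l l' j' b, ∑ c, z a j l c * z c l' j' b = if l = l' then z a j j' b else 0 := by
    intro a j l l' j' b
    apply Subtype.ext
    rw [AddSubmonoidClass.coe_finsetSum]
    have h2 : ∀ c, ((z a j l c * z c l' j' b : R0 κ U ρ) : F) =
        U a j * (U⁻¹ l c * U c l') * U⁻¹ j' b := by
      intro c
      change U a j * U⁻¹ l c * (U c l' * U⁻¹ j' b) = _
      ring
    simp only [h2, ← Finset.mul_sum, ← Finset.sum_mul, hUU]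
    split_ifs with h3
    · rw [mul_one]
    · rw [mul_zero, zero_mul]
      rfl
  have hz2 : ∀ a b, ∑ j, z a j j b = if a = b then 1 else 0 := by
    intro a b
    apply Subtype.ext
    rw [AddSubmonoidClass.coe_finsetSum]
    have h2 := congrFun (congrFun (mul_nonsing_inv U hu) a) b
    rw [Matrix.mul_apply, Matrix.one_apply] at h2
    refine h2.trans ?_
    split_ifs <;> rfl
  have hLtr : ∀ Δ, (Lm Δ).trace = 0 := by
    intro Δ
    have h1 : ((Lm Δ).map (algebraMap κ F)).trace = 0 := by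
      rw [← hLm Δ]
      exact tl_trace _
    apply (algebraMap κ F).injective
    rw [map_zero, ← h1]
    unfold Matrix.trace
    rw [map_sum]
    rfl
  have hL0 : ∀ a : t → κ, ∑ Δ, a Δ • Lm Δ = 0 → a = 0 := by
    intro a ha
    have h1 : LLl U (∑ Δ : t, algebraMap κ F (a Δ) • (Δ : Derivation κ F F)) = 0 := by
      rw [map_sum]
      funext p
      rw [Finset.sum_apply]
      have h2 := congrArg (fun N : Matrix (Fin (n + 1)) (Fin (n + 1)) κ =>
        algebraMap κ F (N p.1 p.2)) ha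
      change algebraMap κ F ((∑ Δ, a Δ • Lm Δ) p.1 p.2) = algebraMap κ F 0 at h2
      rw [map_zero, Matrix.sum_apply, map_sum] at h2
      rw [Pi.zero_apply, ← h2]
      apply Finset.sum_congr rfl
      intro Δ _
      rw [map_smul, Pi.smul_apply, Matrix.smul_apply, smul_eq_mul, smul_eq_mul, map_mul]
      congr 1
      change LL U _ p.1 p.2 = _
      rw [hLm Δ]
      rfl
    have h2 := h.LL_inj (h1.trans (map_zero _).symm)
    have h3 := Fintype.linearIndependent_iff.1 ht3 (fun Δ => algebraMap κ F (a Δ)) h2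
    funext Δ
    exact (map_eq_zero_iff _ (algebraMap κ F).injective).1 (h3 Δ)
  apply hc0
  refine ind_ext Lm hL0 c ?_
  refine mat_zero ((algebraMap (R0 κ U ρ ⧸ P) (FractionRing (R0 κ U ρ ⧸ P))).comp
    (Ideal.Quotient.mkₐ κ P).toRingHom) (fun c => ?_) z hz1 hz2 Lm hLtr c (fun Δ r => dR Δ r)
    (fun Δ a j l b => ?_) hc
  · change algebraMap (R0 κ U ρ ⧸ P) (FractionRing (R0 κ U ρ ⧸ P))
      (Ideal.Quotient.mkₐ κ P (algebraMap κ (R0 κ U ρ) c)) = _
    rw [AlgHom.commutes]
    exact (IsScalarTower.algebraMap_apply κ (R0 κ U ρ ⧸ P) (FractionRing (R0 κ U ρ ⧸ P)) c).symm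
  · apply Subtype.ext
    rw [hdR, AddSubgroupClass.coe_sub, AddSubmonoidClass.coe_finsetSum,
      AddSubmonoidClass.coe_finsetSum]
    exact h.Z_der (hLm Δ) a j l b

end

end Pool.Agent.N131.MV
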