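import Mathlib
import Pool.Agent.N131.MV.Smp2
import Pool.Agent.N131.MV.Dim
import Pool.Agent.N131.MV.Plc

/-!
Statements of the algebraic parts.
-/

set_option autoImplicit false

namespace Pool.Agent.N131.MV

open FF MvPolynomial Pool.Agent.W603.LV
open Pool.Agent.W602.GT (Divisorial IsPluri RegAt LogAt)

/-- the derivation `Δ` is regular at `P` -/
def RegP {k κ F : Type} [Field k] [Field κ] [Field F] [Algebra k F] [Algebra κ F]
    (P : Place κ F) (Δ : Derivation k F F) : Prop := ∀ x, P.Reg x → P.Reg (Δ x)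

/-- the derivation `Δ` is logarithmic at `P` -/
def LogP {k κ F : Type} [Field k] [Field κ] [Field F] [Algebra k F] [Algebra κ F]
    (P : Place κ F) (Δ : Derivation k F F) : Prop := ∀ x, P.Reg (Δ x / x)

/-- (INT) elements which are regular at the divisorial places over an affine ring are integral -/
def S_INT : Prop := ∀ (κ F : Type) [Field κ] [Field F] [Algebra κ F] [CharZero κ]
  [Algebra.EssFiniteType κ F] (m : ℕ), Algebra.trdeg κ F = (m + 1 : ℕ) →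
  ∀ A : Subalgebra κ F, A.FG → Algebra.IsAlgebraic A F → ∀ g : F,
  (∀ P : Place κ F, (∀ a ∈ A, P.Reg a) → (∃ s : Fin m → F, (∀ i, s i ∈ A) ∧ Ri P s) → P.Reg g) →
  IsIntegral A g

/-- (BEL) the place below a divisorial place is divisorial -/
def S_BEL : Prop := ∀ (k κ L F : Type) [Field k] [Field κ] [Field L] [Field F] [CharZero k]
  [Algebra k κ] [Algebra κ F] [Algebra k F] [IsScalarTower k κ F] [Algebra k L] [Algebra L F]
  [IsScalarTower k L F] (m w : ℕ), Algebra.trdeg κ F = (m + 1 : ℕ) → Algebra.trdeg k L = w →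
  ∀ (P : Place κ F) (s : Fin m → F), Ri P s →
  (∃ x : L, x ≠ 0 ∧ P.ord (algebraMap L F x) ≠ 0) →
  ∃ (P' : Place k L) (e : ℕ), 0 < e ∧ (∀ x : L, P.ord (algebraMap L F x) = e * P'.ord x) ∧
    Divisorial w P'

/-- (JAC) the Jacobian -/
def S_JAC : Prop := ∀ (k κ L F : Type) [Field k] [Field κ] [Field L] [Field F] [CharZero k]
  [Algebra κ F] [Algebra k F] [Algebra k L] [Algebra L F] [IsScalarTower k L F]
  [Algebra.EssFiniteType k L] (w : ℕ), 0 < w → Algebra.trdeg k L = w →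
  ∀ (P : Place κ F) (P' : Place k L) (e : ℕ), 0 < e →
  (∀ x : L, P.ord (algebraMap L F x) = e * P'.ord x) → Divisorial w P' →
  ∀ (N : ℕ) (ω : (Fin w → Derivation k L L) → L), IsPluri N ω →
  ∀ x : Fin w → L, IsTranscendenceBasis k x →
  ∀ E : Fin w → Derivation k L L, (∀ i j, E i (x j) = if i = j then 1 else 0) →
  ∀ Δ : Fin w → Derivation k F F,
  ((∀ a, RegP P (Δ a)) → RegAt P' ω → Ge P 0 (algebraMap L F (ω E) *
    (Matrix.of fun a j => Δ a (algebraMap L F (x j))).det ^ N)) ∧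
  ((∀ a, RegP P (Δ a)) → LogAt P' ω → Ge P (-N) (algebraMap L F (ω E) *
    (Matrix.of fun a j => Δ a (algebraMap L F (x j))).det ^ N)) ∧
  ((∀ a, LogP P (Δ a)) → LogAt P' ω → Ge P 0 (algebraMap L F (ω E) *
    (Matrix.of fun a j => Δ a (algebraMap L F (x j))).det ^ N))

/-- (HOR) the frame -/
def S_HOR : Prop := ∀ (k κ F : Type) [Field k] [Field κ] [Field F] [CharZero k]
  [Algebra k κ] [Algebra κ F] [Algebra k F] [IsScalarTower k κ F] [Algebra.EssFiniteType κ F]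
  (m : ℕ), Algebra.trdeg κ F = (m + 1 : ℕ) → ∀ V : Set (Derivation κ F F),
  Submodule.span F V = ⊤ → ∀ (w : ℕ) (x : Fin w → F), AlgebraicIndependent k x →
  ∃ Δ : Fin w → Derivation k F F, (Matrix.of fun a j => Δ a (x j)).det ≠ 0 ∧
    ∀ (P : Place κ F) (s : Fin m → F), Ri P s → ∃ Δ' : Fin w → Derivation k F F,
      (Matrix.of fun a j => Δ' a (x j)).det = (Matrix.of fun a j => Δ a (x j)).det ∧
      ∀ a, (∃ Δ₀ ∈ V, ∀ y, Δ' a y = Δ₀ y) ∨ (RegP P (Δ' a) ∧ LogP P (Δ' a))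

/-- (ORD) the order of vanishing along a derivation -/
def S_ORD : Prop := ∀ (k κ F : Type) [Field k] [Field κ] [Field F] [CharZero κ] [Algebra k F]
  [Algebra κ F] (D : Derivation k F F) (V : ValuationSubring F),
  (∀ c : κ, algebraMap κ F c ∈ V) → (∀ x ∈ V, D x ∈ V) →
  (∀ x ∈ V, x ≠ 0 → ∃ j : ℕ, D^[j] x ∉ V.nonunits) → V ≠ ⊤ →
  ∃ P : Place κ F, (∀ x, P.Reg x ↔ x ∈ V) ∧ (∀ x, Ge P 1 x ↔ x ∈ V.nonunits) ∧
    ∀ x ∈ V.nonunits, x ≠ 0 → P.ord (D x) = P.ord x - 1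

/-- (CAL) compactness -/
def S_CAL : Prop := ∀ (k κ F : Type) [Field k] [Field κ] [Field F] [CharZero F] [CharZero κ]
  [Algebra k F] [Algebra κ F] [Algebra.EssFiniteType κ F] (D : Derivation k F F) (n : ℕ)
  (U : Matrix (Fin (n + 1)) (Fin (n + 1)) F) (ρ ℓ : F)
  (A : Matrix (Fin (n + 1)) (Fin (n + 1)) κ), PV κ D n U ρ ℓ A →
  ∀ m : ℕ, Algebra.trdeg κ F = (m + 1 : ℕ) →
  ∀ (ι J : Type) [Finite ι] [Finite J] (g : ι → F) (N : ℕ) (Pos Neg : J → Finset F),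
  (∀ (P : Place κ F) (s : Fin m → F), Ri P s → (∀ Δ ∈ Inv κ D, RegP P Δ) →
    (∀ i, Ge P 0 (g i)) ∨ ((∃ j, (∀ x ∈ Pos j, P.Reg x) ∧ ∀ x ∈ Neg j, Ge P 1 x) ∧
      ∀ i, Ge P (-N) (g i))) →
  ∃ (T : Finset κ) (Gs : Finset (Finset (R0 κ U ρ))),
    (∀ G ∈ Gs, (Ideal.span (G : Set (R0 κ U ρ))).IsPrime ∧
      Algebra.trdeg κ (R0 κ U ρ ⧸ Ideal.span (G : Set (R0 κ U ρ))) < m) ∧
    ∀ V : ValuationSubring F, (∀ x ∈ V, D x ∈ V) → (∀ c ∈ T, algebraMap κ F c ∈ V) →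
      (∀ p, gen1 U ρ p ∈ V) →
      (∀ i, g i ∈ V) ∨
      ((∃ j, (∀ x ∈ Pos j, x ∈ V) ∧ ∀ x ∈ Neg j, x ∈ V.nonunits) ∧
        ∃ t ∈ V.nonunits, D t ∈ V ∧ D t ∉ V.nonunits ∧ ∀ i, t ^ N * g i ∈ V) ∨
      ∃ G ∈ Gs, ∀ x ∈ G, (x : F) ∈ V.nonunits

/-- (BAL) integral equations -/
def S_BAL : Prop := ∀ (k κ F : Type) [Field k] [Field κ] [Field F] [CharZero F] [CharZero κ]
  [Algebra k F] [Algebra κ F] [Algebra.EssFiniteType κ F] (D : Derivation k F F) (n : ℕ)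
  (U : Matrix (Fin (n + 1)) (Fin (n + 1)) F) (ρ ℓ : F)
  (A : Matrix (Fin (n + 1)) (Fin (n + 1)) κ), PV κ D n U ρ ℓ A →
  ∀ m : ℕ, Algebra.trdeg κ F = (m + 1 : ℕ) →
  ∀ (ι : Type) [Finite ι] (g : ι → F),
  (∀ (P : Place κ F) (s : Fin m → F), Ri P s → (∀ Δ ∈ Inv κ D, LogP P Δ) →
    ∀ i, Ge P 0 (g i)) →
  ∃ (l : ℕ) (b : F) (J : ℕ), 0 < l ∧ b ≠ 0 ∧ b ∈ W1 κ U ρ ^ l ∧
    ∀ (q : ℕ) (y : Fin q → F), Submodule.span κ (Set.range y) = W1 κ U ρ ^ l →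
    ∀ i0, y i0 ≠ 0 → ∀ i, ∃ p : Polynomial (MvPolynomial (Fin q ⊕ Fin (J + 1)) κ), p.Monic ∧
      p.eval₂ (aeval (Sum.elim (fun a => y a / y i0)
        (fun j : Fin (J + 1) => D^[(j : ℕ)] b / b))).toRingHom (g i) = 0

/-- (GCD) elements with many derivatives in a prime ideal of codimension at least two -/
def S_GCD : Prop := ∀ (k κ F : Type) [Field k] [Field κ] [Field F] [CharZero F] [CharZero κ]
  [Algebra k F] [Algebra κ F] [Algebra.EssFiniteType κ F] (D : Derivation k F F) (n : ℕ)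
  (U : Matrix (Fin (n + 1)) (Fin (n + 1)) F) (ρ ℓ : F)
  (A : Matrix (Fin (n + 1)) (Fin (n + 1)) κ), PV κ D n U ρ ℓ A →
  ∀ m : ℕ, Algebra.trdeg κ F = (m + 1 : ℕ) →
  ∀ G : Finset (R0 κ U ρ), (Ideal.span (G : Set (R0 κ U ρ))).IsPrime →
  Algebra.trdeg κ (R0 κ U ρ ⧸ Ideal.span (G : Set (R0 κ U ρ))) < m → ∀ M : ℕ,
  ∃ (l : ℕ) (Q : MvPolynomial ((Fin (n + 1) → Fin (n + 1)) × (Fin (n + 1) → Fin (n + 1))) κ),
    0 < l ∧ Q.IsHomogeneous l ∧ aeval (gen1 U ρ) Q ≠ 0 ∧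
    ∀ j < M * l, ∃ r : G → MvPolynomial
        ((Fin (n + 1) → Fin (n + 1)) × (Fin (n + 1) → Fin (n + 1))) κ,
      D^[j] (aeval (gen1 U ρ) Q) = ∑ x : G, aeval (gen1 U ρ) (r x) * ((x : R0 κ U ρ) : F)

end Pool.Agent.N131.MV
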