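import Mathlib
import Pool.Agent.N131.MV.Stm

set_option autoImplicit false

namespace Pool.Agent.N131.MV

open FF MvPolynomial Pool.Agent.W603.LV
open Pool.Agent.W602.GT (Divisorial IsPluri RegAt LogAt)

/-! ### the place below -/

theorem bel_exch {α : Type} {M : Matroid α} {I Y : Set α} (hI : M.Indep I) (hY : M.Indep Y) :
    ∃ B, M.Indep B ∧ I ⊆ B ∧ B ⊆ I ∪ Y ∧ (Y \ (B \ I)).encard ≤ I.encard := by
  obtain ⟨B, hB, hIB⟩ := hI.subset_isBasis_of_subset (X := I ∪ Y) Set.subset_union_left
    (Set.union_subset hI.subset_ground hY.subset_ground)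
  obtain ⟨B1, hB1, hYB⟩ := hY.subset_isBasis_of_subset (X := I ∪ Y) Set.subset_union_right
    (Set.union_subset hI.subset_ground hY.subset_ground)
  refine ⟨B, hB.indep, hIB, hB.subset, ?_⟩
  have h1 : (B1 \ B).encard = (B \ B1).encard :=
    ((M.isBase_restrict_iff (Set.union_subset hI.subset_ground hY.subset_ground)).2 hB1
      ).encard_sdiff_comm
      ((M.isBase_restrict_iff (Set.union_subset hI.subset_ground hY.subset_ground)).2 hB)
  calc (Y \ (B \ I)).encard ≤ ((B1 \ B) ∪ (I ∩ Y)).encard := by
        apply Set.encard_le_encard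
        rintro x ⟨hx1, hx2⟩
        by_cases hxB : x ∈ B
        · right
          refine ⟨?_, hx1⟩
          by_contra h
          exact hx2 ⟨hxB, h⟩
        · exact Or.inl ⟨hYB hx1, hxB⟩
    _ ≤ (B1 \ B).encard + (I ∩ Y).encard := Set.encard_union_le _ _
    _ = (B \ B1).encard + (I ∩ Y).encard := by rw [h1]
    _ ≤ (I \ Y).encard + (I ∩ Y).encard := by
        have h2 : B \ B1 ⊆ I \ Y := by
          rintro x ⟨hx1, hx2⟩
          rcases hB.subset hx1 with h | h
          · exact ⟨h, fun h' => hx2 (hYB h')⟩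
          · exact absurd (hYB h) hx2
        exact add_le_add_left (Set.encard_le_encard h2) _
    _ = I.encard := Set.encard_sdiff_add_encard_inter I Y

/-- the restriction of a place to a subfield -/
theorem bel_place {k κ L F : Type} [Field k] [Field κ] [Field L] [Field F]
    [Algebra k κ] [Algebra κ F] [Algebra k F] [IsScalarTower k κ F] [Algebra k L] [Algebra L F]
    [IsScalarTower k L F] (P : Place κ F)
    (hx : ∃ x : L, x ≠ 0 ∧ P.ord (algebraMap L F x) ≠ 0) :
    ∃ (P' : Place k L) (e : ℕ), 0 < e ∧ ∀ x : L, P.ord (algebraMap L F x) = e * P'.ord x := by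
  classical
  have hne : ∀ x : L, x ≠ 0 → algebraMap L F x ≠ 0 := fun x hx h =>
    hx ((algebraMap L F).injective (by rw [h, map_zero]))
  have hex : ∃ n : ℕ, 0 < n ∧ ∃ x : L, x ≠ 0 ∧ P.ord (algebraMap L F x) = n := by
    obtain ⟨x, hx0, hx1⟩ := hx
    rcases lt_or_gt_of_ne hx1 with h | h
    · refine ⟨(-P.ord (algebraMap L F x)).toNat, by omega, x⁻¹, inv_ne_zero hx0, ?_⟩
      rw [map_inv₀, P.ord_inv]
      omega
    · exact ⟨(P.ord (algebraMap L F x)).toNat, by omega, x, hx0, by omega⟩
  obtain ⟨he0, x0, hx0, hx1⟩ := Nat.find_spec hex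
  have hmin : ∀ n : ℕ, n < Nat.find hex → ¬ (0 < n ∧ ∃ x : L, x ≠ 0 ∧ P.ord (algebraMap L F x) = n) :=
    fun n hn => Nat.find_min hex hn
  generalize Nat.find hex = e at he0 hx1 hmin
  have hdvd : ∀ x : L, (e : ℤ) ∣ P.ord (algebraMap L F x) := by
    intro x
    by_cases hx : x = 0
    · rw [hx, map_zero, P.ord_zero]
      exact dvd_zero _
    have h1 : P.ord (algebraMap L F (x * x0 ^ (-(P.ord (algebraMap L F x) / e)))) =
        P.ord (algebraMap L F x) % e := by
      rw [map_mul, map_zpow₀, P.ord_mul (hne x hx) (zpow_ne_zero _ (hne x0 hx0)), P.ord_zpow, hx1]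
      have := Int.emod_add_mul_ediv (P.ord (algebraMap L F x)) e
      linarith [mul_comm (e : ℤ) (P.ord (algebraMap L F x) / e)]
    have h2 : 0 ≤ P.ord (algebraMap L F x) % e := Int.emod_nonneg _ (by omega)
    have h3 : P.ord (algebraMap L F x) % e < e := Int.emod_lt_of_pos _ (by omega)
    apply Int.dvd_of_emod_eq_zero
    by_contra h4
    exact hmin (P.ord (algebraMap L F x) % e).toNat (by omega) ⟨by omega,
      x * x0 ^ (-(P.ord (algebraMap L F x) / e)), mul_ne_zero hx (zpow_ne_zero _ hx0), by
        rw [h1]; omega⟩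
  have he : (e : ℤ) ≠ 0 := by omega
  refine ⟨⟨fun x => P.ord (algebraMap L F x) / e, ?_, ?_, ?_, ?_, ?_⟩, e, he0, ?_⟩
  · show P.ord (algebraMap L F 0) / e = 0
    rw [map_zero, P.ord_zero, Int.zero_ediv]
  · intro f g hf hg
    show P.ord (algebraMap L F (f * g)) / e = _
    rw [map_mul, P.ord_mul (hne f hf) (hne g hg), Int.add_ediv_of_dvd_left (hdvd f)]
  · intro f g hf hg hfg
    show min (P.ord (algebraMap L F f) / e) (P.ord (algebraMap L F g) / e) ≤
      P.ord (algebraMap L F (f + g)) / e
    have h1 := P.ord_add (hne f hf) (hne g hg) (by rw [← map_add]; exact hne _ hfg)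
    rw [← map_add] at h1
    obtain ⟨a, ha⟩ := hdvd f
    obtain ⟨b, hb⟩ := hdvd g
    obtain ⟨c, hc⟩ := hdvd (f + g)
    rw [ha, hb, hc] at h1 ⊢
    rw [Int.mul_ediv_cancel_left _ he, Int.mul_ediv_cancel_left _ he,
      Int.mul_ediv_cancel_left _ he]
    have he1 : (0 : ℤ) < e := by omega
    rcases min_le_iff.1 h1 with h | h
    · exact min_le_iff.2 (Or.inl (le_of_mul_le_mul_left h he1))
    · exact min_le_iff.2 (Or.inr (le_of_mul_le_mul_left h he1))
  · intro c hc
    show P.ord (algebraMap L F (algebraMap k L c)) / e = 0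
    rw [← IsScalarTower.algebraMap_apply k L F, IsScalarTower.algebraMap_apply k κ F,
      P.ord_const, Int.zero_ediv]
    exact fun h => hc ((algebraMap k κ).injective (by rw [h, map_zero]))
  · exact ⟨x0, hx0, by rw [hx1]; exact Int.ediv_self he⟩
  · intro x
    exact (Int.mul_ediv_cancel' (hdvd x)).symm

/-- the same place, over a smaller field -/
def bel_res {k κ F : Type} [Field k] [Field κ] [Field F]
    [Algebra k κ] [Algebra κ F] [Algebra k F] [IsScalarTower k κ F] (P : Place κ F) :
    Place k F where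
  ord := P.ord
  ord_zero := P.ord_zero
  ord_mul := P.ord_mul
  ord_add := P.ord_add
  ord_const := by
    intro c hc
    rw [IsScalarTower.algebraMap_apply k κ F]
    exact P.ord_const fun h => hc ((algebraMap k κ).injective (by rw [h, map_zero]))
  surj := P.surj

theorem bel_ri_res {k κ F : Type} [Field k] [Field κ] [Field F]
    [Algebra k κ] [Algebra κ F] [Algebra k F] [IsScalarTower k κ F] (P : Place κ F)
    {ι ι' : Type} {s : ι → F} (hs : Ri P s) {c : ι' → κ} (hc : AlgebraicIndependent k c) :
    Ri (bel_res (k := k) P) (Sum.elim s (algebraMap κ F ∘ c)) := by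
  intro G hG
  have h1 : AlgebraicIndependent k (Sum.elim (X : ι → MvPolynomial ι κ)
      (algebraMap κ (MvPolynomial ι κ) ∘ c)) :=
    hc.sumElim_comp (MvPolynomial.algebraicIndependent_X ι κ)
  have h2 : aeval (Sum.elim (X : ι → MvPolynomial ι κ)
      (algebraMap κ (MvPolynomial ι κ) ∘ c)) G ≠ 0 := by
    intro h
    exact hG (h1.eq_zero_of_aeval_eq_zero G h)
  have h3 : aeval (Sum.elim s (algebraMap κ F ∘ c)) G = aeval s (aeval (Sum.elim
      (X : ι → MvPolynomial ι κ) (algebraMap κ (MvPolynomial ι κ) ∘ c)) G) := by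
    have h4 : aeval (R := k) (Sum.elim s (algebraMap κ F ∘ c)) =
        ((aeval s).restrictScalars k).comp (aeval (Sum.elim
      (X : ι → MvPolynomial ι κ) (algebraMap κ (MvPolynomial ι κ) ∘ c))) := by
      ext (_ | _) <;> simp
    rw [h4]
    rfl
  rw [h3]
  exact hs _ h2

/-- residual independence in the subfield -/
theorem bel_ri {k L F : Type} [Field k] [Field L] [Field F]
    [Algebra k F] [Algebra k L] [Algebra L F] [IsScalarTower k L F] {P : Place k F}
    {P' : Place k L} {e : ℕ} (he : 0 < e) (hP : ∀ x : L, P.ord (algebraMap L F x) = e * P'.ord x)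
    {ι : Type} {u : ι → L} : Ri P (algebraMap L F ∘ u) ↔ Ri P' u := by
  have h1 : ∀ G : MvPolynomial ι k, aeval (algebraMap L F ∘ u) G = algebraMap L F (aeval u G) := by
    intro G
    rw [MvPolynomial.aeval_algebraMap_apply]
  constructor
  · intro h G hG
    obtain ⟨h2, h3⟩ := h G hG
    rw [h1] at h2 h3
    refine ⟨fun h4 => h2 (by rw [h4, map_zero]), ?_⟩
    rw [hP] at h3
    rcases mul_eq_zero.1 h3 with h4 | h4
    · omega
    · exact h4
  · intro h G hG
    obtain ⟨h2, h3⟩ := h G hG
    rw [h1]
    refine ⟨fun h4 => h2 ((algebraMap L F).injective (by rw [h4, map_zero])), ?_⟩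
    rw [hP, h3, mul_zero]


/-- lifting algebraic independence over the residue field of the subfield -/
theorem bel_lift {k L F : Type} [Field k] [Field L] [Field F]
    [Algebra k F] [Algebra k L] [Algebra L F] [IsScalarTower k L F] {P : Place k F}
    {P' : Place k L} {e : ℕ} (he : 0 < e) (hP : ∀ x : L, P.ord (algebraMap L F x) = e * P'.ord x)
    (S : Subalgebra k P.RF) (hS : ∀ x : L, P'.Reg x → P.red (algebraMap L F x) ∈ S)
    {ζ : Type} {z : ζ → F} (hz : ∀ i, P.Reg (z i))
    (hi : AlgebraicIndependent S fun i => P.red (z i)) : AlgebraicIndependent L z := by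
  classical
  have hreg : ∀ x : L, P'.Reg x → P.Reg (algebraMap L F x) := by
    rintro x (h | h)
    · left
      rw [h, map_zero]
    · right
      rw [hP]
      positivity
  rw [algebraicIndependent_iff]
  intro G hG
  by_contra h0
  -- the coefficient of least order
  obtain ⟨m0, hm0, hmin⟩ := G.support.exists_min_image (fun m => P'.ord (G.coeff m))
    (Finset.nonempty_iff_ne_empty.2 fun h => h0 (MvPolynomial.support_eq_empty.1 h))
  have hc0 : G.coeff m0 ≠ 0 := MvPolynomial.mem_support_iff.1 hm0
  have hr : ∀ m, P'.Reg (G.coeff m / G.coeff m0) := by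
    intro m
    by_cases hm : G.coeff m = 0
    · left
      rw [hm, zero_div]
    · right
      rw [P'.ord_div hm hc0]
      have := hmin m (MvPolynomial.mem_support_iff.2 hm)
      omega
  -- the residues of the coefficients
  let c : (ζ →₀ ℕ) → S := fun m => ⟨P.red (algebraMap L F (G.coeff m / G.coeff m0)), hS _ (hr m)⟩
  have hsum : ∑ m ∈ G.support, (MvPolynomial.monomial m (c m)) ≠ 0 := by
    intro h
    have h1 := congrArg (MvPolynomial.coeff m0) h
    rw [MvPolynomial.coeff_sum, Finset.sum_eq_single m0, MvPolynomial.coeff_monomial, if_pos rfl,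
      MvPolynomial.coeff_zero] at h1
    · have h2 : P.red (algebraMap L F (G.coeff m0 / G.coeff m0)) = 0 := congrArg Subtype.val h1
      rw [div_self hc0, map_one, P.red_one] at h2
      exact one_ne_zero h2
    · intro b _ hb
      rw [MvPolynomial.coeff_monomial, if_neg hb]
    · intro h2
      exact absurd hm0 h2
  apply hsum
  apply hi.eq_zero_of_aeval_eq_zero
  have hzr : ∀ (m : ζ →₀ ℕ), P.Reg (m.prod fun i n => z i ^ n) ∧
      P.red (m.prod fun i n => z i ^ n) = m.prod fun i n => P.red (z i) ^ n := by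
    intro m
    have hpow : ∀ (i : ζ) (n : ℕ), P.Reg (z i ^ n) := by
      intro i n
      induction n with
      | zero => rw [pow_zero]; exact P.reg_one
      | succ n ih => rw [pow_succ]; exact P.reg_mul ih (hz i)
    unfold Finsupp.prod
    induction m.support using Finset.induction_on with
    | empty => exact ⟨by rw [Finset.prod_empty]; exact P.reg_one, by
        rw [Finset.prod_empty, Finset.prod_empty, P.red_one]⟩
    | insert i s his ih =>
      rw [Finset.prod_insert his, Finset.prod_insert his]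
      exact ⟨P.reg_mul (hpow i _) ih.1, by
        rw [P.red_mul (hpow i _) ih.1, ih.2, P.red_pow (hz i)]⟩
  have hs : ∀ T : Finset (ζ →₀ ℕ), P.Reg (∑ m ∈ T, algebraMap L F (G.coeff m / G.coeff m0) *
      m.prod fun i n => z i ^ n) ∧ P.red (∑ m ∈ T, algebraMap L F (G.coeff m / G.coeff m0) *
      m.prod fun i n => z i ^ n) = ∑ m ∈ T, (c m : P.RF) * m.prod fun i n => P.red (z i) ^ n := by
    intro T
    induction T using Finset.induction_on with
    | empty => exact ⟨by rw [Finset.sum_empty]; exact P.reg_zero, by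
        rw [Finset.sum_empty, Finset.sum_empty, P.red_zero]⟩
    | insert m T hm ih =>
      have h1 : P.Reg (algebraMap L F (G.coeff m / G.coeff m0) * m.prod fun i n => z i ^ n) :=
        P.reg_mul (hreg _ (hr m)) (hzr m).1
      rw [Finset.sum_insert hm, Finset.sum_insert hm]
      exact ⟨P.reg_add h1 ih.1, by
        rw [P.red_add h1 ih.1, ih.2, P.red_mul (hreg _ (hr m)) (hzr m).1, (hzr m).2]⟩
  rw [map_sum]
  have h1 : ∀ m, aeval (fun i => P.red (z i)) (MvPolynomial.monomial m (c m)) =
      (c m : P.RF) * m.prod fun i n => P.red (z i) ^ n := by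
    intro m
    rw [aeval_monomial]
    rfl
  rw [Finset.sum_congr rfl fun m _ => h1 m, ← (hs _).2]
  have h2 : ∑ m ∈ G.support, algebraMap L F (G.coeff m / G.coeff m0) *
      (m.prod fun i n => z i ^ n) = 0 := by
    have h3 : algebraMap L F (G.coeff m0) * ∑ m ∈ G.support,
        algebraMap L F (G.coeff m / G.coeff m0) * (m.prod fun i n => z i ^ n) = aeval z G := by
      rw [Finset.mul_sum, MvPolynomial.aeval_def, MvPolynomial.eval₂_eq]
      refine Finset.sum_congr rfl fun m _ => ?_
      rw [← mul_assoc, ← map_mul, mul_div_cancel₀ _ hc0]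
      rfl
    rw [hG] at h3
    rcases mul_eq_zero.1 h3 with h4 | h4
    · exact absurd ((algebraMap L F).injective (h4.trans (map_zero _).symm)) hc0
    · exact h4
  rw [h2, P.red_zero]


/-- residues of elements of the subfield are algebraic over a maximal residually independent family -/
theorem bel_max {k L F : Type} [Field k] [Field L] [Field F]
    [Algebra k F] [Algebra k L] [Algebra L F] [IsScalarTower k L F] {P : Place k F}
    {P' : Place k L} {e : ℕ} (he : 0 < e) (hP : ∀ x : L, P.ord (algebraMap L F x) = e * P'.ord x)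
    {a : ℕ} {u : Fin a → L} (hu : Ri P' u) (hmax : ∀ v : Fin (a + 1) → L, ¬ Ri P' v)
    (x : L) (hx : P'.Reg x) :
    IsAlgebraic (Algebra.adjoin k (Set.range fun i => P.red (algebraMap L F (u i))))
      (P.red (algebraMap L F x)) := by
  by_contra h
  have hreg : ∀ x : L, P'.Reg x → P.Reg (algebraMap L F x) := by
    rintro x (h | h)
    · left
      rw [h, map_zero]
    · right
      rw [hP]
      positivity
  have h1 : Ri P (algebraMap L F ∘ u) := (bel_ri he hP).2 hu
  have h2 : AlgebraicIndependent k fun o : Option (Fin a) =>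
      o.elim (P.red (algebraMap L F x)) fun i => P.red (algebraMap L F (u i)) :=
    (h1.red.option_iff_transcendental _).2 h
  have h3 : Ri P (algebraMap L F ∘ fun o : Option (Fin a) => o.elim x u) := by
    apply ri_of_red
    · rintro (_ | i)
      · exact hreg x hx
      · exact hreg _ (hu.reg i)
    · convert h2 using 1
      funext o
      cases o <;> rfl
  have h4 : Ri P' (fun o : Option (Fin a) => o.elim x u) := (bel_ri he hP).1 h3
  exact hmax _ (h4.comp _ (finSuccEquiv a).injective)

theorem bel_union {R A : Type} [CommRing R] [CommRing A] [Algebra R A] {s t : Set A}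
    (h : Algebra.IsAlgebraic (Algebra.adjoin R (s ∪ t)) A) :
    Algebra.IsAlgebraic (Algebra.adjoin (Algebra.adjoin R s) t) A := by
  rw [Algebra.adjoin_union_eq_adjoin_adjoin] at h
  exact h

/-- (BEL) the place below a divisorial place is divisorial -/
theorem t_BEL : S_BEL := by
  intro k κ L F _ _ _ _ _ _ _ _ _ _ _ _ m w hm hw P s hs hx
  classical
  obtain ⟨P', e, he, hP⟩ := bel_place (k := k) P hx
  refine ⟨P', e, he, hP, ?_⟩
  -- the place over `k`
  obtain ⟨Q, hQ⟩ : ∃ Q : Place k F, Q = bel_res P := ⟨_, rfl⟩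
  have hQP : ∀ x : L, Q.ord (algebraMap L F x) = e * P'.ord x := by
    intro x
    rw [hQ]
    exact hP x
  -- bounded
  have hbd : ∀ a : ℕ, (∃ u : Fin a → L, Ri P' u) → a ≤ w := by
    rintro a ⟨u, hu⟩
    have h1 := hu.ind.cardinalMk_le_trdeg
    rw [hw, Cardinal.mk_fin] at h1
    exact_mod_cast h1
  have h0 : ∃ u : Fin 0 → L, Ri P' u := by
    refine ⟨Fin.elim0, ?_⟩
    intro G hG
    obtain ⟨c, rfl⟩ := MvPolynomial.C_surjective (Fin 0) G
    have hc : c ≠ 0 := fun h => hG (by rw [h, map_zero])
    rw [aeval_C]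
    exact ⟨fun h => hc ((algebraMap k L).injective (by rw [h, map_zero])), P'.ord_const hc⟩
  obtain ⟨a, ⟨u, hu⟩, hmax⟩ : ∃ a : ℕ, (∃ u : Fin a → L, Ri P' u) ∧
      ∀ v : Fin (a + 1) → L, ¬ Ri P' v := by
    by_contra hcon
    push Not at hcon
    have : ∀ n : ℕ, ∃ u : Fin n → L, Ri P' u := by
      intro n
      induction n with
      | zero => exact h0
      | succ n ih => exact hcon n ih
    have := hbd (w + 1) (this (w + 1))
    omega
  by_cases haw : w - 1 ≤ a
  · exact ⟨u ∘ Fin.castLE haw, hu.comp _ (Fin.castLE_injective haw)⟩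
  exfalso
  push Not at haw
  -- transcendence bases
  obtain ⟨ι, c, hc⟩ := exists_isTranscendenceBasis' k κ
  obtain ⟨t, ht0, ht⟩ := P.surj
  have hb : IsTranscendenceBasis k (Sum.elim (fun o : Option (Fin m) => o.elim t s)
      (algebraMap κ F ∘ c)) := hc.sumElim_comp (hs.basis hm ht)
  have hy : Ri Q (Sum.elim s (algebraMap κ F ∘ c)) := by
    rw [hQ]
    exact bel_ri_res P hs hc.1
  generalize hy' : (Sum.elim s (algebraMap κ F ∘ c)) = y at hy
  have hur : Ri Q (algebraMap L F ∘ u) := (bel_ri he hQP).2 hu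
  -- exchange
  have hI : (AlgebraicIndependent.matroid k Q.RF).Indep
      (Set.range fun i => Q.red ((algebraMap L F ∘ u) i)) := by
    rw [AlgebraicIndependent.matroid_indep_iff]
    exact hur.red.to_subtype_range
  have hY : (AlgebraicIndependent.matroid k Q.RF).Indep (Set.range fun i => Q.red (y i)) := by
    rw [AlgebraicIndependent.matroid_indep_iff]
    exact hy.red.to_subtype_range
  obtain ⟨B, hB, hIB, hBIY, hcard⟩ := bel_exch hI hY
  rw [AlgebraicIndependent.matroid_indep_iff] at hB
  obtain ⟨J, hJ⟩ : ∃ J : Set (Fin m ⊕ ι), J = {j | Q.red (y j) ∈ B \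
      (Set.range fun i => Q.red ((algebraMap L F ∘ u) i))} := ⟨_, rfl⟩
  have hJm : ∀ j, j ∈ J ↔ Q.red (y j) ∈ B \
      (Set.range fun i => Q.red ((algebraMap L F ∘ u) i)) := by
    intro j
    rw [hJ]
    exact Iff.rfl
  -- independence of the residues
  have hind : AlgebraicIndependent k (Sum.elim (fun j : J => Q.red (y j))
      (fun i => Q.red ((algebraMap L F ∘ u) i))) := by
    let f : J ⊕ Fin a → B := Sum.elim (fun j => ⟨Q.red (y j), ((hJm _).1 j.2).1⟩) (fun i => ⟨Q.red ((algebraMap L F ∘ u) i), hIB ⟨i, rfl⟩⟩)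
    have hf : Function.Injective f := by
      rintro (j | i) (j' | i') h
      · have h1 : Q.red (y j) = Q.red (y j') := congrArg Subtype.val h
        rw [Subtype.ext (hy.red.injective h1)]
      · exfalso
        have h1 : Q.red (y j) = Q.red ((algebraMap L F ∘ u) i') := congrArg Subtype.val h
        exact ((hJm _).1 j.2).2 ⟨i', h1.symm⟩
      · exfalso
        have h1 : Q.red ((algebraMap L F ∘ u) i) = Q.red (y j') := congrArg Subtype.val h
        exact ((hJm _).1 j'.2).2 ⟨i, h1⟩
      · have h1 : Q.red ((algebraMap L F ∘ u) i) = Q.red ((algebraMap L F ∘ u) i') :=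
          congrArg Subtype.val h
        rw [hur.red.injective h1]
    have h1 := AlgebraicIndependent.comp hB f hf
    convert h1 using 1
    funext x
    rcases x with j | i <;> rfl
  -- independence over `L`
  have hz : AlgebraicIndependent L fun j : J => y j := by
    have h1 := (AlgebraicIndependent.sumElim_iff.1 hind).2
    have h2 := h1.subalgebraAlgebraicClosure
    refine bel_lift he hQP ((Subalgebra.algebraicClosure (Algebra.adjoin k (Set.range fun i =>
      Q.red ((algebraMap L F ∘ u) i))) Q.RF).restrictScalars k) ?_ (fun j => hy.reg _) h2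
    intro x hx
    exact bel_max he hQP hu hmax x hx
  obtain ⟨ι', x, hx⟩ := exists_isTranscendenceBasis' k L
  have h5 : AlgebraicIndependent k (Sum.elim (algebraMap L F ∘ x) (fun j : J => y j)) := by
    have h6 := (hx.1.sumElim_comp hz).comp Sum.swap
      (Function.LeftInverse.injective (g := Sum.swap) fun x => Sum.swap_swap x)
    convert h6 using 1
    funext x
    rcases x with i | j <;> rfl
  have h6 := (AlgebraicIndependent.sumElim_iff.1 h5).2.cardinalMk_le_trdeg
  rw [hx.cardinalMk_eq_trdeg, hw] at h6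
  -- the rest of the transcendence basis
  have hW : Algebra.IsAlgebraic (Algebra.adjoin (Algebra.adjoin k (Set.range fun j : J => y j))
      (insert t (y '' Jᶜ))) F := by
    apply bel_union
    have h7 : (Set.range fun j : J => y j) ∪ insert t (y '' Jᶜ) =
        Set.range (Sum.elim (fun o : Option (Fin m) => o.elim t s) (algebraMap κ F ∘ c)) := by
      have h8 : (Set.range fun j : J => y j) = y '' J := (Set.image_eq_range y J).symm
      rw [h8, Set.union_insert, ← Set.image_union, Set.union_compl_self, Set.image_univ, ← hy',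
        Set.Sum.elim_range, Set.Sum.elim_range]
      ext z
      simp only [Set.mem_insert_iff, Set.mem_union, Set.mem_range, Option.exists]
      constructor
      · rintro (rfl | ⟨i, rfl⟩ | ⟨i, rfl⟩)
        · exact Or.inl (Or.inl rfl)
        · exact Or.inl (Or.inr ⟨i, rfl⟩)
        · exact Or.inr ⟨i, rfl⟩
      · rintro ((h | ⟨i, rfl⟩) | ⟨i, rfl⟩)
        · exact Or.inl h.symm
        · exact Or.inr (Or.inl ⟨i, rfl⟩)
        · exact Or.inr (Or.inr ⟨i, rfl⟩)
    rw [h7]
    exact hb.isAlgebraic
  have h7 := Algebra.IsAlgebraic.trdeg_le_cardinalMk (Algebra.adjoin k (Set.range fun j : J => y j))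
    (insert t (y '' Jᶜ))
  have h8 : (insert t (y '' Jᶜ)).encard ≤ (a + 1 : ℕ) := by
    have h9 : Jᶜ.encard ≤ a := by
      have h10 : ((fun j => Q.red (y j)) '' Jᶜ).encard = Jᶜ.encard :=
        hy.red.injective.encard_image _
      rw [← h10]
      refine (Set.encard_le_encard ?_).trans (hcard.trans ?_)
      · rintro _ ⟨j, hj, rfl⟩
        exact ⟨⟨j, rfl⟩, fun h => hj ((hJm j).2 h)⟩
      · rw [← Set.image_univ]
        refine (Set.encard_image_le _ _).trans ?_
        rw [Set.encard_univ, ENat.card_eq_coe_fintype_card, Fintype.card_fin]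
    refine (Set.encard_insert_le _ _).trans ?_
    push_cast
    gcongr
    exact (Set.encard_image_le _ _).trans h9
  obtain ⟨hfin, n₀, hn1, hn2⟩ := Set.encard_le_coe_iff.1 h8
  have h9 := h6.trans h7
  rw [← Set.cast_ncard hfin, Set.ncard_def, hn1, ENat.toNat_natCast] at h9
  have h10 : w ≤ n₀ := by exact_mod_cast h9
  omega

end Pool.Agent.N131.MV
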