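import Pool.Agent.N131.MV.Stm

/-!
Frames of derivations (helper749).
-/

set_option autoImplicit false
set_option linter.unusedSectionVars false

namespace Pool.Agent.N131.MV

open FF MvPolynomial Pool.Agent.W603.LV
open Pool.Agent.W602.GT (exists_der der_ext alg_of_basis)

section kaehler

open scoped TensorProduct

/-- differentials are combinations of the differentials of a transcendence basis -/
theorem hor_span {k F : Type} [Field k] [Field F] [Algebra k F] [CharZero k] {ι : Type}
    (t : ι → F) (ht : IsTranscendenceBasis k t) (f : F) :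
    KaehlerDifferential.D k F f ∈
      Submodule.span F (Set.range fun i => KaehlerDifferential.D k F (t i)) := by
  have hinj : Function.Injective (aeval t : MvPolynomial ι k →ₐ[k] F) := ht.1
  have halg := alg_of_basis t ht
  let _ : Algebra (MvPolynomial ι k) F :=
    ((aeval t : MvPolynomial ι k →ₐ[k] F) : MvPolynomial ι k →+* F).toAlgebra
  have hst : IsScalarTower k (MvPolynomial ι k) F := IsScalarTower.of_algebraMap_eq' (by
    ext c
    simp [RingHom.algebraMap_toAlgebra])
  have hfs : FaithfulSMul (MvPolynomial ι k) F :=
    (faithfulSMul_iff_algebraMap_injective _ _).2 hinj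
  let _ : Algebra (FractionRing (MvPolynomial ι k)) F :=
    FractionRing.liftAlgebra (MvPolynomial ι k) F
  have hst2 : IsScalarTower (MvPolynomial ι k) (FractionRing (MvPolynomial ι k)) F := inferInstance
  have halg2 : Algebra.IsAlgebraic (FractionRing (MvPolynomial ι k)) F :=
    (IsFractionRing.comap_isAlgebraic_iff (A := MvPolynomial ι k)
      (K := FractionRing (MvPolynomial ι k)) (C := F)).1 halg
  have hchar : CharZero (FractionRing (MvPolynomial ι k)) := inferInstance
  have hsep : Algebra.IsSeparable (FractionRing (MvPolynomial ι k)) F := inferInstance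
  have h1 : Algebra.FormallyEtale (FractionRing (MvPolynomial ι k)) F :=
    Algebra.FormallyEtale.of_isSeparable _ _
  have h2 : Algebra.FormallyEtale (MvPolynomial ι k) (FractionRing (MvPolynomial ι k)) :=
    Algebra.FormallyEtale.of_isLocalization (nonZeroDivisors (MvPolynomial ι k))
  have h3 : Algebra.FormallyEtale (MvPolynomial ι k) F :=
    Algebra.FormallyEtale.comp (MvPolynomial ι k) (FractionRing (MvPolynomial ι k)) F
  let e := KaehlerDifferential.tensorKaehlerEquivOfFormallyEtale k (MvPolynomial ι k) F
  have hmap : ∀ ω : Ω[MvPolynomial ι k⁄k],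
      KaehlerDifferential.map k k (MvPolynomial ι k) F ω ∈
        Submodule.span F (Set.range fun i => KaehlerDifferential.D k F (t i)) := by
    intro ω
    have hω := (KaehlerDifferential.mvPolynomialBasis k ι).mem_span ω
    induction hω using Submodule.span_induction with
    | mem y hy =>
      obtain ⟨i, rfl⟩ := hy
      rw [KaehlerDifferential.mvPolynomialBasis_apply, KaehlerDifferential.map_D]
      refine Submodule.subset_span ⟨i, ?_⟩
      have h5 : t i = algebraMap (MvPolynomial ι k) F (X i) := by
        simp [RingHom.algebraMap_toAlgebra]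
      exact congrArg (KaehlerDifferential.D k F) h5
    | zero => rw [map_zero]; exact Submodule.zero_mem _
    | add y z _ _ hy hz => rw [map_add]; exact Submodule.add_mem _ hy hz
    | smul a y _ hy =>
      rw [map_smul, ← algebraMap_smul F a]
      exact Submodule.smul_mem _ _ hy
  have hall : ∀ z : F ⊗[MvPolynomial ι k] Ω[MvPolynomial ι k⁄k],
      e z ∈ Submodule.span F (Set.range fun i => KaehlerDifferential.D k F (t i)) := by
    intro z
    induction z with
    | zero => rw [map_zero]; exact Submodule.zero_mem _
    | add y z hy hz => rw [map_add]; exact Submodule.add_mem _ hy hz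
    | tmul a ω =>
      have h6 : e (a ⊗ₜ ω) = a • KaehlerDifferential.map k k (MvPolynomial ι k) F ω := by
        simp [e]
      rw [h6]
      exact Submodule.smul_mem _ _ (hmap ω)
  have h7 := hall (e.symm (KaehlerDifferential.D k F f))
  rwa [e.apply_symm_apply] at h7

end kaehler

/-- the value of a derivation is a combination of the values on a transcendence basis -/
theorem hor_der {k F : Type} [Field k] [Field F] [Algebra k F] [CharZero k] {ι : Type}
    (t : ι → F) (ht : IsTranscendenceBasis k t) (f : F) :
    ∃ a : ι →₀ F, ∀ Δ : Derivation k F F, Δ f = ∑ i ∈ a.support, a i * Δ (t i) := by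
  have h1 := hor_span t ht f
  rw [Finsupp.mem_span_range_iff_exists_finsupp] at h1
  obtain ⟨a, ha⟩ := h1
  refine ⟨a, fun Δ => ?_⟩
  have h2 : Δ.liftKaehlerDifferential (KaehlerDifferential.D k F f) = Δ f :=
    Δ.liftKaehlerDifferential_comp_D f
  rw [← h2, ← ha, Finsupp.sum, map_sum]
  refine Finset.sum_congr rfl fun i _ => ?_
  rw [map_smul, smul_eq_mul, Δ.liftKaehlerDifferential_comp_D]

/-- the row of a derivation -/
def horR {k F : Type} [Field k] [Field F] [Algebra k F] {w : ℕ} (x : Fin w → F) :
    Derivation k F F →ₗ[F] (Fin w → F) where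
  toFun Δ := fun j => Δ (x j)
  map_add' _ _ := rfl
  map_smul' _ _ := rfl

/-- derivations with prescribed values at independent elements -/
theorem hor_ex {k F : Type} [Field k] [Field F] [Algebra k F] [CharZero k] {w : ℕ}
    (x : Fin w → F) (hx : AlgebraicIndependent k x) (v : Fin w → F) :
    ∃ Δ : Derivation k F F, ∀ j, Δ (x j) = v j := by
  classical
  have h1 : AlgebraicIndepOn k id (Set.range x) := hx.coe_range
  obtain ⟨T, hT1, hT2⟩ := exists_isTranscendenceBasis_superset h1
  have hinj : Function.Injective x := hx.injective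
  obtain ⟨Δ, hΔ⟩ := exists_der (fun y : T => (y : F)) hT2
    (fun y => if h : ∃ j, x j = y then v h.choose else 0)
  refine ⟨Δ, fun j => ?_⟩
  have hj : x j ∈ T := hT1 ⟨j, rfl⟩
  have h2 := hΔ ⟨x j, hj⟩
  have h3 : ∃ j', x j' = ((⟨x j, hj⟩ : T) : F) := ⟨j, rfl⟩
  rw [dif_pos h3] at h2
  have h4 : h3.choose = j := hinj h3.choose_spec
  rw [h4] at h2
  exact h2

/-- a derivation maps the constants to the constants -/
def HorC {k κ F : Type} [Field k] [Field κ] [Field F] [Algebra k F] [Algebra κ F]
    (Δ : Derivation k F F) : Prop := ∀ c : κ, ∃ c' : κ, Δ (algebraMap κ F c) = algebraMap κ F c'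

theorem hor_rows {k κ F : Type} [Field k] [Field κ] [Field F] [CharZero k]
    [Algebra k κ] [Algebra κ F] [Algebra k F] [IsScalarTower k κ F]
    (V : Set (Derivation κ F F)) (hV : Submodule.span F V = ⊤) {w : ℕ} (x : Fin w → F)
    (hx : AlgebraicIndependent k x) :
    Submodule.span F ((horR (k := κ) x) '' V ∪
      (horR (k := k) x) '' {Δ | HorC (κ := κ) Δ}) = ⊤ := by
  classical
  set W := Submodule.span F ((horR (k := κ) x) '' V ∪
      (horR (k := k) x) '' {Δ | HorC (κ := κ) Δ}) with hW
  have hchar : CharZero κ := charZero_of_injective_algebraMap (algebraMap k κ).injective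
  have hcharF : CharZero F := charZero_of_injective_algebraMap (algebraMap k F).injective
  obtain ⟨I, c, hc⟩ := exists_isTranscendenceBasis' k κ
  obtain ⟨J, z, hz⟩ := exists_isTranscendenceBasis' κ F
  have ht := hc.sumElim_comp hz
  set t : J ⊕ I → F := Sum.elim z (algebraMap κ F ∘ c) with htdef
  choose a ha using fun j => hor_der t ht (x j)
  have hE : ∀ i : J ⊕ I, ∃ E : Derivation k F F, (∀ i', E (t i') = if i' = i then 1 else 0) ∧
      horR x E ∈ W := by
    rintro (l | i)
    · obtain ⟨D, hD⟩ := exists_der z hz (fun l' => if l' = l then 1 else 0)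
      refine ⟨D.restrictScalars k, ?_, ?_⟩
      · rintro (l' | i')
        · show D (z l') = _
          rw [hD]
          simp
        · show D (algebraMap κ F (c i')) = _
          rw [D.map_algebraMap]
          simp
      · have h1 : horR (k := κ) x D ∈ Submodule.span F ((horR (k := κ) x) '' V) := by
          rw [Submodule.span_image, hV]
          exact ⟨D, Submodule.mem_top, rfl⟩
        exact Submodule.span_mono Set.subset_union_left h1
    · obtain ⟨E, hE⟩ := exists_der t ht (fun i' => if i' = Sum.inr i then 1 else 0)
      refine ⟨E, hE, Submodule.subset_span (Or.inr ⟨E, ?_, rfl⟩)⟩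
      obtain ⟨D, hD⟩ := exists_der c hc (fun i' => if i' = i then 1 else 0)
      let δ : Derivation k κ F :=
        E.compAlgebraMap κ - (Algebra.linearMap κ F).compDer D
      have hδ : δ = 0 := by
        refine der_kill (algebraMap κ F).injective δ (Set.range c) ?_ hc.isAlgebraic
        rintro _ ⟨i', rfl⟩
        show E (algebraMap κ F (c i')) - algebraMap κ F (D (c i')) = 0
        have h2 := hE (Sum.inr i')
        have h3 : t (Sum.inr i') = algebraMap κ F (c i') := rfl
        rw [h3] at h2
        rw [h2, hD]
        by_cases h : i' = i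
        · simp [h]
        · simp [h]
      intro y
      refine ⟨D y, ?_⟩
      have h4 := congrArg (fun d : Derivation k κ F => d y) hδ
      exact sub_eq_zero.1 h4
  choose E hE1 hE2 using hE
  have hEa : ∀ i j, E i (x j) = a j i := by
    intro i j
    rw [ha j (E i)]
    simp only [hE1, mul_ite, mul_one, mul_zero]
    rw [Finset.sum_ite_eq']
    split_ifs with h
    · rfl
    · exact (Finsupp.notMem_support_iff.1 h).symm
  have hall : ∀ Δ : Derivation k F F, horR x Δ ∈ W := by
    intro Δ
    have h1 : horR x Δ = ∑ i ∈ Finset.univ.biUnion fun j => (a j).support,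
        Δ (t i) • horR x (E i) := by
      funext j
      show Δ (x j) = _
      rw [Finset.sum_apply, ha j Δ]
      have h2 : ∀ i, (Δ (t i) • horR x (E i)) j = a j i * Δ (t i) := by
        intro i
        show Δ (t i) * E i (x j) = _
        rw [hEa, mul_comm]
      simp only [h2]
      refine Finset.sum_subset (Finset.subset_biUnion_of_mem (fun j => (a j).support)
        (Finset.mem_univ j)) fun i _ hi => ?_
      rw [Finsupp.notMem_support_iff.1 hi, zero_mul]
    rw [h1]
    exact Submodule.sum_mem _ fun i _ => Submodule.smul_mem _ _ (hE2 i)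
  rw [eq_top_iff]
  intro v _
  obtain ⟨Δ, hΔ⟩ := hor_ex x hx v
  have h5 : horR x Δ = v := funext hΔ
  rw [← h5]
  exact hall Δ

/-- changing rows by combinations of fixed rows does not change the determinant -/
theorem hor_det {F : Type} [Field F] {w : ℕ} (M N : Fin w → Fin w → F) (T : Set (Fin w))
    (h1 : ∀ a ∈ T, N a = M a) (h2 : ∀ a, a ∉ T → M a - N a ∈ Submodule.span F (M '' T)) :
    (Matrix.of N).det = (Matrix.of M).det := by
  classical
  have key : ∀ S : Finset (Fin w), (∀ a ∈ S, a ∉ T) →
      (Matrix.of fun a => if a ∈ S then N a else M a).det = (Matrix.of M).det := by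
    intro S
    induction S using Finset.induction_on with
    | empty => intro _; simp
    | insert a S haS ih =>
      intro hS
      have haT : a ∉ T := hS a (Finset.mem_insert_self a S)
      have hS' : ∀ b ∈ S, b ∉ T := fun b hb => hS b (Finset.mem_insert_of_mem hb)
      set Q : Matrix (Fin w) (Fin w) F := Matrix.of fun a => if a ∈ S then N a else M a with hQ
      have hQa : Q a = M a := by
        show (if a ∈ S then N a else M a) = M a
        rw [if_neg haS]
      have hQT : ∀ b ∈ T, Q b = M b := by
        intro b hb
        show (if b ∈ S then N b else M b) = M b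
        rw [if_neg fun hbS => hS' b hbS hb]
      have e1 : (Matrix.of fun b => if b ∈ insert a S then N b else M b)
          = Q.updateRow a (N a) := by
        ext b j
        by_cases hb : b = a
        · subst hb
          simp
        · rw [Matrix.updateRow_ne hb]
          simp [hb, hQ]
      have hzero : ∀ u ∈ Submodule.span F (M '' T), (Q.updateRow a u).det = 0 := by
        intro u hu
        induction hu using Submodule.span_induction with
        | mem y hy =>
          obtain ⟨b, hb, rfl⟩ := hy
          have hba : b ≠ a := fun h => haT (h ▸ hb)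
          rw [← hQT b hb]
          exact Matrix.det_updateRow_eq_zero hba
        | zero => exact Matrix.det_eq_zero_of_row_eq_zero a (by simp)
        | add y z _ _ hy hz => rw [Matrix.det_updateRow_add, hy, hz, add_zero]
        | smul r y _ hy => rw [Matrix.det_updateRow_smul, hy, mul_zero]
      have e2 : (Matrix.of M).det = (Q.updateRow a (N a)).det := by
        rw [← ih hS']
        have e3 : Q = Q.updateRow a (N a + (M a - N a)) := by
          rw [add_sub_cancel, ← hQa, Matrix.updateRow_eq_self]
        calc Q.det = (Q.updateRow a (N a + (M a - N a))).det := by rw [← e3]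
          _ = (Q.updateRow a (N a)).det + (Q.updateRow a (M a - N a)).det :=
              Matrix.det_updateRow_add _ _ _ _
          _ = (Q.updateRow a (N a)).det := by rw [hzero _ (h2 a haT), add_zero]
      rw [e1, e2]
  have h3 := key (Finset.univ.filter fun a => a ∉ T) (fun a ha => (Finset.mem_filter.1 ha).2)
  rw [← h3]
  congr 1
  ext a j
  by_cases h : a ∈ T
  · simp [h, h1 a h]
  · simp [h]

theorem hor_sum_apply {κ F : Type} [Field κ] [Field F] [Algebra κ F] {ι : Type}
    (S : Finset ι) (f : ι → Derivation κ F F) (z : F) :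
    (∑ o ∈ S, f o) z = ∑ o ∈ S, f o z := by
  classical
  induction S using Finset.induction_on with
  | empty => rfl
  | insert a S ha ih => rw [Finset.sum_insert ha, Finset.sum_insert ha, Derivation.add_apply, ih]

theorem t_HOR : S_HOR := by
  intro k κ F _ _ _ _ _ _ _ _ _ m hd V hV w x hx
  classical
  have hchar : CharZero κ := charZero_of_injective_algebraMap (algebraMap k κ).injective
  have hcharF : CharZero F := charZero_of_injective_algebraMap (algebraMap k F).injective
  set A : Set (Fin w → F) := (horR (k := κ) x) '' V with hA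
  set B : Set (Fin w → F) := (horR (k := k) x) '' {Δ | HorC (κ := κ) Δ} with hB
  have hAB : Submodule.span F (A ∪ B) = ⊤ := hor_rows V hV x hx
  obtain ⟨s0, hs0A, -, hAs0, hs0i⟩ := exists_linearIndepOn_id_extension (K := F)
    (linearIndependent_empty F (Fin w → F)) (Set.empty_subset A)
  obtain ⟨b, hbAB, hs0b, hABb, hbi⟩ := exists_linearIndepOn_id_extension (K := F) hs0i
    (hs0A.trans (Set.subset_union_left (t := B)))
  have hbtop : ⊤ ≤ Submodule.span F (Set.range (Subtype.val : b → (Fin w → F))) := by
    rw [Subtype.range_coe, ← hAB]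
    exact Submodule.span_le.2 hABb
  have hbi' : LinearIndependent F (Subtype.val : b → (Fin w → F)) := hbi
  let β : Module.Basis b F (Fin w → F) := Module.Basis.mk hbi' hbtop
  let e : Fin w ≃ b := (Pi.basisFun F (Fin w)).indexEquiv β
  set r : Fin w → (Fin w → F) := fun a => (e a : Fin w → F) with hr
  have hri : LinearIndependent F r := hbi'.comp e e.injective
  have hdet : (Matrix.of r).det ≠ 0 := by
    have h1 : LinearIndependent F (Matrix.of r).row := hri
    rw [Matrix.linearIndependent_rows_iff_isUnit, Matrix.isUnit_iff_isUnit_det] at h1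
    exact h1.ne_zero
  have hex : ∀ a : Fin w, ∃ Δ : Derivation k F F, horR x Δ = r a ∧
      ((∃ Δ₀ ∈ V, ∀ y, Δ y = Δ₀ y) ∨ (r a ∉ s0 ∧ HorC (κ := κ) Δ)) := by
    intro a
    by_cases h : r a ∈ A
    · obtain ⟨D, hD, hDr⟩ := h
      exact ⟨D.restrictScalars k, hDr, Or.inl ⟨D, hD, fun y => rfl⟩⟩
    · rcases hbAB (e a).2 with h1 | h1
      · exact absurd h1 h
      · obtain ⟨Δ, hΔ, hΔr⟩ := h1
        exact ⟨Δ, hΔr, Or.inr ⟨fun h2 => h (hs0A h2), hΔ⟩⟩
  choose Δ hΔr hΔ using hex
  have hmat : (Matrix.of fun a j => Δ a (x j)) = Matrix.of r := by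
    ext a j
    exact congrFun (hΔr a) j
  refine ⟨Δ, by rw [hmat]; exact hdet, fun P s hs => ?_⟩
  obtain ⟨t, ht0, ht⟩ := P.surj
  have hbas := hs.basis hd ht
  set y : Option (Fin m) → F := fun o => o.elim t s with hy
  choose D hD using fun o : Option (Fin m) =>
    exists_der y hbas (fun o' => if o' = o then 1 else 0)
  set δ : Fin w → Derivation κ F F := fun a => ∑ o, Δ a (y o) • D o with hδ
  have hδy : ∀ a o, δ a (y o) = Δ a (y o) := by
    intro a o
    simp only [hδ]
    rw [hor_sum_apply]
    have h1 : ∀ o', (Δ a (y o') • D o') (y o) = if o = o' then Δ a (y o') else 0 := by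
      intro o'
      rw [Derivation.smul_apply, hD, smul_eq_mul]
      split_ifs <;> simp
    rw [Finset.sum_congr rfl fun o' _ => h1 o', Finset.sum_ite_eq]
    simp
  have hδA : ∀ a, horR (k := κ) x (δ a) ∈ Submodule.span F A := by
    intro a
    rw [hA, Submodule.span_image, hV]
    exact ⟨δ a, Submodule.mem_top, rfl⟩
  refine ⟨fun a => if (∃ Δ₀ ∈ V, ∀ y, Δ a y = Δ₀ y) then Δ a
    else Δ a - (δ a).restrictScalars k, ?_, fun a => ?_⟩
  · rw [hmat]
    have h0 := hor_det r (fun a j => (if (∃ Δ₀ ∈ V, ∀ y, Δ a y = Δ₀ y) then Δ a
      else Δ a - (δ a).restrictScalars k : Derivation k F F) (x j)) {a | r a ∈ s0} ?_ ?_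
    · exact h0
    · intro a ha
      have h1 : ∃ Δ₀ ∈ V, ∀ y, Δ a y = Δ₀ y := by
        rcases hΔ a with h | h
        · exact h
        · exact absurd ha h.1
      funext j
      rw [if_pos h1]
      exact congrFun (hΔr a) j
    · intro a _
      by_cases h1 : ∃ Δ₀ ∈ V, ∀ y, Δ a y = Δ₀ y
      · have h2 : (r a - fun j => (if (∃ Δ₀ ∈ V, ∀ y, Δ a y = Δ₀ y) then Δ a
            else Δ a - (δ a).restrictScalars k : Derivation k F F) (x j)) = 0 := by
          funext j
          rw [Pi.sub_apply, if_pos h1]
          have := congrFun (hΔr a) j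
          rw [← this]
          exact sub_self _
        rw [h2]
        exact Submodule.zero_mem _
      · have h2 : (r a - fun j => (if (∃ Δ₀ ∈ V, ∀ y, Δ a y = Δ₀ y) then Δ a
            else Δ a - (δ a).restrictScalars k : Derivation k F F) (x j))
            = horR (k := κ) x (δ a) := by
          funext j
          rw [Pi.sub_apply, if_neg h1]
          have := congrFun (hΔr a) j
          rw [← this]
          show Δ a (x j) - (Δ a (x j) - δ a (x j)) = δ a (x j)
          ring
        rw [h2]
        have h3 : Submodule.span F A ≤ Submodule.span F (r '' {a | r a ∈ s0}) := by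
          refine (Submodule.span_le.2 hAs0).trans (Submodule.span_mono ?_)
          intro v hv
          refine ⟨e.symm ⟨v, hs0b hv⟩, ?_, ?_⟩
          · show (e (e.symm ⟨v, hs0b hv⟩) : Fin w → F) ∈ s0
            rw [e.apply_symm_apply]
            exact hv
          · show (e (e.symm ⟨v, hs0b hv⟩) : Fin w → F) = v
            rw [e.apply_symm_apply]
        exact h3 (hδA a)
  · by_cases h1 : ∃ Δ₀ ∈ V, ∀ y, Δ a y = Δ₀ y
    · left
      beta_reduce
      rw [if_pos h1]
      exact h1
    · right
      beta_reduce
      rw [if_neg h1]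
      have hH : HorC (κ := κ) (Δ a) := by
        rcases hΔ a with h | h
        · exact absurd h h1
        · exact h.2
      set Θ : Derivation k F F := Δ a - (δ a).restrictScalars k with hΘ
      have hΘy : ∀ o, Θ (y o) = 0 := by
        intro o
        show Δ a (y o) - δ a (y o) = 0
        rw [hδy, sub_self]
      have hκ : ∀ c : κ, P.Reg (Θ (algebraMap κ F c)) := by
        intro c
        obtain ⟨c', hc'⟩ := hH c
        have h2 : Θ (algebraMap κ F c) = algebraMap κ F c' := by
          show Δ a (algebraMap κ F c) - δ a (algebraMap κ F c) = _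
          rw [hc', (δ a).map_algebraMap, sub_zero]
        rw [h2]
        exact P.reg_const c'
      have hss : ∀ i, P.Reg (Θ (s i)) := by
        intro i
        have h2 := hΘy (some i)
        have h3 : y (some i) = s i := rfl
        rw [h3] at h2
        rw [h2]
        exact P.reg_zero
      have htt : Θ t = 0 := hΘy none
      constructor
      · exact der_regular hd hs hκ hss ht (by rw [htt]; exact P.reg_zero)
      · exact der_log hd hs hκ hss ht0 (by rw [ht]; exact one_ne_zero)
          (by rw [htt, zero_div]; exact P.reg_zero)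

end Pool.Agent.N131.MV
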