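import Mathlib
import Pool.Agent.N131.MV.Stm

/-!
The Jacobian (JAC).
-/

set_option autoImplicit false
set_option linter.unusedSectionVars false

namespace Pool.Agent.N131.MV

open FF MvPolynomial Pool.Agent.W603.LV
open Pool.Agent.W602.GT (Divisorial IsPluri RegAt LogAt DerReg DerLog)

section jac

theorem jac_sum {R A M ι : Type} [CommRing R] [CommRing A] [AddCommGroup M] [Algebra R A]
    [Module A M] [Module R M] (s : Finset ι) (f : ι → Derivation R A M) (x : A) :
    (∑ i ∈ s, f i) x = ∑ i ∈ s, f i x := by
  classical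
  induction s using Finset.induction_on with
  | empty => simp
  | insert i s hi ih => rw [Finset.sum_insert hi, Finset.sum_insert hi, Derivation.add_apply, ih]

variable {k κ L F : Type} [Field k] [Field κ] [Field L] [Field F] [CharZero k]
  [Algebra κ F] [Algebra k F] [Algebra k L] [Algebra L F] [IsScalarTower k L F]

/-- orders of elements below -/
theorem jac_ge {P : Place κ F} {P' : Place k L} {e : ℕ}
    (he : ∀ x : L, P.ord (algebraMap L F x) = e * P'.ord x) {n : ℤ} {x : L} (hx : Ge P' n x) :
    Ge P (e * n) (algebraMap L F x) := by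
  rcases hx with rfl | hx
  · left; exact map_zero _
  · right
    rw [he]
    exact mul_le_mul_of_nonneg_left hx (Int.natCast_nonneg _)

/-- the expansion of a derivation in a dual basis -/
theorem jac_exp {w : ℕ} {x : Fin w → L} (hx : IsTranscendenceBasis k x)
    (E : Fin w → Derivation k L L) (hE : ∀ i j, E i (x j) = if i = j then 1 else 0)
    (D : Derivation k L L) : D = ∑ j, D (x j) • E j := by
  apply Pool.Agent.W602.GT.der_ext x hx
  intro i
  rw [jac_sum, Finset.sum_eq_single i]
  · rw [Derivation.smul_apply, hE, if_pos rfl, smul_eq_mul, mul_one]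
  · intro j _ hj
    rw [Derivation.smul_apply, hE, if_neg hj, smul_zero]
  · intro h
    exact absurd (Finset.mem_univ _) h

/-- the chain rule -/
theorem jac_chain {w : ℕ} {b : Fin w → L} (hb : IsTranscendenceBasis k b)
    (B : Fin w → Derivation k L L) (hB : ∀ i j, B i (b j) = if i = j then 1 else 0)
    (Δ : Derivation k F F) (y : L) :
    Δ (algebraMap L F y) = ∑ i, Δ (algebraMap L F (b i)) * algebraMap L F (B i y) := by
  have hchar : CharZero L := charZero_of_injective_algebraMap (algebraMap k L).injective
  have hlin : ∀ i, ∀ (a c : L), algebraMap L F (B i (a * c)) =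
      algebraMap L F a * algebraMap L F (B i c) + algebraMap L F c * algebraMap L F (B i a) := by
    intro i a c
    rw [(B i).leibniz, smul_eq_mul, smul_eq_mul, map_add, map_mul, map_mul]
  let δ : Derivation k L F := Derivation.mk'
    { toFun := fun y => Δ (algebraMap L F y) -
        ∑ i, Δ (algebraMap L F (b i)) * algebraMap L F (B i y)
      map_add' := fun a c => by
        simp only [map_add, mul_add, Finset.sum_add_distrib]
        ring
      map_smul' := fun r a => by
        rw [RingHom.id_apply, Algebra.smul_def, smul_sub, Finset.smul_sum]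
        congr 1
        · rw [map_mul, ← IsScalarTower.algebraMap_apply, Δ.leibniz, Δ.map_algebraMap, smul_zero,
            add_zero, algebraMap_smul]
        · refine Finset.sum_congr rfl fun i _ => ?_
          rw [hlin, (B i).map_algebraMap, map_zero, mul_zero, add_zero,
            ← IsScalarTower.algebraMap_apply, Algebra.smul_def]
          ring }
    (fun a c => by
      change Δ (algebraMap L F (a * c)) -
        ∑ i, Δ (algebraMap L F (b i)) * algebraMap L F (B i (a * c)) = _
      simp only [hlin, mul_add, Finset.sum_add_distrib]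
      rw [map_mul, Δ.leibniz, smul_eq_mul, smul_eq_mul]
      change _ = a • (Δ (algebraMap L F c) -
        ∑ i, Δ (algebraMap L F (b i)) * algebraMap L F (B i c)) +
        c • (Δ (algebraMap L F a) - ∑ i, Δ (algebraMap L F (b i)) * algebraMap L F (B i a))
      rw [smul_sub, smul_sub, Finset.smul_sum, Finset.smul_sum]
      simp only [Algebra.smul_def]
      have h1 : ∀ (a c : L), ∑ i, Δ (algebraMap L F (b i)) *
          (algebraMap L F a * algebraMap L F (B i c)) =
          ∑ i, algebraMap L F a * (Δ (algebraMap L F (b i)) * algebraMap L F (B i c)) :=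
        fun a c => Finset.sum_congr rfl fun i _ => by ring
      rw [h1, h1]
      ring)
  have hδ0 : δ = 0 := by
    refine der_kill (algebraMap L F).injective δ (Set.range b) ?_ hb.isAlgebraic
    rintro _ ⟨j, rfl⟩
    change Δ (algebraMap L F (b j)) -
      ∑ i, Δ (algebraMap L F (b i)) * algebraMap L F (B i (b j)) = 0
    rw [Finset.sum_eq_single j]
    · rw [hB, if_pos rfl, map_one, mul_one, sub_self]
    · intro i _ hi
      rw [hB, if_neg hi, map_zero, mul_zero]
    · intro h
      exact absurd (Finset.mem_univ _) h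
  have h2 : δ y = 0 := by rw [hδ0]; rfl
  exact sub_eq_zero.1 h2

/-- a regular derivation lowers orders at most by one -/
theorem jac_reg {P : Place κ F} {Δ : Derivation k F F} (h : RegP P Δ) {x : F} {n : ℤ}
    (hx : x ≠ 0) (hn : P.ord x = n) : Ge P (n - 1) (Δ x) := by
  obtain ⟨τ, hτ0, hτ⟩ := P.surj
  obtain ⟨u, hu, hu0, hxu⟩ := Pool.Agent.W602.GT.unit_mul P hτ hx
  rw [hn] at hxu
  have h1 : P.ord (τ ^ n) = n := by rw [P.ord_zpow, hτ, mul_one]
  have h2 : Ge P 0 (Δ u) := h u (Or.inr hu0.ge)
  have h3 : Ge P 0 (Δ τ) := h τ (Or.inr (by rw [hτ]; exact zero_le_one))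
  have h4 : Ge P n (τ ^ n) := Or.inr h1.ge
  have h5 : Ge P 0 u := Or.inr hu0.ge
  rw [hxu, Δ.leibniz, smul_eq_mul, smul_eq_mul, Pool.Agent.W602.GT.der_zpow Δ hτ0]
  have h6 : Ge P (-1) (Δ τ / τ) := by
    have := Pool.Agent.W602.GT.ge_div hτ0 h3
    rwa [hτ] at this
  have h7 := h5.mul (((Ge.intCast (P := P) n).mul h4).mul h6)
  have h8 := h4.mul h2
  exact (h7.mono (by omega)).add (h8.mono (by omega))

theorem jac_log {P : Place κ F} {Δ : Derivation k F F} (h : LogP P Δ) {x : F} {n : ℤ}
    (hx : Ge P n x) : Ge P n (Δ x) := by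
  by_cases hx0 : x = 0
  · rw [hx0, map_zero]; exact Ge.zero
  have h1 := hx.mul (show Ge P 0 (Δ x / x) from h x)
  rwa [mul_div_cancel₀ _ hx0, add_zero] at h1

theorem jac_sum_one {n : ℕ} (e : ℤ) (σ : Equiv.Perm (Fin (n + 1))) :
    e ≤ ∑ i : Fin (n + 1), (fun (_ : Fin (n + 1)) (i : Fin (n + 1)) => if i = 0 then e else 0)
      (σ i) i := by
  simp

end jac

theorem t_JAC : S_JAC := by
  intro k κ L F _ _ _ _ _ _ _ _ _ _ _ w hw hd P P' e he hord hdiv N ω hω x hx E hE Δ
  obtain ⟨n, rfl⟩ : ∃ n, w = n + 1 := ⟨w - 1, by omega⟩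
  obtain ⟨u, hu⟩ := hdiv
  change Fin n → L at u
  have hri : Ri P' u := hu
  obtain ⟨t, ht0, ht⟩ := P'.surj
  have hb0 := hri.basis hd ht
  -- the basis
  let b : Fin (n + 1) → L := Fin.cons t u
  have hb : IsTranscendenceBasis k b := by
    have h1 : b = (fun o : Option (Fin n) => o.elim t u) ∘ (finSuccEquiv n) := by
      funext i
      refine Fin.cases ?_ (fun j => ?_) i
      · simp [b]
      · simp [b]
    rw [h1]
    exact (isTranscendenceBasis_equiv (finSuccEquiv n)).2 hb0
  choose B hB' using fun i : Fin (n + 1) => Pool.Agent.W602.GT.exists_der b hb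
    (fun j => if i = j then (1 : L) else 0)
  have hB : ∀ i j, B i (b j) = if i = j then 1 else 0 := hB'
  have hBt : ∀ i, B i t = if i = 0 then 1 else 0 := fun i => hB i 0
  have hBu : ∀ i j, B i (u j) = if i = Fin.succ j then 1 else 0 := fun i j => hB i (Fin.succ j)
  -- the matrices
  let A : Matrix (Fin (n + 1)) (Fin (n + 1)) L := Matrix.of fun i j => B i (x j)
  let M : Matrix (Fin (n + 1)) (Fin (n + 1)) F :=
    Matrix.of fun a i => Δ a (algebraMap L F (b i))
  have hωB : ω B = A.det ^ N * ω E := by
    rw [← hω A E]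
    congr 1
    funext i
    exact jac_exp hx E hE (B i)
  have hdet : (Matrix.of fun a j => Δ a (algebraMap L F (x j))).det =
      M.det * algebraMap L F A.det := by
    rw [RingHom.map_det, ← Matrix.det_mul]
    congr 1
    ext a j
    rw [Matrix.mul_apply]
    exact jac_chain hb B hB (Δ a) (x j)
  have hg : algebraMap L F (ω E) * (Matrix.of fun a j => Δ a (algebraMap L F (x j))).det ^ N =
      algebraMap L F (ω B) * M.det ^ N := by
    rw [hdet, hωB, map_mul, map_pow, mul_pow]
    ring
  rw [hg]
  -- regularity
  have hbreg : ∀ i, Ge P' 0 (b i) := by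
    intro i
    refine Fin.cases ?_ (fun j => ?_) i
    · exact Or.inr (by change 0 ≤ P'.ord t; rw [ht]; exact zero_le_one)
    · exact hri.reg j
  have hbregF : ∀ i, Ge P 0 (algebraMap L F (b i)) := by
    intro i
    have := jac_ge hord (hbreg i)
    rwa [mul_zero] at this
  have hcst : ∀ (D : Derivation k L L) (c : k), P'.Reg (D (algebraMap k L c)) := by
    intro D c
    rw [D.map_algebraMap]
    exact P'.reg_zero
  have hBreg : ∀ i, DerReg P' (B i) := by
    intro i
    refine der_regular hd hri (hcst _) (fun j => ?_) ht ?_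
    · rw [hBu]
      split_ifs
      · exact P'.reg_one
      · exact P'.reg_zero
    · rw [hBt]
      split_ifs
      · exact P'.reg_one
      · exact P'.reg_zero
  -- the logarithmic basis
  let c : Fin (n + 1) → L := fun i => if i = 0 then t else 1
  have hc0 : c 0 = t := if_pos rfl
  have hClog : ∀ i, DerLog P' (c i • B i) := by
    intro i
    refine der_log hd hri (hcst _) (fun j => ?_) ht0 (by rw [ht]; exact one_ne_zero) ?_
    · rw [Derivation.smul_apply, hBu, smul_eq_mul]
      split_ifs with h
      · have h1 : c i = 1 := if_neg (by rw [h]; exact Fin.succ_ne_zero j)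
        rw [h1, one_mul]
        exact P'.reg_one
      · rw [mul_zero]
        exact P'.reg_zero
    · rw [Derivation.smul_apply, hBt, smul_eq_mul]
      split_ifs with h
      · rw [h, hc0, mul_one, div_self ht0]
        exact P'.reg_one
      · rw [mul_zero, zero_div]
        exact P'.reg_zero
  have hlogω : LogAt P' ω → Ge P (-(e * N)) (algebraMap L F (ω B)) := by
    intro h
    have h1 := h (fun i => c i • B i) hClog
    have h2 : (fun i => c i • B i) = fun i => ∑ j, Matrix.diagonal c i j • B j := by
      funext i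
      rw [Finset.sum_eq_single i]
      · rw [Matrix.diagonal_apply_eq]
      · intro j _ hj
        rw [Matrix.diagonal_apply_ne _ hj.symm, zero_smul]
      · intro h
        exact absurd (Finset.mem_univ _) h
    rw [h2, hω, Matrix.det_diagonal] at h1
    have h3 : ∏ i, c i = t := by
      rw [Finset.prod_ite_eq' Finset.univ (0 : Fin (n + 1)) (fun _ => t)]
      exact if_pos (Finset.mem_univ _)
    rw [h3] at h1
    have h4 : Ge P' (-N) (ω B) := by
      have h5 : P'.ord (t ^ N) = N := by rw [P'.ord_pow, ht, mul_one]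
      apply Ge.of_mul' (pow_ne_zero N ht0) h5
      rw [neg_add_cancel]
      exact h1
    have h6 := jac_ge hord h4
    rwa [mul_neg] at h6
  have hts : P.ord (algebraMap L F t) = e := by rw [hord, ht, mul_one]
  have hts0 : algebraMap L F t ≠ 0 := by rwa [Ne, map_eq_zero]
  refine ⟨fun h1 h2 => ?_, fun h1 h2 => ?_, fun h1 h2 => ?_⟩
  · have h3 : Ge P 0 (algebraMap L F (ω B)) := by
      have h4 := jac_ge hord (show Ge P' 0 (ω B) from h2 B hBreg)
      rwa [mul_zero] at h4
    have h4 : Ge P 0 M.det := by
      refine ge_det P M 0 (fun _ _ => 0) (fun a i => h1 a _ (hbregF i)) (fun σ => by simp)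
    have h5 := h3.mul (h4.pow N)
    rwa [mul_zero, add_zero] at h5
  · have h3 := hlogω h2
    have h4 : Ge P ((e : ℤ) - 1) M.det := by
      refine ge_det P M ((e : ℤ) - 1) (fun _ i => if i = 0 then (e : ℤ) - 1 else 0)
        (fun a i => ?_) (fun σ => jac_sum_one _ σ)
      by_cases hi : i = 0
      · subst hi
        exact jac_reg (h1 a) hts0 hts
      · simp only [hi, if_false]
        exact h1 a _ (hbregF i)
    have h5 := h3.mul (h4.pow N)
    refine h5.mono (le_of_eq ?_)
    ring
  · have h3 := hlogω h2
    have h4 : Ge P (e : ℤ) M.det := by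
      refine ge_det P M (e : ℤ) (fun _ i => if i = 0 then (e : ℤ) else 0)
        (fun a i => ?_) (fun σ => jac_sum_one _ σ)
      by_cases hi : i = 0
      · subst hi
        exact jac_log (h1 a) (Or.inr hts.ge)
      · simp only [hi, if_false]
        exact jac_log (h1 a) (hbregF i)
    have h5 := h3.mul (h4.pow N)
    refine h5.mono (le_of_eq ?_)
    ring

end Pool.Agent.N131.MV
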