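import Pool.Agent.N131.MV.Stm

/-!
(BAL) integral equations (helper700).
-/

set_option autoImplicit false

namespace Pool.Agent.N131.MV

open FF MvPolynomial Pool.Agent.W603.LV

/-! ### Iterated derivatives and prime ideals -/

section iter

variable {R : Type} [CommRing R] (δ : Derivation ℤ R R) (p : Ideal R)

theorem bal_zero (N : ℕ) : ∀ h g : R, (∀ c ≤ N, δ^[c] g ∈ p) → δ^[N] (h * g) ∈ p := by
  induction N with
  | zero => intro h g hg; exact p.mul_mem_left _ (hg 0 le_rfl)
  | succ N ih =>
    intro h g hg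
    rw [Function.iterate_succ_apply, δ.leibniz, smul_eq_mul, smul_eq_mul, iter_add]
    refine p.add_mem (ih h (δ g) fun c hc => ?_) ?_
    · have := hg (c + 1) (by omega)
      rwa [Function.iterate_succ_apply] at this
    · rw [mul_comm]
      exact ih (δ h) g fun c hc => hg c (by omega)

theorem bal_key (N : ℕ) : ∀ i j : ℕ, i + j = N → ∀ f g : R, (∀ a < i, δ^[a] f ∈ p) →
    (∀ c < j, δ^[c] g ∈ p) →
    δ^[N] (f * g) - (N.choose i : R) * (δ^[i] f * δ^[j] g) ∈ p := by
  induction N with
  | zero =>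
    intro i j hij f g _ _
    obtain rfl : i = 0 := by omega
    obtain rfl : j = 0 := by omega
    simp
  | succ N ih =>
    intro i j hij f g hf hg
    rw [Function.iterate_succ_apply, δ.leibniz, smul_eq_mul, smul_eq_mul, iter_add]
    rcases i with _ | i
    · obtain rfl : j = N + 1 := by omega
      have h1 := ih 0 N (by omega) f (δ g) (fun a ha => absurd ha (Nat.not_lt_zero a))
        (fun c hc => by
          have := hg (c + 1) (by omega)
          rwa [Function.iterate_succ_apply] at this)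
      have h2 : δ^[N] (g * δ f) ∈ p := by
        rw [mul_comm]
        exact bal_zero δ p N (δ f) g fun c hc => hg c (by omega)
      rw [Nat.choose_zero_right] at h1 ⊢
      rw [Function.iterate_succ_apply]
      have h3 := p.add_mem h1 h2
      have e : δ^[N] (f * δ g) + δ^[N] (g * δ f) - ((1 : ℕ) : R) * (δ^[0] f * δ^[N] (δ g)) =
          δ^[N] (f * δ g) - ((1 : ℕ) : R) * (δ^[0] f * δ^[N] (δ g)) + δ^[N] (g * δ f) := by ring
      rwa [e]
    · rcases j with _ | j
      · obtain rfl : i = N := by omega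
        have h1 := ih i 0 (by omega) (δ f) g (fun a ha => by
          have := hf (a + 1) (by omega)
          rwa [Function.iterate_succ_apply] at this) (fun a ha => absurd ha (Nat.not_lt_zero a))
        have h2 : δ^[i] (f * δ g) ∈ p := by
          rw [mul_comm]
          exact bal_zero δ p i (δ g) f fun c hc => hf c (by omega)
        rw [Nat.choose_self] at h1 ⊢
        rw [Function.iterate_succ_apply, mul_comm g (δ f)]
        have h3 := p.add_mem h1 h2
        have e : δ^[i] (f * δ g) + δ^[i] (δ f * g) - ((1 : ℕ) : R) * (δ^[i] (δ f) * δ^[0] g) =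
            δ^[i] (δ f * g) - ((1 : ℕ) : R) * (δ^[i] (δ f) * δ^[0] g) + δ^[i] (f * δ g) := by ring
        rwa [e]
      · have h1 := ih (i + 1) j (by omega) f (δ g) hf (fun c hc => by
          have := hg (c + 1) (by omega)
          rwa [Function.iterate_succ_apply] at this)
        have h2 := ih i (j + 1) (by omega) (δ f) g (fun a ha => by
          have := hf (a + 1) (by omega)
          rwa [Function.iterate_succ_apply] at this) hg
        rw [Nat.choose_succ_succ, mul_comm g (δ f)]
        rw [← Function.iterate_succ_apply] at h1 h2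
        have h3 := p.add_mem h1 h2
        have e : δ^[N] (f * δ g) + δ^[N] (δ f * g) - ((N.choose i + N.choose (i + 1) : ℕ) : R) *
            (δ^[i + 1] f * δ^[j + 1] g) =
            δ^[N] (f * δ g) - (N.choose (i + 1) : R) * (δ^[i + 1] f * δ^[j + 1] g) +
            (δ^[N] (δ f * g) - (N.choose i : R) * (δ^[i + 1] f * δ^[j + 1] g)) := by
          push_cast
          ring
        rwa [e]

/-- the elements all of whose derivatives are in the ideal -/
def balQ : Ideal R where
  carrier := {r | ∀ j, δ^[j] r ∈ p}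
  add_mem' := fun {a b} ha hb j => by
    rw [iter_add]
    exact p.add_mem (ha j) (hb j)
  zero_mem' := fun j => by
    have h0 : δ^[j] (0 : R) = 0 := by
      induction j with
      | zero => rfl
      | succ j ih => rw [Function.iterate_succ_apply, map_zero, ih]
    rw [h0]
    exact p.zero_mem
  smul_mem' := fun c x hx j => bal_zero δ p j c x fun c _ => hx c

theorem bal_prime [hp : p.IsPrime] (hn : ∀ n : ℕ, n ≠ 0 → (n : R) ∉ p) : (balQ δ p).IsPrime := by
  classical
  constructor
  · intro h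
    have h1 : (1 : R) ∈ balQ δ p := by rw [h]; trivial
    exact hp.ne_top ((Ideal.eq_top_iff_one _).2 (h1 0))
  · intro f g hfg
    by_contra hcon
    push Not at hcon
    obtain ⟨hf, hg⟩ := hcon
    have hf' : ∃ i, δ^[i] f ∉ p := by
      by_contra h1
      push Not at h1
      exact hf h1
    have hg' : ∃ i, δ^[i] g ∉ p := by
      by_contra h1
      push Not at h1
      exact hg h1
    have h1 := bal_key δ p (Nat.find hf' + Nat.find hg') (Nat.find hf') (Nat.find hg') rfl f g
      (fun a ha => by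
        by_contra h2
        exact Nat.find_min hf' ha h2)
      (fun a ha => by
        by_contra h2
        exact Nat.find_min hg' ha h2)
    have h2 := (p.sub_mem_iff_right (hfg (Nat.find hf' + Nat.find hg'))).1 h1
    rcases hp.mem_or_mem h2 with h3 | h3
    · refine hn _ ?_ h3
      exact (Nat.choose_pos (Nat.le_add_right _ _)).ne'
    · rcases hp.mem_or_mem h3 with h4 | h4
      · exact Nat.find_spec hf' h4
      · exact Nat.find_spec hg' h4

end iter

theorem t_BAL (hI : S_INT) : S_BAL := by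
  intro k κ F _ _ _ _ _ _ _ _ D n U ρ ℓ A h m hd ι _ g hg
  classical
  have _ : Fintype ι := Fintype.ofFinite ι
  have halg := h.alg_R0
  have hint : ∀ i, ∃ y : R0 κ U ρ, y ≠ 0 ∧ IsIntegral (R0 κ U ρ) (y • g i) := fun i =>
    (halg.isAlgebraic (g i)).exists_integral_multiple
  choose y0 hy0 hy1 using hint
  let bR : R0 κ U ρ := ∏ i, y0 i
  have hbR0 : bR ≠ 0 := Finset.prod_ne_zero_iff.2 fun i _ => hy0 i
  have hbi : ∀ i, IsIntegral (R0 κ U ρ) (bR • g i) := by
    intro i
    have h1 : bR = (∏ j ∈ Finset.univ.erase i, y0 j) * y0 i :=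
      (Finset.prod_erase_mul _ _ (Finset.mem_univ i)).symm
    rw [h1, mul_smul, Algebra.smul_def]
    exact (isIntegral_algebraMap).mul (hy1 i)
  obtain ⟨b, hb⟩ : ∃ b : F, b = (bR : F) := ⟨_, rfl⟩
  have hb0 : b ≠ 0 := fun h0 => hbR0 (Subtype.ext (hb.symm.trans h0))
  have hbR : b ∈ R0 κ U ρ := by rw [hb]; exact bR.2
  obtain ⟨l0, hl0⟩ := h.R0_pow.1 hbR
  obtain ⟨l, hl⟩ : ∃ l, l = max l0 1 := ⟨_, rfl⟩
  have hl1 : 1 ≤ l := by rw [hl]; exact le_max_right _ _
  have hbl : b ∈ W1 κ U ρ ^ l := pow_mono' h.one_mem (by rw [hl]; exact le_max_left _ _) hl0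
  obtain ⟨Y, hY⟩ : ∃ Y, Y = W1 κ U ρ ^ l := ⟨_, rfl⟩
  have hYfin : Module.Finite κ Y := by rw [hY]; exact pow_fin W1_fin l
  have hYD : ∀ y ∈ Y, D y ∈ Y := by rw [hY]; exact pow_stab h.stab h.W1_stab l
  have hWY : W1 κ U ρ ≤ Y := by
    have h1 := pow_mono' (W := W1 κ U ρ) h.one_mem hl1
    rwa [pow_one, ← hY] at h1
  have h1Y : (1 : F) ∈ Y := hWY h.one_mem
  have hYR : ∀ y ∈ Y, y ∈ R0 κ U ρ := fun y hy => h.R0_pow.2 ⟨l, by rwa [← hY]⟩
  -- the derivatives of `b`
  have hDb : ∀ j, D^[j] b ∈ Y := by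
    intro j
    induction j with
    | zero => rw [hY]; exact hbl
    | succ j ih => rw [Function.iterate_succ_apply']; exact hYD _ ih
  let f : ℕ → Submodule κ F := fun J => Submodule.span κ (Set.range fun j : Fin (J + 1) =>
    D^[(j : ℕ)] b)
  let Yb : Submodule κ F := Submodule.span κ (Set.range fun j : ℕ => D^[j] b)
  have hYbY : Yb ≤ Y := Submodule.span_le.2 (by rintro _ ⟨j, rfl⟩; exact hDb j)
  have hYbfin : Module.Finite κ Yb := Module.Finite.of_injective (Submodule.inclusion hYbY)
    (Submodule.inclusion_injective _)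
  have hfm : ∀ J J', J ≤ J' → f J ≤ f J' := by
    intro J J' hJ
    refine Submodule.span_le.2 ?_
    rintro _ ⟨j, rfl⟩
    exact Submodule.subset_span ⟨⟨j, by have := j.2; omega⟩, rfl⟩
  obtain ⟨J, hJ⟩ : ∃ J, Yb ≤ f J := by
    obtain ⟨S, hS⟩ := (Module.Finite.iff_fg.1 hYbfin)
    have h1 : ∀ z ∈ Yb, ∃ J, z ∈ f J := by
      intro z hz
      induction hz using Submodule.span_induction with
      | mem z hz =>
        obtain ⟨j, rfl⟩ := hz
        exact ⟨j, Submodule.subset_span ⟨⟨j, by omega⟩, rfl⟩⟩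
      | zero => exact ⟨0, Submodule.zero_mem _⟩
      | add a b _ _ ha hb =>
        obtain ⟨J, h1⟩ := ha
        obtain ⟨J', h2⟩ := hb
        exact ⟨max J J', Submodule.add_mem _ (hfm _ _ (le_max_left _ _) h1)
          (hfm _ _ (le_max_right _ _) h2)⟩
      | smul c a _ ha =>
        obtain ⟨J, h1⟩ := ha
        exact ⟨J, Submodule.smul_mem _ _ h1⟩
    choose! Jz hJz using h1
    refine ⟨S.sup Jz, ?_⟩
    have h2 : Submodule.span κ (S : Set F) ≤ f (S.sup Jz) := by
      refine Submodule.span_le.2 ?_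
      intro z hz
      refine hfm _ _ (Finset.le_sup (f := Jz) hz) (hJz z ?_)
      rw [← hS]
      exact Submodule.subset_span hz
    rwa [hS] at h2
  have hYbD : ∀ y ∈ Yb, D y ∈ Yb := by
    intro y hy
    induction hy using Submodule.span_induction with
    | mem z hz =>
      obtain ⟨j, rfl⟩ := hz
      exact Submodule.subset_span ⟨j + 1, Function.iterate_succ_apply' _ _ _⟩
    | zero => rw [map_zero]; exact Submodule.zero_mem _
    | add a b _ _ ha hb => rw [map_add]; exact Submodule.add_mem _ ha hb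
    | smul c a ha0 ha =>
      obtain ⟨c', hc'⟩ := h.stab c
      have e1 : D (c • a) = c • D a + c' • a := by
        rw [Algebra.smul_def, D.leibniz, hc', Algebra.smul_def (R := κ), Algebra.smul_def (R := κ),
          smul_eq_mul, smul_eq_mul]
        ring
      rw [e1]
      exact Submodule.add_mem _ (Submodule.smul_mem _ _ ha) (Submodule.smul_mem _ _ ha0)
  have hbYb : b ∈ Yb := Submodule.subset_span ⟨0, rfl⟩
  refine ⟨l, b, J, hl1, hb0, hbl, ?_⟩
  intro q y hy i0 hyi0 i
  rw [← hY] at hy
  obtain ⟨z, hz⟩ : ∃ z, z = y i0 := ⟨_, rfl⟩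
  rw [← hz] at hyi0
  have hzY : z ∈ Y := by rw [hz, ← hy]; exact Submodule.subset_span ⟨i0, rfl⟩
  rw [← hz]
  obtain ⟨v, hv⟩ : ∃ v : Fin q ⊕ Fin (J + 1) → F, v = Sum.elim (fun a => y a / z)
      (fun j : Fin (J + 1) => D^[(j : ℕ)] b / b) := ⟨_, rfl⟩
  rw [← hv]
  obtain ⟨A0, hA0⟩ : ∃ A0 : Subalgebra κ F, A0 = Algebra.adjoin κ (Set.range v) := ⟨_, rfl⟩
  have hvA : ∀ o, v o ∈ A0 := fun o => by rw [hA0]; exact Algebra.subset_adjoin ⟨o, rfl⟩
  -- quotients
  have hA1 : ∀ y' ∈ Y, y' / z ∈ A0 := by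
    intro y' hy'
    rw [← hy] at hy'
    induction hy' using Submodule.span_induction with
    | mem x hx =>
      obtain ⟨a, rfl⟩ := hx
      have h1 := hvA (Sum.inl a)
      rw [hv] at h1
      exact h1
    | zero => rw [zero_div]; exact A0.zero_mem
    | add a b _ _ ha hb => rw [add_div]; exact A0.add_mem ha hb
    | smul c a _ ha => rw [smul_div_assoc]; exact A0.smul_mem ha c
  have hA2 : ∀ y' ∈ Yb, y' / b ∈ A0 := by
    intro y' hy'
    have hy'' := hJ hy'
    clear hy'
    induction hy'' using Submodule.span_induction with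
    | mem x hx =>
      obtain ⟨a, rfl⟩ := hx
      have h1 := hvA (Sum.inr a)
      rw [hv] at h1
      exact h1
    | zero => rw [zero_div]; exact A0.zero_mem
    | add x x' _ _ ha hb => rw [add_div]; exact A0.add_mem ha hb
    | smul c x _ ha => rw [smul_div_assoc]; exact A0.smul_mem ha c
  have hdiv : ∀ a ∈ A0, ∀ c ∈ A0, IsAlgebraic A0 (a / c) := fun a ha c hc => by
    rw [div_eq_mul_inv]
    exact (isAlgebraic_algebraMap (R := A0) (A := F) ⟨a, ha⟩).mul
      (isAlgebraic_algebraMap (R := A0) (A := F) ⟨c, hc⟩).inv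
  have hAalg : Algebra.IsAlgebraic A0 F := by
    refine alg_of_adjoin ?_ h.gen
    rintro _ ⟨p, rfl⟩
    have h2 : (fun p : Fin (n + 1) × Fin (n + 1) => U p.1 p.2) p =
        (ρ * U p.1 p.2 / z) / (ρ / z) := by
      change U p.1 p.2 = _
      have := h.rho_ne
      field_simp
    rw [h2]
    exact hdiv _ (hA1 _ (hWY (h.rhoU_mem _ _))) _ (hA1 _ (hWY h.rho_mem))
  have hInv : ∀ Δ ∈ Inv κ D, ∀ a ∈ A0, Δ a ∈ A0 := by
    intro Δ hΔ a ha
    have hq : ∀ x w : F, w ≠ 0 → Δ (x / w) = Δ x / w - x / w * (Δ w / w) := by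
      intro x w hw
      have h1 : Δ x = x / w * Δ w + w * Δ (x / w) := by
        have h2 := Δ.leibniz (x / w) w
        rwa [div_mul_cancel₀ _ hw, smul_eq_mul, smul_eq_mul] at h2
      have h3 : Δ (x / w) = (Δ x - x / w * Δ w) / w := by
        rw [eq_div_iff hw, h1]
        ring
      rw [h3, sub_div, mul_div_assoc]
    rw [hA0] at ha
    induction ha using Algebra.adjoin_induction with
    | mem x hx =>
      obtain ⟨o, rfl⟩ := hx
      rw [hv]
      rcases o with a | j
      · change Δ (y a / z) ∈ A0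
        rw [hq _ _ hyi0]
        have hya : y a ∈ Y := by rw [← hy]; exact Submodule.subset_span ⟨a, rfl⟩
        exact A0.sub_mem (hA1 _ (h.stable hYfin hYD hΔ hya))
          (A0.mul_mem (hA1 _ hya) (hA1 _ (h.stable hYfin hYD hΔ hzY)))
      · change Δ (D^[(j : ℕ)] b / b) ∈ A0
        rw [hq _ _ hb0]
        have hya : D^[(j : ℕ)] b ∈ Yb := Submodule.subset_span ⟨j, rfl⟩
        exact A0.sub_mem (hA2 _ (h.stable hYbfin hYbD hΔ hya))
          (A0.mul_mem (hA2 _ hya) (hA2 _ (h.stable hYbfin hYbD hΔ hbYb)))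
    | algebraMap c => rw [Δ.map_algebraMap]; exact A0.zero_mem
    | add a b _ _ ha hb => rw [map_add]; exact A0.add_mem ha hb
    | mul a b ha' hb' ha hb =>
      rw [Δ.leibniz, smul_eq_mul, smul_eq_mul]
      exact A0.add_mem (A0.mul_mem (by rw [hA0]; exact ha') hb)
        (A0.mul_mem (by rw [hA0]; exact hb') ha)
  have hfg : A0.FG := by
    rw [hA0]
    exact ⟨(Set.finite_range v).toFinset, by rw [Set.Finite.coe_toFinset]⟩
  have hintA : IsIntegral A0 (g i) := by
    refine hI κ F m hd A0 hfg hAalg (g i) ?_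
    rintro P hPA ⟨s, hs, hRi⟩
    have hz1 : P.Reg (1 / z) := hPA _ (hA1 1 h1Y)
    have hzord : P.ord z ≤ 0 := by
      rcases hz1 with h2 | h2
      · exact absurd h2 (one_div_ne_zero hyi0)
      · rw [one_div, P.ord_inv] at h2; omega
    rcases lt_or_eq_of_le hzord with hlt | heq
    · refine hg P s hRi ?_ i
      intro Δ hΔ
      exact der_log (k := κ) (δ := Δ) hd hRi
        (fun c => by rw [Δ.map_algebraMap]; exact P.reg_zero)
        (fun j => hPA _ (hInv Δ hΔ _ (hs j))) hyi0 hlt.ne
        (hPA _ (hA1 _ (h.stable hYfin hYD hΔ hzY)))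
    · have hYreg : ∀ y' ∈ Y, P.Reg y' := by
        intro y' hy'
        have h1 := P.reg_mul (hPA _ (hA1 y' hy')) (Or.inr heq.ge : P.Reg z)
        rwa [div_mul_cancel₀ _ hyi0] at h1
      have hRreg : ∀ r ∈ R0 κ U ρ, P.Reg r := by
        intro r hr
        unfold R0 at hr
        induction hr using Algebra.adjoin_induction with
        | mem x hx => exact hYreg _ (hWY hx)
        | algebraMap c => exact P.reg_const c
        | add a b _ _ ha hb => exact P.reg_add ha hb
        | mul a b _ _ ha hb => exact P.reg_mul ha hb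
      let φ : R0 κ U ρ →+* P.RF := P.resHom.comp
        ((algebraMap (R0 κ U ρ) F).codRestrict P.O (fun r => hRreg r r.2))
      have hφ : ∀ r : R0 κ U ρ, φ r = P.red (r : F) := fun r =>
        (P.red_of_reg (hRreg r r.2)).symm
      have hchar : CharZero P.RF := charZero_of_injective_algebraMap (algebraMap κ P.RF).injective
      have hp : (RingHom.ker φ).IsPrime := RingHom.ker_isPrime φ
      have hn : ∀ n : ℕ, n ≠ 0 → (n : R0 κ U ρ) ∉ RingHom.ker φ := by
        intro n hn h1
        rw [RingHom.mem_ker, map_natCast] at h1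
        exact hn (Nat.cast_eq_zero.1 h1)
      let δ : Derivation ℤ (R0 κ U ρ) (R0 κ U ρ) := Derivation.mk'
        { toFun := fun r => ⟨D r, h.R0_D r.2⟩
          map_add' := fun r s => Subtype.ext (map_add D _ _)
          map_smul' := fun c r => Subtype.ext (by
            change D (((c • r : R0 κ U ρ)) : F) = ((c • (⟨D r, h.R0_D r.2⟩ : R0 κ U ρ) : R0 κ U ρ) : F)
            push_cast
            exact map_zsmul D c (r : F)) }
        (fun r s => Subtype.ext (D.leibniz (r : F) (s : F)))
      have hδ : ∀ (j : ℕ) (r : R0 κ U ρ), ((δ^[j] r : R0 κ U ρ) : F) = D^[j] (r : F) := by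
        intro j
        induction j with
        | zero => intro r; rfl
        | succ j ih =>
          intro r
          rw [Function.iterate_succ_apply, Function.iterate_succ_apply, ih]
          rfl
      have hpr := bal_prime δ (RingHom.ker φ) hn
      have hbot := h.simple hd (balQ δ (RingHom.ker φ)) (by
        intro r hr s hs'
        have e : s = δ r := Subtype.ext hs'
        rw [e]
        intro j
        have h1 := hr (j + 1)
        rwa [Function.iterate_succ_apply] at h1)
      have hbQ : bR ∉ balQ δ (RingHom.ker φ) := by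
        rw [hbot]
        exact hbR0
      have hex : ∃ j, δ^[j] bR ∉ RingHom.ker φ := by
        by_contra h1
        push Not at h1
        exact hbQ h1
      obtain ⟨j, hj⟩ := hex
      rw [RingHom.mem_ker, hφ, hδ, ← hb, P.red_eq_zero_iff (hRreg _ (hYR _ (hDb j)))] at hj
      push Not at hj
      obtain ⟨hj0, hj1⟩ := hj
      have hj2 : P.Reg (D^[j] b / b) := hPA _ (hA2 _ (Submodule.subset_span ⟨j, rfl⟩))
      have hbord : P.ord b = 0 := by
        have h1 := (P.reg_iff hb0).1 (hRreg _ hbR)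
        rw [P.reg_iff (div_ne_zero hj0 hb0), P.ord_div hj0 hb0] at hj2
        omega
      have h1 : P.Reg (bR • g i) :=
        P.reg_of_isIntegral (A := R0 κ U ρ) (fun r => hRreg r r.2) (hbi i)
      have h2 : bR • g i = b * g i := by
        rw [Algebra.smul_def, hb]
        rfl
      rw [h2] at h1
      have h3 : g i = b⁻¹ * (b * g i) := by rw [inv_mul_cancel_left₀ hb0]
      rw [h3]
      exact P.reg_mul (ge_inv (P := P) (x := b) hbord) h1
  -- conversion
  obtain ⟨pA, hpA, hpe⟩ := hintA
  have hmem : ∀ x : MvPolynomial (Fin q ⊕ Fin (J + 1)) κ, aeval v x ∈ A0 := by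
    intro x
    rw [hA0, Algebra.adjoin_range_eq_range_aeval]
    exact ⟨x, rfl⟩
  let ψ : MvPolynomial (Fin q ⊕ Fin (J + 1)) κ →+* A0 :=
    ((aeval v : MvPolynomial (Fin q ⊕ Fin (J + 1)) κ →ₐ[κ] F).codRestrict A0 hmem).toRingHom
  have hsurj : Function.Surjective ψ := by
    rintro ⟨a, ha⟩
    have ha' := ha
    rw [hA0, Algebra.adjoin_range_eq_range_aeval] at ha'
    obtain ⟨x, hx⟩ := ha'
    exact ⟨x, Subtype.ext hx⟩
  obtain ⟨p', hp1, -, hp2⟩ := Polynomial.lifts_and_natDegree_eq_and_monic
    (Polynomial.mem_lifts_of_surjective hsurj pA) hpA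
  refine ⟨p', hp2, ?_⟩
  rw [← hp1, Polynomial.eval₂_map] at hpe
  exact hpe

end Pool.Agent.N131.MV
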