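import Pool.Agent.N131.MV.Stm

/-!
Compactness for valuation rings: the proof of `S_CAL` from `S_ORD`.
-/

set_option autoImplicit false
set_option linter.unusedSectionVars false

namespace Pool.Agent.N131.MV

open FF MvPolynomial Pool.Agent.W603.LV


open Finset

/-- the general Leibniz rule -/
theorem cal_leib {k F : Type} [Field k] [Field F] [Algebra k F] (D : Derivation k F F) (n : ℕ)
    (a b : F) : D^[n] (a * b) = ∑ ij ∈ antidiagonal n, n.choose ij.1 • (D^[ij.1] a * D^[ij.2] b) := by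
  induction n with
  | zero => simp
  | succ n ih =>
    rw [sum_antidiagonal_choose_succ_nsmul (M := F) (fun i j => D^[i] a * D^[j] b) n]
    simp only [Function.iterate_succ_apply', ih, map_sum, map_nsmul, Derivation.leibniz,
      smul_eq_mul, smul_add, sum_add_distrib]
    congr 1
    refine sum_congr rfl fun ⟨i, j⟩ hij ↦ ?_
    rw [n.choose_symm_of_eq_add (mem_antidiagonal.1 hij).symm, mul_comm]

/-- iterates are additive -/
theorem cal_iter_add {k F : Type} [Field k] [Field F] [Algebra k F] (D : Derivation k F F) (n : ℕ)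
    (a b : F) : D^[n] (a + b) = D^[n] a + D^[n] b := by
  induction n with
  | zero => rfl
  | succ n ih => rw [Function.iterate_succ_apply', ih, map_add, Function.iterate_succ_apply',
      Function.iterate_succ_apply']

theorem cal_iter_zero {k F : Type} [Field k] [Field F] [Algebra k F] (D : Derivation k F F) (n : ℕ) :
    D^[n] (0 : F) = 0 := by
  induction n with
  | zero => rfl
  | succ n ih => rw [Function.iterate_succ_apply', ih, map_zero]

section ul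

variable {F Λ : Type} [Field F] (𝒰 : Ultrafilter Λ) (V : Λ → ValuationSubring F)

/-- the limit of valuation rings along an ultrafilter -/
def cal_ulim : ValuationSubring F where
  carrier := {x | ∀ᶠ l in (𝒰 : Filter Λ), x ∈ V l}
  mul_mem' := fun {a b} ha hb => (Filter.Eventually.and ha hb).mono fun l h => (V l).mul_mem a b h.1 h.2
  one_mem' := Filter.Eventually.of_forall fun l => (V l).one_mem
  add_mem' := fun {a b} ha hb => (Filter.Eventually.and ha hb).mono fun l h => (V l).add_mem a b h.1 h.2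
  zero_mem' := Filter.Eventually.of_forall fun l => (V l).zero_mem
  neg_mem' := fun {a} ha => Filter.Eventually.mono ha fun l h => (V l).neg_mem a h
  mem_or_inv_mem' := fun x => by
    change (∀ᶠ l in (𝒰 : Filter Λ), x ∈ V l) ∨ (∀ᶠ l in (𝒰 : Filter Λ), x⁻¹ ∈ V l)
    rw [← Ultrafilter.eventually_or]
    exact Filter.Eventually.of_forall fun l => (V l).mem_or_inv_mem x

theorem cal_mem {x : F} : x ∈ cal_ulim 𝒰 V ↔ ∀ᶠ l in (𝒰 : Filter Λ), x ∈ V l := Iff.rfl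

theorem cal_nu {x : F} : x ∈ (cal_ulim 𝒰 V).nonunits ↔ ∀ᶠ l in (𝒰 : Filter Λ), x ∈ (V l).nonunits := by
  rw [ValuationSubring.mem_nonunits_iff_or, cal_mem]
  simp only [ValuationSubring.mem_nonunits_iff_or]
  by_cases hx : x = 0
  · simp [hx]
  · simp only [hx, false_or]
    rw [Ultrafilter.eventually_not]

end ul

section nu

variable {F : Type} [Field F] {V : ValuationSubring F}

theorem cal_nu_le {x : F} (h : x ∈ V.nonunits) : x ∈ V := V.nonunits_le h

theorem cal_nu_mul {x y : F} (hx : x ∈ V) (hy : y ∈ V.nonunits) : x * y ∈ V.nonunits := by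
  have h1 := (ValuationSubring.coe_mem_nonunits_iff (A := V) (a := ⟨y, cal_nu_le hy⟩)).1 hy
  exact (ValuationSubring.coe_mem_nonunits_iff (A := V) (a := ⟨x, hx⟩ * ⟨y, cal_nu_le hy⟩)).2
    (Ideal.mul_mem_left _ _ h1)

theorem cal_nu_prime {x y : F} (hx : x ∈ V) (hy : y ∈ V) (h : x * y ∈ V.nonunits) :
    x ∈ V.nonunits ∨ y ∈ V.nonunits := by
  have h1 := (ValuationSubring.coe_mem_nonunits_iff (A := V) (a := ⟨x, hx⟩ * ⟨y, hy⟩)).1 h
  rcases (IsLocalRing.maximalIdeal.isMaximal V).isPrime.mem_or_mem h1 with h2 | h2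
  · exact Or.inl ((ValuationSubring.coe_mem_nonunits_iff (A := V)).2 h2)
  · exact Or.inr ((ValuationSubring.coe_mem_nonunits_iff (A := V)).2 h2)

theorem cal_one_nu : (1 : F) ∉ V.nonunits := by
  rw [ValuationSubring.mem_nonunits_iff_or]
  simp

theorem cal_inv_nu {x : F} (h0 : x ≠ 0) (hx : x⁻¹ ∈ V) : x ∉ V.nonunits := by
  rw [ValuationSubring.mem_nonunits_iff_or]
  rintro (h | h)
  · exact h0 h
  · exact h hx

end nu


section inf

open Finset

variable {k F : Type} [Field k] [Field F] [Algebra k F] {D : Derivation k F F}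
  {V : ValuationSubring F}

theorem cal_iter_mem (hVD : ∀ x ∈ V, D x ∈ V) {x : F} (hx : x ∈ V) (j : ℕ) : D^[j] x ∈ V := by
  induction j with
  | zero => exact hx
  | succ j ih =>
    rw [Function.iterate_succ_apply']
    exact hVD _ ih

theorem cal_inf_mul (hVD : ∀ x ∈ V, D x ∈ V) {x y : F} (hx : x ∈ V)
    (hy : ∀ j : ℕ, D^[j] y ∈ V.nonunits) (j : ℕ) : D^[j] (x * y) ∈ V.nonunits := by
  rw [cal_leib]
  exact sum_mem fun ij _ => nsmul_mem (cal_nu_mul (cal_iter_mem hVD hx _) (hy _)) _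

theorem cal_inf_prime (hVD : ∀ x ∈ V, D x ∈ V) (hN : ∀ n : ℕ, n ≠ 0 → ((n : ℕ) : F) ∉ V.nonunits)
    {x y : F} (hx : x ∈ V) (hy : y ∈ V) (h : ∀ j : ℕ, D^[j] (x * y) ∈ V.nonunits) :
    (∀ j : ℕ, D^[j] x ∈ V.nonunits) ∨ (∀ j : ℕ, D^[j] y ∈ V.nonunits) := by
  classical
  by_contra hcon
  push Not at hcon
  obtain ⟨h1, h2⟩ := hcon
  have hi := Nat.find_spec h1
  have hi' : ∀ a < Nat.find h1, D^[a] x ∈ V.nonunits := fun a ha => not_not.1 (Nat.find_min h1 ha)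
  have hj := Nat.find_spec h2
  have hj' : ∀ a < Nat.find h2, D^[a] y ∈ V.nonunits := fun a ha => not_not.1 (Nat.find_min h2 ha)
  set i := Nat.find h1
  set j := Nat.find h2
  have h3 := h (i + j)
  have hmem : (i, j) ∈ antidiagonal (i + j) := mem_antidiagonal.2 rfl
  rw [cal_leib, ← Finset.add_sum_erase _ _ hmem] at h3
  have h4 : ∑ ij ∈ (antidiagonal (i + j)).erase (i, j),
      (i + j).choose ij.1 • (D^[ij.1] x * D^[ij.2] y) ∈ V.nonunits := by
    refine sum_mem fun ij hij => nsmul_mem ?_ _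
    obtain ⟨h5, h6⟩ := Finset.mem_erase.1 hij
    rw [HasAntidiagonal.mem_antidiagonal] at h6
    rcases lt_trichotomy ij.1 i with h7 | h7 | h7
    · rw [mul_comm]
      exact cal_nu_mul (cal_iter_mem hVD hy _) (hi' _ h7)
    · exact absurd (Prod.ext h7 (show ij.2 = j by omega)) h5
    · exact cal_nu_mul (cal_iter_mem hVD hx _) (hj' _ (by omega))
  have h5 : (i + j).choose i • (D^[i] x * D^[j] y) ∈ V.nonunits := by
    have := V.nonunits.sub_mem h3 h4
    rwa [add_sub_cancel_right] at this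
  rw [nsmul_eq_mul] at h5
  have h6 : (((i + j).choose i : ℕ) : F) ∈ V := natCast_mem V _
  rcases cal_nu_prime h6 (V.mul_mem _ _ (cal_iter_mem hVD hx _) (cal_iter_mem hVD hy _)) h5 with h7 | h7
  · exact hN _ (Nat.choose_pos (Nat.le_add_right i j)).ne' h7
  · rcases cal_nu_prime (cal_iter_mem hVD hx _) (cal_iter_mem hVD hy _) h7 with h8 | h8
    · exact hi h8
    · exact hj h8

end inf

section main

variable {k κ F : Type} [Field k] [Field κ] [Field F] [CharZero F] [CharZero κ]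
  [Algebra k F] [Algebra κ F] {D : Derivation k F F} {n : ℕ}
  {U : Matrix (Fin (n + 1)) (Fin (n + 1)) F} {ρ ℓ : F}
  {A : Matrix (Fin (n + 1)) (Fin (n + 1)) κ} {V : ValuationSubring F}

theorem cal_R0_le (hVκ : ∀ c : κ, algebraMap κ F c ∈ V) (hVg : ∀ p, gen1 U ρ p ∈ V) {x : F}
    (hx : x ∈ R0 κ U ρ) : x ∈ V := by
  let Vs : Subalgebra κ F := { V.toSubring with algebraMap_mem' := hVκ }
  have hle : R0 κ U ρ ≤ Vs := by
    apply Algebra.adjoin_le
    have h1 : W1 κ U ρ ≤ Subalgebra.toSubmodule Vs := by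
      apply Submodule.span_le.2
      rintro _ ⟨p, rfl⟩
      exact hVg p
    exact h1
  exact hle hx

theorem cal_nat (hVκ : ∀ c : κ, algebraMap κ F c ∈ V) (n : ℕ) (hn : n ≠ 0) :
    ((n : ℕ) : F) ∉ V.nonunits := by
  apply cal_inv_nu (by exact_mod_cast hn)
  have := hVκ ((n : κ)⁻¹)
  rwa [map_inv₀, map_natCast] at this

/-- the prime ideal of the elements of the ring which are not units of `V` -/
theorem cal_ideal (hVκ : ∀ c : κ, algebraMap κ F c ∈ V) (hVg : ∀ p, gen1 U ρ p ∈ V) :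
    ∃ q : Ideal (R0 κ U ρ), q.IsPrime ∧ ∀ r : R0 κ U ρ, r ∈ q ↔ (r : F) ∈ V.nonunits := by
  let q : Ideal (R0 κ U ρ) :=
    { carrier := {r | (r : F) ∈ V.nonunits}
      add_mem' := fun {a b} ha hb => V.nonunits.add_mem ha hb
      zero_mem' := V.nonunits.zero_mem
      smul_mem' := fun c r hr => cal_nu_mul (cal_R0_le hVκ hVg c.2) hr }
  refine ⟨q, ⟨?_, ?_⟩, fun r => Iff.rfl⟩
  · rw [Ideal.ne_top_iff_one]
    exact cal_one_nu
  · intro a b hab
    exact cal_nu_prime (cal_R0_le hVκ hVg a.2) (cal_R0_le hVκ hVg b.2) hab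

theorem cal_iter_R0 (h : PV κ D n U ρ ℓ A) {x : F} (hx : x ∈ R0 κ U ρ) (j : ℕ) :
    D^[j] x ∈ R0 κ U ρ := by
  induction j with
  | zero => exact hx
  | succ j ih =>
    rw [Function.iterate_succ_apply']
    exact h.R0_D ih

/-- an element of `V` divides a nonzero element of the ring -/
theorem cal_div (h : PV κ D n U ρ ℓ A) (hVκ : ∀ c : κ, algebraMap κ F c ∈ V)
    (hVg : ∀ p, gen1 U ρ p ∈ V) {x : F} (hx : x ∈ V) (hx0 : x ≠ 0) :
    ∃ r : R0 κ U ρ, r ≠ 0 ∧ ∃ v ∈ V, (r : F) = v * x := by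
  let φ : R0 κ U ρ →+* V :=
    { toFun := fun r => ⟨r, cal_R0_le hVκ hVg r.2⟩
      map_one' := rfl
      map_mul' := fun _ _ => rfl
      map_zero' := rfl
      map_add' := fun _ _ => rfl }
  let _ : Algebra (R0 κ U ρ) V := φ.toAlgebra
  have : IsScalarTower (R0 κ U ρ) V F := IsScalarTower.of_algebraMap_eq fun x => rfl
  have h1 : IsAlgebraic (R0 κ U ρ) (algebraMap V F ⟨x, hx⟩) := h.alg_R0.isAlgebraic x
  have h2 : IsAlgebraic (R0 κ U ρ) (⟨x, hx⟩ : V) :=
    (isAlgebraic_algebraMap_iff (FaithfulSMul.algebraMap_injective V F)).1 h1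
  obtain ⟨r, hr0, v, hv⟩ := h2.exists_nonzero_dvd (mem_nonZeroDivisors_of_ne_zero (by
    intro h3
    exact hx0 (congrArg Subtype.val h3)))
  refine ⟨r, hr0, v, v.2, ?_⟩
  have h3 : (r : F) = x * v := congrArg Subtype.val hv
  rw [h3, mul_comm]

/-- no nonzero element of `V` vanishes to infinite order -/
theorem cal_fin (h : PV κ D n U ρ ℓ A) {d : ℕ} (hd : Algebra.trdeg κ F = d)
    (hVD : ∀ x ∈ V, D x ∈ V) (hVκ : ∀ c : κ, algebraMap κ F c ∈ V)
    (hVg : ∀ p, gen1 U ρ p ∈ V) {x : F} (hx : x ∈ V) (hx0 : x ≠ 0) :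
    ∃ j : ℕ, D^[j] x ∉ V.nonunits := by
  by_contra hcon
  push Not at hcon
  let q : Ideal (R0 κ U ρ) :=
    { carrier := {r | ∀ j : ℕ, D^[j] (r : F) ∈ V.nonunits}
      add_mem' := fun {a b} ha hb j => by
        change D^[j] ((a : F) + b) ∈ V.nonunits
        rw [cal_iter_add]
        exact V.nonunits.add_mem (ha j) (hb j)
      zero_mem' := fun j => by
        change D^[j] (0 : F) ∈ V.nonunits
        rw [cal_iter_zero]
        exact V.nonunits.zero_mem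
      smul_mem' := fun c r hr j => cal_inf_mul hVD (cal_R0_le hVκ hVg c.2) hr j }
  have hq : ∀ r : R0 κ U ρ, r ∈ q ↔ ∀ j : ℕ, D^[j] (r : F) ∈ V.nonunits := fun r => Iff.rfl
  have hqp : q.IsPrime := by
    constructor
    · rw [Ideal.ne_top_iff_one, hq]
      intro h1
      exact cal_one_nu (h1 0)
    · intro a b hab
      exact cal_inf_prime hVD (cal_nat hVκ) (cal_R0_le hVκ hVg a.2) (cal_R0_le hVκ hVg b.2) hab
  have hq0 : q = ⊥ := by
    refine h.simple hd q ?_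
    intro r hr s hs
    rw [hq] at hr ⊢
    intro j
    rw [hs, ← Function.iterate_succ_apply]
    exact hr (j + 1)
  obtain ⟨r, hr0, v, hv, hrv⟩ := cal_div h hVκ hVg hx hx0
  apply hr0
  have hrq : r ∈ q := by
    rw [hq, hrv]
    exact cal_inf_mul hVD hv hcon
  rw [hq0] at hrq
  exact hrq

/-- a proper D-stable valuation ring is divisorial -/
theorem cal_place (hORD : S_ORD) [Algebra.EssFiniteType κ F] (h : PV κ D n U ρ ℓ A) {m : ℕ}
    (hd : Algebra.trdeg κ F = (m + 1 : ℕ))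
    (hVD : ∀ x ∈ V, D x ∈ V) (hVκ : ∀ c : κ, algebraMap κ F c ∈ V)
    (hVg : ∀ p, gen1 U ρ p ∈ V) (hV : V ≠ ⊤)
    (hG : ∀ G : Finset (R0 κ U ρ), (Ideal.span (G : Set (R0 κ U ρ))).IsPrime →
      Algebra.trdeg κ (R0 κ U ρ ⧸ Ideal.span (G : Set (R0 κ U ρ))) < m →
      ∃ x ∈ G, (x : F) ∉ V.nonunits) :
    ∃ (P : Place κ F) (s : Fin m → F), (∀ x, P.Reg x ↔ x ∈ V) ∧
      (∀ x, Ge P 1 x ↔ x ∈ V.nonunits) ∧ Ri P s ∧ (∀ Δ ∈ Inv κ D, RegP P Δ) ∧
      ∃ t : F, P.ord t = 1 ∧ t ∈ V.nonunits ∧ D t ∈ V ∧ D t ∉ V.nonunits := by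
  classical
  obtain ⟨P, hP1, hP2, hP3⟩ := hORD k κ F D V hVκ hVD
    (fun x hx hx0 => cal_fin h hd hVD hVκ hVg hx hx0) hV
  obtain ⟨q, hqp, hq⟩ := cal_ideal (V := V) (U := U) (ρ := ρ) hVκ hVg
  -- generators of the ideal
  have hFT : Algebra.FiniteType κ (R0 κ U ρ) := by
    rw [← Subalgebra.fg_iff_finiteType]
    have h1 : R0 κ U ρ = Algebra.adjoin κ (Set.range (gen1 U ρ)) := Algebra.adjoin_span κ
    rw [h1]
    exact ⟨(Set.finite_range (gen1 U ρ)).toFinset, by rw [Set.Finite.coe_toFinset]⟩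
  have hNo : IsNoetherianRing (R0 κ U ρ) := Algebra.FiniteType.isNoetherianRing κ _
  obtain ⟨G0, hG0⟩ := hNo.noetherian q
  have hG0' : Ideal.span (G0 : Set (R0 κ U ρ)) = q := hG0
  have htr : (m : Cardinal) ≤ Algebra.trdeg κ (R0 κ U ρ ⧸ q) := by
    by_contra hcon
    push Not at hcon
    obtain ⟨x, hx, hx'⟩ := hG G0 (by rw [hG0']; exact hqp) (by rw [hG0']; exact hcon)
    apply hx'
    rw [← hq, ← hG0']
    exact Ideal.subset_span hx
  -- residually independent elements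
  obtain ⟨ι', xb, hxb⟩ := exists_isTranscendenceBasis' κ (R0 κ U ρ ⧸ q)
  rw [← hxb.cardinalMk_eq_trdeg] at htr
  have hemb : Nonempty (Fin m ↪ ι') := by
    rw [← Cardinal.le_def, Cardinal.mk_fin]
    exact htr
  obtain ⟨e⟩ := hemb
  choose y hy using fun i => Ideal.Quotient.mk_surjective (xb (e i))
  have hRi : Ri P (fun i => ((y i : R0 κ U ρ) : F)) := by
    intro G hG
    have h1 : aeval (fun i => ((y i : R0 κ U ρ) : F)) G = ((aeval y G : R0 κ U ρ) : F) := by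
      have := MvPolynomial.comp_aeval_apply (f := y) (R0 κ U ρ).val G
      exact this.symm
    have h2 : (aeval y G : R0 κ U ρ) ∉ q := by
      intro h3
      have h4 : Ideal.Quotient.mkₐ κ q (aeval y G) = 0 := Ideal.Quotient.eq_zero_iff_mem.2 h3
      rw [MvPolynomial.comp_aeval_apply] at h4
      have h5 : (fun i => Ideal.Quotient.mkₐ κ q (y i)) = xb ∘ e := funext hy
      rw [h5] at h4
      have h6 : AlgebraicIndependent κ (xb ∘ e) := hxb.1.comp e e.injective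
      exact hG ((algebraicIndependent_iff.1 h6) G h4)
    rw [hq] at h2
    rw [h1]
    have h3 : ¬ Ge P 1 ((aeval y G : R0 κ U ρ) : F) := fun h4 => h2 ((hP2 _).1 h4)
    have h4 : P.Reg ((aeval y G : R0 κ U ρ) : F) := (hP1 _).2 (cal_R0_le hVκ hVg (aeval y G).2)
    unfold Ge at h3
    push Not at h3
    refine ⟨h3.1, ?_⟩
    have h5 := (P.reg_iff h3.1).1 h4
    omega
  -- a nonzero element of the ideal
  obtain ⟨z, hzV⟩ : ∃ z : F, z ∉ V := by
    by_contra hcon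
    push Not at hcon
    exact hV (eq_top_iff.2 fun z _ => hcon z)
  have hz0 : z ≠ 0 := by
    rintro rfl
    exact hzV V.zero_mem
  have hzi : z⁻¹ ∈ V.nonunits := by
    rw [ValuationSubring.mem_nonunits_iff_or]
    right
    rwa [inv_inv]
  obtain ⟨r, hr0, v, hv, hrv⟩ := cal_div h hVκ hVg (cal_nu_le hzi) (inv_ne_zero hz0)
  have hrn : (r : F) ∈ V.nonunits := by
    rw [hrv]
    exact cal_nu_mul hv hzi
  have hrF : (r : F) ≠ 0 := fun h1 => hr0 (Subtype.ext h1)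
  -- the uniformizer
  have key : ∀ (l : ℕ) (x : F), x ∈ R0 κ U ρ → x ∈ V.nonunits → x ≠ 0 → P.ord x = l + 1 →
      ∃ t : F, t ∈ R0 κ U ρ ∧ t ∈ V.nonunits ∧ P.ord t = 1 := by
    intro l
    induction l with
    | zero =>
      intro x hx1 hx2 hx3 hx4
      exact ⟨x, hx1, hx2, by rw [hx4]; simp⟩
    | succ l ih =>
      intro x hx1 hx2 hx3 hx4
      have h1 := hP3 x hx2 hx3
      rw [hx4] at h1
      push_cast at h1
      have h2 : P.ord (D x) = l + 1 := by omega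
      have h3 : D x ≠ 0 := by
        intro h4
        rw [h4, P.ord_zero] at h2
        omega
      exact ih (D x) (h.R0_D hx1) ((hP2 _).1 (Or.inr (by omega))) h3 h2
  obtain ⟨t, ht1, ht2, ht3⟩ : ∃ t : F, t ∈ R0 κ U ρ ∧ t ∈ V.nonunits ∧ P.ord t = 1 := by
    have h1 : 1 ≤ P.ord (r : F) := ((hP2 _).2 hrn).resolve_left hrF
    refine key (P.ord (r : F) - 1).toNat r r.2 hrn hrF ?_
    omega
  have ht0 : t ≠ 0 := by
    rintro rfl
    rw [P.ord_zero] at ht3
    omega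
  have hDt : D t ≠ 0 := by
    intro h0
    obtain ⟨j, hj⟩ := cal_fin h hd hVD hVκ hVg (cal_nu_le ht2) ht0
    apply hj
    cases j with
    | zero => exact ht2
    | succ j =>
      rw [Function.iterate_succ_apply, h0, cal_iter_zero]
      exact V.nonunits.zero_mem
  have hDt' : D t ∉ V.nonunits := by
    rw [← hP2]
    rintro (h1 | h1)
    · exact hDt h1
    · have := hP3 t ht2 ht0
      omega
  refine ⟨P, _, hP1, hP2, hRi, ?_, t, ht3, ht2, hVD t (cal_nu_le ht2), hDt'⟩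
  intro Δ hΔ
  have hreg : ∀ x ∈ R0 κ U ρ, P.Reg (Δ x) := fun x hx =>
    (hP1 _).2 (cal_R0_le hVκ hVg (h.R0_inv hΔ hx))
  exact der_regular hd hRi (fun c => by rw [Δ.map_algebraMap]; exact P.reg_zero)
    (fun i => hreg _ (y i).2) ht3 (hreg t ht1)

end main

/-- **Compactness.** -/
theorem t_CAL (hORD : S_ORD) : S_CAL := by
  classical
  intro k κ F _ _ _ _ _ _ _ _ D n U ρ ℓ A h m hd ι J _ _ g N Pos Neg H
  by_contra hcon
  push Not at hcon
  let Good := {G : Finset (R0 κ U ρ) // (Ideal.span (G : Set (R0 κ U ρ))).IsPrime ∧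
      Algebra.trdeg κ (R0 κ U ρ ⧸ Ideal.span (G : Set (R0 κ U ρ))) < m}
  let Λ := Finset κ × Finset Good
  have hV : ∀ l : Λ, ∃ V : ValuationSubring F, (∀ x ∈ V, D x ∈ V) ∧
      (∀ c ∈ l.1, algebraMap κ F c ∈ V) ∧ (∀ p, gen1 U ρ p ∈ V) ∧
      ¬ ((∀ i, g i ∈ V) ∨
      ((∃ j, (∀ x ∈ Pos j, x ∈ V) ∧ ∀ x ∈ Neg j, x ∈ V.nonunits) ∧
        ∃ t ∈ V.nonunits, D t ∈ V ∧ D t ∉ V.nonunits ∧ ∀ i, t ^ N * g i ∈ V) ∨
      ∃ G ∈ l.2, ∀ x ∈ G.1, (x : F) ∈ V.nonunits) := by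
    intro l
    obtain ⟨V, h1, h2, h3, h4⟩ := hcon l.1 (l.2.image Subtype.val) (by
      intro G hG
      obtain ⟨G', -, rfl⟩ := Finset.mem_image.1 hG
      exact G'.2)
    refine ⟨V, h1, h2, h3, ?_⟩
    rintro (h5 | h5 | h5)
    · obtain ⟨i, hi⟩ := h4.1
      exact hi (h5 i)
    · obtain ⟨⟨j, h6, h7⟩, t, h8, h9, h10, h11⟩ := h5
      obtain ⟨i, hi⟩ := h4.2.1 ⟨j, h6, h7⟩ t h8 h9 h10
      exact hi (h11 i)
    · obtain ⟨G, h6, h7⟩ := h5
      obtain ⟨x, hx, hx'⟩ := h4.2.2 G.1 (Finset.mem_image_of_mem _ h6)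
      exact hx' (h7 x hx)
  choose Vl hV1 hV2 hV3 hV4 using hV
  let 𝒰 : Ultrafilter Λ := Ultrafilter.of Filter.atTop
  have h𝒰 : ∀ l0 : Λ, ∀ᶠ l in (𝒰 : Filter Λ), l0 ≤ l := fun l0 =>
    Ultrafilter.of_le Filter.atTop (Filter.eventually_ge_atTop l0)
  let V := cal_ulim 𝒰 Vl
  have hVD : ∀ x ∈ V, D x ∈ V := fun x hx =>
    Filter.Eventually.mono hx fun l hl => hV1 l x hl
  have hVκ : ∀ c : κ, algebraMap κ F c ∈ V := by
    intro c
    refine (h𝒰 ({c}, ∅)).mono fun l hl => hV2 l c ?_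
    exact hl.1 (Finset.mem_singleton_self c)
  have hVg : ∀ p, gen1 U ρ p ∈ V := fun p => Filter.Eventually.of_forall fun l => hV3 l p
  have hVN : ∀ x : F, x ∈ V.nonunits ↔ ∀ᶠ l in (𝒰 : Filter Λ), x ∈ (Vl l).nonunits :=
    fun x => cal_nu 𝒰 Vl
  have hVM : ∀ x : F, x ∈ V ↔ ∀ᶠ l in (𝒰 : Filter Λ), x ∈ Vl l := fun x => Iff.rfl
  have hG : ∀ G : Finset (R0 κ U ρ), (Ideal.span (G : Set (R0 κ U ρ))).IsPrime →
      Algebra.trdeg κ (R0 κ U ρ ⧸ Ideal.span (G : Set (R0 κ U ρ))) < m →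
      ∃ x ∈ G, (x : F) ∉ V.nonunits := by
    intro G hG1 hG2
    by_contra hc
    push Not at hc
    have h1 : ∀ᶠ l in (𝒰 : Filter Λ), ∀ x ∈ G, (x : F) ∈ (Vl l).nonunits :=
      (Filter.eventually_all_finset G).2 fun x hx => (hVN _).1 (hc x hx)
    obtain ⟨l, h2, h3⟩ := (h1.and (h𝒰 (∅, {⟨G, hG1, hG2⟩}))).exists
    apply hV4 l
    right; right
    exact ⟨⟨G, hG1, hG2⟩, h3.2 (Finset.mem_singleton_self _), h2⟩
  have hgc : ¬ ∀ i, g i ∈ V := by
    intro h1
    have h2 : ∀ᶠ l in (𝒰 : Filter Λ), ∀ i, g i ∈ Vl l := Filter.eventually_all.2 h1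
    obtain ⟨l, hl⟩ := h2.exists
    exact hV4 l (Or.inl hl)
  by_cases htop : V = ⊤
  · exact hgc fun i => by rw [htop]; exact ValuationSubring.mem_top _
  obtain ⟨P, s, hP1, hP2, hRi, hreg, t, ht, ht1, ht2, ht3⟩ :=
    cal_place hORD h hd hVD hVκ hVg htop hG
  rcases H P s hRi hreg with h1 | ⟨⟨j, h1, h2⟩, h3⟩
  · exact hgc fun i => (hP1 _).1 (h1 i)
  · have h4 : ∀ i, t ^ N * g i ∈ V := by
      intro i
      rw [← hP1]
      have h5 : Ge P 1 t := Or.inr ht.ge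
      have h6 := (h5.pow N).mul (h3 i)
      rw [mul_one, add_neg_cancel] at h6
      exact h6
    have e1 : ∀ᶠ l in (𝒰 : Filter Λ), ∀ x ∈ Pos j, x ∈ Vl l :=
      (Filter.eventually_all_finset _).2 fun x hx => (hVM x).1 ((hP1 x).1 (h1 x hx))
    have e2 : ∀ᶠ l in (𝒰 : Filter Λ), ∀ x ∈ Neg j, x ∈ (Vl l).nonunits :=
      (Filter.eventually_all_finset _).2 fun x hx => (hVN x).1 ((hP2 x).1 (h2 x hx))
    have e3 : ∀ᶠ l in (𝒰 : Filter Λ), t ∈ (Vl l).nonunits := (hVN t).1 ht1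
    have e4 : ∀ᶠ l in (𝒰 : Filter Λ), D t ∈ Vl l := (hVM _).1 ht2
    have e5 : ∀ᶠ l in (𝒰 : Filter Λ), D t ∉ (Vl l).nonunits := by
      rw [Ultrafilter.eventually_not, ← hVN]
      exact ht3
    have e6 : ∀ᶠ l in (𝒰 : Filter Λ), ∀ i, t ^ N * g i ∈ Vl l := Filter.eventually_all.2 h4
    obtain ⟨l, ⟨⟨⟨⟨⟨f1, f2⟩, f3⟩, f4⟩, f5⟩, f6⟩⟩ :=
      (((((e1.and e2).and e3).and e4).and e5).and e6).exists
    exact hV4 l (Or.inr (Or.inl ⟨⟨j, f1, f2⟩, t, f3, f4, f5, f6⟩))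

end Pool.Agent.N131.MV
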