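import Mathlib
import Pool.Agent.N131.MV.Stm

/-!
# MV/GCD (helper401): elements with many derivatives in a prime ideal
-/

set_option autoImplicit false
set_option linter.unusedSectionVars false

namespace Pool.Agent.N131.MV

open Matrix Submodule MvPolynomial

section gcdsec

/-- elements of a power of a span are values of homogeneous polynomials -/
theorem gcd_hom {κ F : Type} [Field κ] [Field F] [Algebra κ F] {σ : Type} (g : σ → F) (l : ℕ) :
    ∀ y ∈ (span κ (Set.range g)) ^ l, ∃ Q : MvPolynomial σ κ, Q.IsHomogeneous l ∧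
      aeval g Q = y := by
  induction l with
  | zero =>
    intro y hy
    rw [pow_zero, Submodule.mem_one] at hy
    obtain ⟨c, rfl⟩ := hy
    exact ⟨C c, isHomogeneous_C _ _, by rw [aeval_C]⟩
  | succ l ih =>
    intro y hy
    rw [pow_succ] at hy
    have h1 : ∀ b ∈ span κ (Set.range g), ∃ Q : MvPolynomial σ κ, Q.IsHomogeneous 1 ∧
        aeval g Q = b := by
      intro b hb
      induction hb using Submodule.span_induction with
      | mem x hx =>
        obtain ⟨i, rfl⟩ := hx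
        exact ⟨X i, isHomogeneous_X _ _, by rw [aeval_X]⟩
      | zero => exact ⟨0, isHomogeneous_zero _ _ _, by rw [map_zero]⟩
      | add x y _ _ hx hy =>
        obtain ⟨p, hp, rfl⟩ := hx
        obtain ⟨q, hq, rfl⟩ := hy
        exact ⟨p + q, hp.add hq, by rw [map_add]⟩
      | smul c x _ hx =>
        obtain ⟨p, hp, rfl⟩ := hx
        refine ⟨C c * p, ?_, by rw [map_mul, aeval_C, Algebra.smul_def]⟩
        have := (isHomogeneous_C σ c).mul hp
        rwa [zero_add] at this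
    induction hy using Submodule.mul_induction_on' with
    | mem_mul_mem a ha b hb =>
      obtain ⟨p, hp, rfl⟩ := ih a ha
      obtain ⟨q, hq, rfl⟩ := h1 b hb
      exact ⟨p * q, hp.mul hq, by rw [map_mul]⟩
    | add a _ b _ ha hb =>
      obtain ⟨p, hp, rfl⟩ := ha
      obtain ⟨q, hq, rfl⟩ := hb
      exact ⟨p + q, hp.add hq, by rw [map_add]⟩

variable {k κ F : Type} [Field k] [Field κ] [Field F] [CharZero F] [CharZero κ]
  [Algebra k F] [Algebra κ F] {D : Derivation k F F} {n : ℕ}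
  {U : Matrix (Fin (n + 1)) (Fin (n + 1)) F} {ρ ℓ : F}
  {A : Matrix (Fin (n + 1)) (Fin (n + 1)) κ}

/-- elements of the ring are values of polynomials at the generators -/
theorem gcd_poly0 (r : F) (hr : r ∈ R0 κ U ρ) : ∃ p : MvPolynomial ((Fin (n + 1) →
    Fin (n + 1)) × (Fin (n + 1) → Fin (n + 1))) κ, aeval (gen1 U ρ) p = r := by
  have h1 : r ∈ Algebra.adjoin κ (Set.range (gen1 U ρ)) := by
    unfold R0 W1 at hr
    rwa [Algebra.adjoin_span] at hr
  rw [Algebra.adjoin_range_eq_range_aeval] at h1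
  exact h1

theorem gcd_poly (r : R0 κ U ρ) : ∃ p : MvPolynomial ((Fin (n + 1) → Fin (n + 1)) ×
    (Fin (n + 1) → Fin (n + 1))) κ, aeval (gen1 U ρ) p = (r : F) :=
  gcd_poly0 (r : F) r.2

variable (κ U ρ) in
/-- the space of the generators inside the ring -/
noncomputable def gcdW : Submodule κ (R0 κ U ρ) := (W1 κ U ρ).comap (R0 κ U ρ).val.toLinearMap

theorem gcd_map : (gcdW κ U ρ).map (R0 κ U ρ).val.toLinearMap = W1 κ U ρ := by
  unfold gcdW
  rw [Submodule.map_comap_eq]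
  apply inf_eq_right.2
  intro x hx
  exact ⟨⟨x, Algebra.subset_adjoin hx⟩, rfl⟩

theorem gcd_pow (l : ℕ) (y : R0 κ U ρ) : y ∈ (gcdW κ U ρ) ^ l ↔ (y : F) ∈ (W1 κ U ρ) ^ l := by
  have h1 : ((gcdW κ U ρ) ^ l).map (R0 κ U ρ).val.toLinearMap = (W1 κ U ρ) ^ l := by
    rw [Submodule.map_pow, gcd_map]
  constructor
  · intro hy
    rw [← h1]
    exact ⟨y, hy, rfl⟩
  · intro hy
    rw [← h1] at hy
    obtain ⟨z, hz, hzy⟩ := hy
    have h2 : z = y := Subtype.ext hzy
    rwa [← h2]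

/-- the derivation of the ring -/
noncomputable def gcdD (h : PV κ D n U ρ ℓ A) : Derivation ℤ (R0 κ U ρ) (R0 κ U ρ) :=
  Derivation.mk'
    (AddMonoidHom.toIntLinearMap
      { toFun := fun r => ⟨D r, h.R0_D r.2⟩
        map_zero' := Subtype.ext (map_zero D)
        map_add' := fun r s => Subtype.ext (map_add D (r : F) s) })
    (fun r s => Subtype.ext (D.leibniz (r : F) s))

theorem gcdD_coe (h : PV κ D n U ρ ℓ A) (r : R0 κ U ρ) : ((gcdD h r : R0 κ U ρ) : F) = D r := rfl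

theorem gcdD_iter (h : PV κ D n U ρ ℓ A) (j : ℕ) (r : R0 κ U ρ) :
    (((gcdD h)^[j] r : R0 κ U ρ) : F) = D^[j] r := by
  induction j with
  | zero => rfl
  | succ j ih =>
    rw [Function.iterate_succ_apply', Function.iterate_succ_apply', gcdD_coe, ih]

theorem gcd_basis (h : PV κ D n U ρ ℓ A) {m : ℕ} (hm : Algebra.trdeg κ F = (m + 1 : ℕ)) :
    ∃ x : Fin (m + 1) → R0 κ U ρ, (∀ i, x i ∈ gcdW κ U ρ) ∧ AlgebraicIndependent κ x := by
  have hf : FaithfulSMul κ (R0 κ U ρ) :=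
    (faithfulSMul_iff_algebraMap_injective κ (R0 κ U ρ)).2 (algebraMap κ (R0 κ U ρ)).injective
  have hadj : ∀ r : R0 κ U ρ, r ∈ Algebra.adjoin κ (gcdW κ U ρ : Set (R0 κ U ρ)) := by
    intro r
    have h1 : (Algebra.adjoin κ (gcdW κ U ρ : Set (R0 κ U ρ))).map (R0 κ U ρ).val = R0 κ U ρ := by
      rw [AlgHom.map_adjoin]
      have h2 : (R0 κ U ρ).val '' (gcdW κ U ρ : Set (R0 κ U ρ)) = (W1 κ U ρ : Set F) := by
        have h3 := gcd_map (κ := κ) (U := U) (ρ := ρ)
        have h4 := congrArg (fun S : Submodule κ F => (S : Set F)) h3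
        exact h4
      rw [h2]
      rfl
    have h2 : (r : F) ∈ (Algebra.adjoin κ (gcdW κ U ρ : Set (R0 κ U ρ))).map (R0 κ U ρ).val := by
      rw [h1]; exact r.2
    obtain ⟨s, hs, hsr⟩ := h2
    have h3 : s = r := Subtype.ext hsr
    rwa [← h3]
  have halg : Algebra.IsAlgebraic (Algebra.adjoin κ (gcdW κ U ρ : Set (R0 κ U ρ))) (R0 κ U ρ) := by
    constructor
    intro r
    exact isAlgebraic_algebraMap (⟨r, hadj r⟩ : Algebra.adjoin κ (gcdW κ U ρ : Set (R0 κ U ρ)))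
  obtain ⟨t, ht, hb⟩ := exists_isTranscendenceBasis_subset (R := κ)
    (gcdW κ U ρ : Set (R0 κ U ρ))
  have h1 := hb.cardinalMk_eq_trdeg
  rw [h.trdeg_R0 hm] at h1
  have h2 : Finite t := by
    rw [← Cardinal.lt_aleph0_iff_finite, h1]
    exact Cardinal.natCast_lt_aleph0
  have _ : Fintype t := Fintype.ofFinite t
  rw [Cardinal.mk_fintype] at h1
  have h3 : Fintype.card t = m + 1 := by exact_mod_cast h1
  let e : Fin (m + 1) ≃ t := (Fintype.equivFinOfCardEq h3).symm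
  exact ⟨fun i => (e i : R0 κ U ρ), fun i => ht (e i).2, hb.1.comp e e.injective⟩

end gcdsec

theorem t_GCD : S_GCD := by
  intro k κ F _ _ _ _ _ _ _ _ D n U ρ ℓ A h m hm G hG hlt M
  have hW : Module.Finite κ (gcdW κ U ρ) := by
    have h0 : Module.Finite κ (W1 κ U ρ) := W1_fin
    let φ : gcdW κ U ρ →ₗ[κ] W1 κ U ρ :=
      ((R0 κ U ρ).val.toLinearMap.domRestrict (gcdW κ U ρ)).codRestrict (W1 κ U ρ)
        (fun x => x.2)
    refine Module.Finite.of_injective φ ?_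
    intro x y hxy
    have h1 := congrArg Subtype.val hxy
    exact Subtype.ext (Subtype.ext h1)
  have h1 : (1 : R0 κ U ρ) ∈ gcdW κ U ρ := h.one_mem
  have hδW : ∀ l : ℕ, ∀ y ∈ (gcdW κ U ρ) ^ l, gcdD h y ∈ (gcdW κ U ρ) ^ l := by
    intro l y hy
    rw [gcd_pow] at hy ⊢
    exact pow_stab h.stab h.W1_stab l _ hy
  have hδ : ∀ c : κ, ∃ c' : κ, gcdD h (algebraMap κ (R0 κ U ρ) c) =
      algebraMap κ (R0 κ U ρ) c' := by
    intro c
    obtain ⟨c', hc⟩ := h.stab c
    exact ⟨c', Subtype.ext hc⟩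
  obtain ⟨e, he⟩ : ∃ e : ℕ, Algebra.trdeg κ (R0 κ U ρ ⧸ Ideal.span (G : Set (R0 κ U ρ))) = e := by
    obtain ⟨e, he⟩ := Cardinal.lt_aleph0.1 (hlt.trans Cardinal.natCast_lt_aleph0)
    exact ⟨e, he⟩
  have hem : e < m := by
    rw [he] at hlt
    exact_mod_cast hlt
  obtain ⟨d, rfl⟩ : ∃ d, m = d + 1 := ⟨m - 1, by omega⟩
  obtain ⟨x, hx, hind⟩ := gcd_basis h hm
  obtain ⟨l, hl, P, hP, hP0, hPj⟩ := exists_small (gcdD h) hδ hW h1 hδW (d := d) (e := e) hx hind
    (Ideal.span (G : Set (R0 κ U ρ))) he (by omega) M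
  obtain ⟨Q, hQ, hQP⟩ := gcd_hom (gen1 U ρ) l (P : F) ((gcd_pow l P).1 hP)
  refine ⟨l, Q, hl, hQ, ?_, fun j hj => ?_⟩
  · rw [hQP]
    intro h0
    exact hP0 (Subtype.ext h0)
  · have h2 := hPj j hj
    obtain ⟨f, hf⟩ := Submodule.mem_span_finset'.1 h2
    choose r hr using fun x : G => gcd_poly (f x)
    refine ⟨r, ?_⟩
    rw [hQP, ← gcdD_iter h j P, ← hf, AddSubmonoidClass.coe_finsetSum]
    refine Finset.sum_congr rfl fun x _ => ?_
    rw [hr]
    rfl

end Pool.Agent.N131.MV
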