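import Mathlib
import Pool.Agent.N131.MV.Stm

/-!
(INT) elements which are regular at the divisorial places over an affine ring are integral.

By helper765.
-/

set_option autoImplicit false
set_option linter.unusedSectionVars false

namespace Pool.Agent.N131.MV

open FF MvPolynomial Pool.Agent.W603.LV

section ufd

/-- a common denominator in a factorial ring -/
theorem int_ufd {R K F ι : Type*} [CommRing R] [IsDomain R] [UniqueFactorizationMonoid R]
    [Field K] [Algebra R K] [IsFractionRing R K] [Field F] [Algebra K F] [Algebra R F]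
    [IsScalarTower R K F] {g : F} (e : ι → R) (j0 : ι) (he : ∀ j, e j ≠ 0)
    (hp : ∀ p, Prime p → ∃ j, ¬ p ∣ e j) (hg : ∀ j, IsIntegral R (e j • g)) :
    IsIntegral R g := by
  have hinj : Function.Injective (algebraMap R K) := IsFractionRing.injective R K
  have hfs : FaithfulSMul R F := by
    rw [faithfulSMul_iff_algebraMap_injective, IsScalarTower.algebraMap_eq R K F]
    exact (algebraMap K F).injective.comp hinj
  have hsm : ∀ (r : R) (x : F), r • x = algebraMap R K r • x := fun r x =>
    (algebraMap_smul K r x).symm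
  have he' : ∀ j, algebraMap R K (e j) ≠ 0 := fun j h => he j (hinj (by rw [h, map_zero]))
  have hgK : IsIntegral K g := by
    have h1 : IsIntegral K (e j0 • g) := (hg j0).tower_top
    have h2 : g = (algebraMap R K (e j0))⁻¹ • (e j0 • g) := by
      rw [hsm, smul_smul, inv_mul_cancel₀ (he' j0), one_smul]
    rw [h2]
    exact h1.smul _
  set p := minpoly K g with hpdef
  have hmon : p.Monic := minpoly.monic hgK
  have h1 : ∀ j i, ∃ r : R, algebraMap R K r =
      p.coeff i * algebraMap R K (e j) ^ (p.natDegree - i) := by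
    intro j i
    have h2 : minpoly K (e j • g) = p.scaleRoots (algebraMap R K (e j)) := by
      rw [hsm]
      exact IsIntegrallyClosed.minpoly_smul (he' j) hgK
    have h3 := minpoly.isIntegrallyClosed_eq_field_fractions' K (hg j)
    refine ⟨(minpoly R (e j • g)).coeff i, ?_⟩
    rw [← Polynomial.coeff_map, ← h3, h2, Polynomial.coeff_scaleRoots]
  have h2 : ∀ i, p.coeff i ∈ Set.range (algebraMap R K) := by
    intro i
    obtain ⟨a, b, hab, hx⟩ := IsFractionRing.exists_reduced_fraction (A := R) (p.coeff i)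
    have hb0 : (b : R) ≠ 0 := nonZeroDivisors.ne_zero b.2
    have hx' : p.coeff i * algebraMap R K b = algebraMap R K a := by
      rw [← hx]
      exact IsLocalization.mk'_spec K a b
    have h3 : ∀ j, (b : R) ∣ e j ^ (p.natDegree - i) := by
      intro j
      obtain ⟨r, hr⟩ := h1 j i
      have h4 : a * e j ^ (p.natDegree - i) = b * r := by
        apply hinj
        rw [map_mul, map_mul, hr, map_pow, ← hx']
        ring
      exact hab.symm.dvd_of_dvd_mul_left ⟨r, h4⟩
    have h4 : IsUnit (b : R) := by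
      by_contra hu
      obtain ⟨q, hq, hqb⟩ := WfDvdMonoid.exists_irreducible_factor hu hb0
      obtain ⟨j, hj⟩ := hp q hq.prime
      exact hj (hq.prime.dvd_of_dvd_pow (hqb.trans (h3 j)))
    obtain ⟨c, hc⟩ := h4.exists_right_inv
    refine ⟨a * c, ?_⟩
    rw [map_mul, ← hx', mul_assoc, ← map_mul, hc, map_one, mul_one]
  have h3 : p ∈ Polynomial.lifts (algebraMap R K) :=
    (Polynomial.lifts_iff_coeff_lifts p).2 h2
  obtain ⟨q, hq, -, hqm⟩ := Polynomial.lifts_and_natDegree_eq_and_monic h3 hmon
  refine ⟨q, hqm, ?_⟩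
  rw [← Polynomial.aeval_def, ← Polynomial.aeval_map_algebraMap K, hq]
  exact minpoly.aeval K g

/-- clearing denominators -/
theorem int_den {κ F C : Type*} [Field κ] [Field F] [Algebra κ F] [CommRing C] [Algebra C F]
    (S B : Subalgebra κ F) (hSB : S ≤ B)
    (hC : ∀ c : C, ∃ e ∈ S, e ≠ 0 ∧ e * algebraMap C F c ∈ B) {g : F} (hg : IsIntegral C g) :
    ∃ e ∈ S, e ≠ 0 ∧ IsIntegral B (e * g) := by
  obtain ⟨q, hq, hqg⟩ := hg
  choose e heS he0 heB using fun i => hC (q.coeff i)
  set E := ∏ i ∈ Finset.range q.natDegree, e i with hE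
  have hES : E ∈ S := Subalgebra.prod_mem _ fun i _ => heS i
  have hE0 : E ≠ 0 := Finset.prod_ne_zero_iff.2 fun i _ => he0 i
  refine ⟨E, hES, hE0, ?_⟩
  set Q := (q.map (algebraMap C F)).scaleRoots E with hQ
  have hQm : Q.Monic := (Polynomial.monic_scaleRoots_iff E).2 (hq.map _)
  have hnd : (q.map (algebraMap C F)).natDegree = q.natDegree := hq.natDegree_map _
  have h1 : ∀ i, Q.coeff i ∈ Set.range (algebraMap B F) := by
    intro i
    suffices h : Q.coeff i ∈ B from ⟨⟨_, h⟩, rfl⟩
    rw [hQ, Polynomial.coeff_scaleRoots, hnd, Polynomial.coeff_map]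
    rcases lt_trichotomy i q.natDegree with h | h | h
    · obtain ⟨k, hk⟩ : ∃ k, q.natDegree - i = k + 1 := ⟨q.natDegree - i - 1, by omega⟩
      have h2 : E = (∏ l ∈ (Finset.range q.natDegree).erase i, e l) * e i := by
        rw [hE, Finset.prod_erase_mul _ _ (Finset.mem_range.2 h)]
      rw [hk, pow_succ]
      nth_rewrite 2 [h2]
      have h3 : algebraMap C F (q.coeff i) * (E ^ k *
          ((∏ l ∈ (Finset.range q.natDegree).erase i, e l) * e i)) =
          E ^ k * (∏ l ∈ (Finset.range q.natDegree).erase i, e l) *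
            (e i * algebraMap C F (q.coeff i)) := by ring
      rw [h3]
      exact B.mul_mem (B.mul_mem (B.pow_mem (hSB hES) _)
        (Subalgebra.prod_mem _ fun l _ => hSB (heS l))) (heB i)
    · rw [h, Nat.sub_self, pow_zero, mul_one, hq.coeff_natDegree, map_one]
      exact B.one_mem
    · rw [Polynomial.coeff_eq_zero_of_natDegree_lt h, map_zero, zero_mul]
      exact B.zero_mem
  obtain ⟨q', hq', -, hqm⟩ := Polynomial.lifts_and_natDegree_eq_and_monic
    ((Polynomial.lifts_iff_coeff_lifts Q).2 h1) hQm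
  refine ⟨q', hqm, ?_⟩
  rw [← Polynomial.eval_map, hq', hQ, Polynomial.scaleRoots_eval_mul, Polynomial.eval_map, hqg,
    mul_zero]

end ufd

section poly

variable {κ : Type*} [Field κ]

/-- a polynomial which divides for every variable a nonzero polynomial without this variable
is constant -/
theorem int_const {n : ℕ} {p : MvPolynomial (Fin n) κ} (e : Fin n → MvPolynomial (Fin n) κ)
    (he : ∀ j, e j ≠ 0) (he' : ∀ j, (e j).degreeOf j = 0) (hp : ∀ j, p ∣ e j) :
    p = C (p.coeff 0) := by
  rw [← vars_eq_empty_iff_eq_C, Finset.eq_empty_iff_forall_notMem]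
  intro j hj
  obtain ⟨q, hq⟩ := hp j
  have hp0 : p ≠ 0 := by rintro rfl; exact he j (by rw [hq, zero_mul])
  have hq0 : q ≠ 0 := by rintro rfl; exact he j (by rw [hq, mul_zero])
  have h1 := degreeOf_mul_eq (n := j) hp0 hq0
  rw [← hq, he' j] at h1
  have h2 : 0 < p.degreeOf j := by
    classical
    rw [degreeOf_def, Multiset.count_pos, ← Multiset.mem_toFinset, ← vars_def]
    exact hj
  omega

theorem int_deg {m : ℕ} (j : Fin (m + 1)) (G : MvPolynomial (Fin m) κ) :
    (rename j.succAbove G).degreeOf j = 0 := by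
  classical
  by_contra h
  rw [degreeOf_def, ← Ne, ← Nat.pos_iff_ne_zero, Multiset.count_pos, ← Multiset.mem_toFinset,
    ← vars_def] at h
  obtain ⟨i, -, hi⟩ := mem_vars_rename _ _ h
  exact Fin.succAbove_ne j i hi

end poly

section main

variable {κ F : Type} [Field κ] [Field F] [Algebra κ F]

open scoped IntermediateField.algebraAdjoinAdjoin

theorem int_trans {m : ℕ} {σ : Fin (m + 1) → F} (h : AlgebraicIndependent κ σ) (j : Fin (m + 1)) :
    Transcendental (IntermediateField.adjoin κ (Set.range (σ ∘ j.succAbove))) (σ j) := by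
  have h1 := h.transcendental_adjoin (s := Set.range j.succAbove) (i := j) (by
    rintro ⟨i, hi⟩
    exact Fin.succAbove_ne j i hi)
  rw [← Set.range_comp] at h1
  intro h2
  exact h1 ((IsFractionRing.isAlgebraic_iff (Algebra.adjoin κ (Set.range (σ ∘ j.succAbove)))
    (IntermediateField.adjoin κ (Set.range (σ ∘ j.succAbove))) F).2 h2)

theorem int_alg {m : ℕ} {σ : Fin (m + 1) → F} (h : IsTranscendenceBasis κ σ) (j : Fin (m + 1)) :
    Algebra.IsAlgebraic (IntermediateField.adjoin
      (IntermediateField.adjoin κ (Set.range (σ ∘ j.succAbove))) {σ j}) F := by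
  have h1 := h.isAlgebraic_field
  constructor
  intro x
  set K1 := IntermediateField.adjoin κ (Set.range σ)
  set K2 := IntermediateField.adjoin (IntermediateField.adjoin κ (Set.range (σ ∘ j.succAbove)))
    ({σ j} : Set F)
  have hle : ∀ y ∈ K1, y ∈ K2 := by
    have h2 : K1 ≤ K2.restrictScalars κ := by
      rw [IntermediateField.adjoin_le_iff]
      rintro _ ⟨i, rfl⟩
      rcases Fin.eq_self_or_eq_succAbove j i with rfl | ⟨i, rfl⟩
      · exact IntermediateField.subset_adjoin _ _ rfl
      · have h3 : σ (j.succAbove i) ∈ IntermediateField.adjoin κ (Set.range (σ ∘ j.succAbove)) :=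
          IntermediateField.subset_adjoin _ _ ⟨i, rfl⟩
        exact K2.algebraMap_mem
          (⟨σ (j.succAbove i), h3⟩ : IntermediateField.adjoin κ (Set.range (σ ∘ j.succAbove)))
    exact fun y hy => h2 hy
  let φ : K1 →+* K2 :=
    { toFun := fun y => ⟨y, hle y y.2⟩
      map_one' := rfl
      map_mul' := fun _ _ => rfl
      map_zero' := rfl
      map_add' := fun _ _ => rfl }
  let _ : Algebra K1 K2 := φ.toAlgebra
  have : IsScalarTower K1 K2 F := IsScalarTower.of_algebraMap_eq fun x => rfl
  exact (h1.isAlgebraic x).extendScalars φ.injective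

/-- the denominators of the elements of `E_j[σ_j]` -/
theorem int_line {m : ℕ} {σ : Fin (m + 1) → F} (j : Fin (m + 1))
    (c : Algebra.adjoin (IntermediateField.adjoin κ (Set.range (σ ∘ j.succAbove))) {σ j}) :
    ∃ e ∈ Algebra.adjoin κ (Set.range (σ ∘ j.succAbove)), e ≠ 0 ∧
      e * (c : F) ∈ Algebra.adjoin κ (Set.range σ) := by
  obtain ⟨c, hc⟩ := c
  have hSB : Algebra.adjoin κ (Set.range (σ ∘ j.succAbove)) ≤ Algebra.adjoin κ (Set.range σ) :=
    Algebra.adjoin_mono (Set.range_comp_subset_range _ _)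
  change ∃ e ∈ _, e ≠ 0 ∧ e * c ∈ _
  induction hc using Algebra.adjoin_induction with
  | mem x hx =>
    rw [Set.mem_singleton_iff.1 hx]
    refine ⟨1, one_mem _, one_ne_zero, ?_⟩
    rw [one_mul]
    exact Algebra.subset_adjoin ⟨j, rfl⟩
  | algebraMap c =>
    obtain ⟨a, ha, b, hb, hab⟩ := IntermediateField.mem_adjoin_iff_div.1 c.2
    by_cases hb0 : b = 0
    · refine ⟨1, one_mem _, one_ne_zero, ?_⟩
      change 1 * (c : F) ∈ _
      rw [hab, hb0, div_zero, mul_zero]
      exact zero_mem _
    · refine ⟨b, hb, hb0, ?_⟩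
      change b * (c : F) ∈ _
      rw [hab, mul_div_cancel₀ _ hb0]
      exact hSB ha
  | add x y _ _ hx hy =>
    obtain ⟨e1, h1, h2, h3⟩ := hx
    obtain ⟨e2, h4, h5, h6⟩ := hy
    refine ⟨e1 * e2, mul_mem h1 h4, mul_ne_zero h2 h5, ?_⟩
    have : e1 * e2 * (x + y) = e2 * (e1 * x) + e1 * (e2 * y) := by ring
    rw [this]
    exact add_mem (mul_mem (hSB h4) h3) (mul_mem (hSB h1) h6)
  | mul x y _ _ hx hy =>
    obtain ⟨e1, h1, h2, h3⟩ := hx
    obtain ⟨e2, h4, h5, h6⟩ := hy
    refine ⟨e1 * e2, mul_mem h1 h4, mul_ne_zero h2 h5, ?_⟩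
    have : e1 * e2 * (x * y) = (e1 * x) * (e2 * y) := by ring
    rw [this]
    exact mul_mem h3 h6

/-- the place over the smaller field of constants -/
def int_down (E : IntermediateField κ F) (P : Place E F) : Place κ F where
  ord := P.ord
  ord_zero := P.ord_zero
  ord_mul := P.ord_mul
  ord_add := P.ord_add
  ord_const := fun {c} hc => by
    have h1 : algebraMap κ E c ≠ 0 := fun h => hc ((algebraMap κ E).injective (by rw [h, map_zero]))
    exact P.ord_const h1
  surj := P.surj

theorem int_ri {m : ℕ} {s : Fin m → F} (hs : AlgebraicIndependent κ s)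
    (P : Place (IntermediateField.adjoin κ (Set.range s)) F) : Ri (int_down _ P) s := by
  intro G hG
  have h1 : aeval s G ≠ 0 := fun h => hG (hs (by rw [h, map_zero]))
  refine ⟨h1, ?_⟩
  have h2 : aeval s G ∈ IntermediateField.adjoin κ (Set.range s) := by
    apply IntermediateField.algebra_adjoin_le_adjoin
    rw [Algebra.adjoin_range_eq_range_aeval]
    exact ⟨G, rfl⟩
  exact P.ord_const (c := ⟨_, h2⟩) fun h => h1 (congrArg Subtype.val h)

/-- the case of a transcendence basis -/
theorem int_basis [CharZero κ] [Algebra.EssFiniteType κ F] {m : ℕ} {σ : Fin (m + 1) → F}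
    (hσ : IsTranscendenceBasis κ σ) {A : Subalgebra κ F} (hσA : ∀ i, σ i ∈ A)
    (hA : ∀ a ∈ A, IsIntegral (Algebra.adjoin κ (Set.range σ)) a) {g : F}
    (hg : ∀ P : Place κ F, (∀ a ∈ A, P.Reg a) → (∃ s : Fin m → F, (∀ i, s i ∈ A) ∧ Ri P s) →
      P.Reg g) : IsIntegral (Algebra.adjoin κ (Set.range σ)) g := by
  set B := Algebra.adjoin κ (Set.range σ) with hB
  have h1 : ∀ j : Fin (m + 1), IsIntegral (Algebra.adjoin
      (IntermediateField.adjoin κ (Set.range (σ ∘ j.succAbove))) {σ j}) g := by
    intro j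
    have hch : CharZero (IntermediateField.adjoin κ (Set.range (σ ∘ j.succAbove))) :=
      charZero_of_injective_algebraMap (algebraMap κ _).injective
    have hess : Algebra.EssFiniteType (IntermediateField.adjoin κ (Set.range (σ ∘ j.succAbove))) F :=
      Algebra.EssFiniteType.of_comp κ _ F
    apply integral_of_reg (int_trans hσ.1 j) (int_alg hσ j)
    intro P hP
    have h2 : Ri (int_down _ P) (σ ∘ j.succAbove) :=
      int_ri (hσ.1.comp _ Fin.succAbove_right_injective) P
    refine hg (int_down _ P) ?_ ⟨_, fun i => hσA _, h2⟩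
    have h3 : ∀ b : B, (int_down _ P).Reg (algebraMap B F b) := by
      rintro ⟨b, hb⟩
      change (int_down _ P).Reg b
      induction hb using Algebra.adjoin_induction with
      | mem x hx =>
        obtain ⟨i, rfl⟩ := hx
        rcases Fin.eq_self_or_eq_succAbove j i with rfl | ⟨i, rfl⟩
        · exact hP
        · exact h2.reg i
      | algebraMap c => exact (int_down _ P).reg_const c
      | add x y _ _ hx hy => exact (int_down _ P).reg_add hx hy
      | mul x y _ _ hx hy => exact (int_down _ P).reg_mul hx hy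
    exact fun a ha => (int_down _ P).reg_of_isIntegral h3 (hA a ha)
  have h2 : ∀ j : Fin (m + 1), ∃ e ∈ Algebra.adjoin κ (Set.range (σ ∘ j.succAbove)), e ≠ 0 ∧
      IsIntegral B (e * g) := fun j => int_den _ B
        (Algebra.adjoin_mono (Set.range_comp_subset_range _ _)) (int_line j) (h1 j)
  have h3 : ∀ j : Fin (m + 1), ∃ G : MvPolynomial (Fin m) κ, G ≠ 0 ∧
      IsIntegral B (aeval (σ ∘ j.succAbove) G * g) := by
    intro j
    obtain ⟨e, he, he0, hi⟩ := h2 j
    rw [Algebra.adjoin_range_eq_range_aeval] at he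
    obtain ⟨G, rfl⟩ := he
    refine ⟨G, ?_, hi⟩
    rintro rfl
    exact he0 (map_zero _)
  choose G hG0 hG using h3
  let φ : MvPolynomial (Fin (m + 1)) κ ≃ₐ[κ] B := hσ.1.aevalEquiv
  have hufd : UniqueFactorizationMonoid B :=
    φ.toMulEquiv.uniqueFactorizationMonoid inferInstance
  have hφ : ∀ p, (φ p : F) = aeval σ p := fun p => hσ.1.algebraMap_aevalEquiv p
  have hr0 : ∀ j : Fin (m + 1), rename j.succAbove (G j) ≠ 0 := fun j h => hG0 j
    (rename_injective _ Fin.succAbove_right_injective (by rw [h, map_zero]))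
  apply int_ufd (R := B) (K := IntermediateField.adjoin κ (Set.range σ))
    (fun j : Fin (m + 1) => φ (rename j.succAbove (G j))) 0
  · intro j h
    exact hr0 j (φ.injective (by rw [h, map_zero]))
  · intro p hp
    by_contra hcon
    push Not at hcon
    have h4 : ∀ j : Fin (m + 1), φ.symm p ∣ rename j.succAbove (G j) := by
      intro j
      have := map_dvd φ.symm (hcon j)
      rwa [AlgEquiv.symm_apply_apply] at this
    have h5 := int_const (p := φ.symm p) _ hr0 (fun j => int_deg j (G j)) h4
    have h6 : φ.symm p ≠ 0 := fun h => hp.1 (φ.symm.injective (by rw [h, map_zero]))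
    rw [h5] at h6
    have h7 : IsUnit (φ.symm p) := by
      rw [h5]
      exact (IsUnit.mk0 _ (fun h => h6 (by rw [h, C_0]))).map C
    have h8 : IsUnit (φ (φ.symm p)) := h7.map φ
    rw [AlgEquiv.apply_symm_apply] at h8
    exact hp.2.1 h8
  · intro j
    have h4 : φ (rename j.succAbove (G j)) • g = aeval (σ ∘ j.succAbove) (G j) * g := by
      rw [Algebra.smul_def]
      congr 1
      rw [← aeval_rename]
      exact hφ _
    rw [h4]
    exact hG j

end main

theorem t_INT : S_INT := by
  intro κ F _ _ _ _ _ m hd A hA halg g hg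
  have hft : Algebra.FiniteType κ A := (Subalgebra.fg_iff_finiteType A).1 hA
  obtain ⟨n, φ, hφ, hφint⟩ := exists_integral_inj_algHom_of_fg κ A
  let σ : Fin n → F := fun i => (φ (X i) : F)
  have hσA : ∀ i, σ i ∈ A := fun i => (φ (X i)).2
  have hcomp : A.val.comp φ = aeval σ := by
    apply MvPolynomial.algHom_ext
    intro i
    rw [aeval_X]
    rfl
  have hind : AlgebraicIndependent κ σ := by
    have h1 : Function.Injective (A.val.comp φ) := Subtype.val_injective.comp hφ
    rw [hcomp] at h1
    exact h1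
  have hBA : Algebra.adjoin κ (Set.range σ) ≤ A := by
    rw [Algebra.adjoin_le_iff]
    rintro _ ⟨i, rfl⟩
    exact hσA i
  have hAint : ∀ a ∈ A, IsIntegral (Algebra.adjoin κ (Set.range σ)) a := by
    intro a ha
    obtain ⟨p, hp, hpa⟩ := hφint ⟨a, ha⟩
    refine ⟨p.map (hind.aevalEquiv : _ →+* _), hp.map _, ?_⟩
    rw [Polynomial.eval₂_map]
    have h1 := congrArg A.val.toRingHom hpa
    rw [map_zero, Polynomial.hom_eval₂] at h1
    rw [← h1]
    have h2 : (algebraMap (Algebra.adjoin κ (Set.range σ)) F).comp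
        (hind.aevalEquiv : MvPolynomial (Fin n) κ →+* Algebra.adjoin κ (Set.range σ)) =
        A.val.toRingHom.comp φ.toRingHom := by
      apply RingHom.ext
      intro x
      change ((hind.aevalEquiv x : Algebra.adjoin κ (Set.range σ)) : F) = (A.val.comp φ) x
      rw [hcomp]
      exact hind.algebraMap_aevalEquiv x
    rw [h2]
    rfl
  have halgB : Algebra.IsAlgebraic (Algebra.adjoin κ (Set.range σ)) F := by
    let _ : Algebra (Algebra.adjoin κ (Set.range σ)) A := (Subalgebra.inclusion hBA).toAlgebra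
    have hst : IsScalarTower (Algebra.adjoin κ (Set.range σ)) A F :=
      IsScalarTower.of_algebraMap_eq fun _ => rfl
    have hint : Algebra.IsIntegral (Algebra.adjoin κ (Set.range σ)) A := by
      constructor
      rintro ⟨a, ha⟩
      have h1 := hAint a ha
      exact (isIntegral_algHom_iff (IsScalarTower.toAlgHom (Algebra.adjoin κ (Set.range σ)) A F)
        (show Function.Injective (algebraMap A F) from Subtype.val_injective)).1 h1
    exact Algebra.IsAlgebraic.trans _ A F
  have hbas : IsTranscendenceBasis κ σ :=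
    isTranscendenceBasis_iff_algebraicIndependent_isAlgebraic.2 ⟨hind, halgB⟩
  have hn : n = m + 1 := by
    have h1 := hbas.cardinalMk_eq_trdeg
    rw [hd, Cardinal.mk_fin] at h1
    exact_mod_cast h1
  subst hn
  have h1 := int_basis hbas hσA hAint hg
  obtain ⟨p, hp, hpg⟩ := h1
  refine ⟨p.map (Subalgebra.inclusion hBA).toRingHom, hp.map _, ?_⟩
  rw [Polynomial.eval₂_map]
  exact hpg

end Pool.Agent.N131.MV
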