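import Pool.Agent.N131.MV.Stm

/-!
# (ORD) The order of vanishing along a derivation is a place (helper607)
-/

set_option autoImplicit false

namespace Pool.Agent.N131.MV

open FF Pool.Agent.W603.LV Finset

section

variable {k κ F : Type} [Field k] [Field κ] [Field F] [Algebra k F] [Algebra κ F]

/-- the Leibniz rule -/
theorem ord_leib (D : Derivation k F F) (x y : F) (n : ℕ) : D^[n] (x * y) =
    ∑ ij ∈ antidiagonal n, n.choose ij.1 • (D^[ij.1] x * D^[ij.2] y) := by
  induction n with
  | zero => simp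
  | succ n ih =>
    rw [sum_antidiagonal_choose_succ_nsmul (fun i j => D^[i] x * D^[j] y) n]
    simp only [Function.iterate_succ_apply', ih, map_sum, map_nsmul, D.leibniz, smul_eq_mul,
      smul_add, sum_add_distrib, add_right_inj]
    refine sum_congr rfl fun ⟨i, j⟩ hij => ?_
    rw [n.choose_symm_of_eq_add (mem_antidiagonal.1 hij).symm, mul_comm]

/-- the order of vanishing of `x` is `n` -/
def OrdA (D : Derivation k F F) (V : ValuationSubring F) (x : F) (n : ℕ) : Prop :=
  (∀ i < n, D^[i] x ∈ V.nonunits) ∧ D^[n] x ∉ V.nonunits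

/-- the hypotheses -/
structure OrdH (κ : Type) [Field κ] [Algebra κ F] (D : Derivation k F F)
    (V : ValuationSubring F) : Prop where
  con : ∀ c : κ, algebraMap κ F c ∈ V
  der : ∀ x ∈ V, D x ∈ V
  ex : ∀ x ∈ V, x ≠ 0 → ∃ j : ℕ, D^[j] x ∉ V.nonunits

variable {D : Derivation k F F} {V : ValuationSubring F}

theorem ord_A_unique {x : F} {n m : ℕ} (h1 : OrdA D V x n) (h2 : OrdA D V x m) : n = m := by
  rcases lt_trichotomy n m with h | h | h
  · exact absurd (h2.1 n h) h1.2
  · exact h
  · exact absurd (h1.1 m h) h2.2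

theorem ord_it_mem (hD : ∀ x ∈ V, D x ∈ V) {x : F} (hx : x ∈ V) (n : ℕ) : D^[n] x ∈ V := by
  induction n with
  | zero => exact hx
  | succ n ih => rw [Function.iterate_succ_apply']; exact hD _ ih

theorem ord_not_nonunit {x : F} (hx : x ∈ V) (h : x ∉ V.nonunits) : V.valuation x = 1 := by
  rw [ValuationSubring.mem_nonunits_iff, not_lt] at h
  exact le_antisymm ((V.valuation_le_one_iff x).2 hx) h

theorem ord_nat_le (hκ : ∀ c : κ, algebraMap κ F c ∈ V) (n : ℕ) :
    V.valuation ((n : ℕ) : F) ≤ 1 := by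
  have := hκ (n : κ)
  rw [map_natCast] at this
  exact (V.valuation_le_one_iff _).2 this

theorem ord_nat [CharZero κ] (hκ : ∀ c : κ, algebraMap κ F c ∈ V) {n : ℕ} (hn : 0 < n) :
    V.valuation ((n : ℕ) : F) = 1 := by
  have h2 : V.valuation ((n : F)⁻¹) ≤ 1 := by
    have := hκ ((n : κ)⁻¹)
    rw [map_inv₀, map_natCast] at this
    exact (V.valuation_le_one_iff _).2 this
  have h3 : (n : F) ≠ 0 := by
    have h4 : (n : κ) ≠ 0 := Nat.cast_ne_zero.2 hn.ne'
    intro h5
    apply h4
    have : algebraMap κ F (n : κ) = 0 := by rw [map_natCast]; exact h5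
    exact (map_eq_zero _).1 this
  refine le_antisymm (ord_nat_le hκ n) ?_
  have h6 : V.valuation (n : F) * V.valuation ((n : F)⁻¹) = 1 := by
    rw [← map_mul, mul_inv_cancel₀ h3, map_one]
  rw [← h6]
  exact mul_le_of_le_one_right' h2

theorem ord_A_mul [CharZero κ] (H : OrdH κ D V) {x y : F} (hx : x ∈ V) (hy : y ∈ V) {i j : ℕ}
    (h1 : OrdA D V x i) (h2 : OrdA D V y j) : OrdA D V (x * y) (i + j) := by
  have hterm : ∀ a b : ℕ, (a < i ∨ b < j) → ∀ c : ℕ,
      V.valuation (c • (D^[a] x * D^[b] y)) < 1 := by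
    intro a b hab c
    rw [nsmul_eq_mul, map_mul, map_mul]
    have ha : V.valuation (D^[a] x) ≤ 1 := (V.valuation_le_one_iff _).2 (ord_it_mem H.der hx a)
    have hb : V.valuation (D^[b] y) ≤ 1 := (V.valuation_le_one_iff _).2 (ord_it_mem H.der hy b)
    refine lt_of_le_of_lt (mul_le_of_le_one_left' (ord_nat_le H.con c)) ?_
    rcases hab with h | h
    · have h3 := h1.1 a h
      rw [ValuationSubring.mem_nonunits_iff] at h3
      exact lt_of_le_of_lt (mul_le_of_le_one_right' hb) h3
    · have h3 := h2.1 b h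
      rw [ValuationSubring.mem_nonunits_iff] at h3
      exact lt_of_le_of_lt (mul_le_of_le_one_left' ha) h3
  constructor
  · intro n hn
    rw [ValuationSubring.mem_nonunits_iff, ord_leib]
    refine Valuation.map_sum_lt _ one_ne_zero fun p hp => hterm p.1 p.2 ?_ _
    rw [Finset.HasAntidiagonal.mem_antidiagonal] at hp
    omega
  · have h3 : V.valuation ((i + j).choose i • (D^[i] x * D^[j] y)) = 1 := by
      rw [nsmul_eq_mul, map_mul, map_mul, ord_nat H.con (Nat.choose_pos (Nat.le_add_right i j)),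
        ord_not_nonunit (ord_it_mem H.der hx i) h1.2, ord_not_nonunit (ord_it_mem H.der hy j) h2.2,
        one_mul, one_mul]
    have h4 : V.valuation (∑ p ∈ (antidiagonal (i + j)).erase (i, j),
        (i + j).choose p.1 • (D^[p.1] x * D^[p.2] y)) < 1 := by
      refine Valuation.map_sum_lt _ one_ne_zero fun p hp => hterm p.1 p.2 ?_ _
      rw [mem_erase, Finset.HasAntidiagonal.mem_antidiagonal] at hp
      by_contra hc
      push Not at hc
      apply hp.1
      have e1 : p.1 = i := by omega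
      have e2 : p.2 = j := by omega
      rw [← e1, ← e2]
    rw [ord_leib, ← add_sum_erase (antidiagonal (i + j)) _
      (show (i, j) ∈ antidiagonal (i + j) by simp), ValuationSubring.mem_nonunits_iff, not_lt,
      Valuation.map_add_eq_of_lt_left _ (by rw [h3]; exact h4), h3]

theorem ord_A_add {x y : F} {i j l : ℕ} (h1 : OrdA D V x i) (h2 : OrdA D V y j)
    (h3 : OrdA D V (x + y) l) : min i j ≤ l := by
  by_contra h
  push Not at h
  apply h3.2
  have h4 := h1.1 l (lt_of_lt_of_le h (min_le_left _ _))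
  have h5 := h2.1 l (lt_of_lt_of_le h (min_le_right _ _))
  rw [ValuationSubring.mem_nonunits_iff] at *
  rw [iterate_map_add]
  exact Valuation.map_add_lt _ h4 h5

open Classical in
/-- the order of vanishing -/
noncomputable def ordN (D : Derivation k F F) (V : ValuationSubring F) (x : F) : ℕ :=
  if h : ∃ j : ℕ, D^[j] x ∉ V.nonunits then Nat.find h else 0

open Classical in
theorem ordN_spec {x : F} (h : ∃ j : ℕ, D^[j] x ∉ V.nonunits) : OrdA D V x (ordN D V x) := by
  unfold ordN
  rw [dif_pos h]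
  refine ⟨fun i hi => ?_, Nat.find_spec h⟩
  by_contra h2
  exact absurd (Nat.find_min' h h2) (not_le.2 hi)

theorem ordN_eq {x : F} {n : ℕ} (h : OrdA D V x n) : ordN D V x = n :=
  ord_A_unique (ordN_spec ⟨n, h.2⟩) h

theorem ordN_mul [CharZero κ] (H : OrdH κ D V) {x y : F} (hx : x ∈ V) (hy : y ∈ V)
    (hx0 : x ≠ 0) (hy0 : y ≠ 0) : ordN D V (x * y) = ordN D V x + ordN D V y :=
  ordN_eq (ord_A_mul H hx hy (ordN_spec (H.ex x hx hx0)) (ordN_spec (H.ex y hy hy0)))

open Classical in
/-- the order function -/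
noncomputable def ordZ (D : Derivation k F F) (V : ValuationSubring F) (f : F) : ℤ :=
  if f = 0 then 0 else if f ∈ V then (ordN D V f : ℤ) else -(ordN D V f⁻¹ : ℤ)

theorem ordZ_mem {f : F} (h0 : f ≠ 0) (h : f ∈ V) : ordZ D V f = ordN D V f := by
  rw [ordZ, if_neg h0, if_pos h]

theorem ordZ_not_mem {f : F} (h : f ∉ V) : ordZ D V f = -(ordN D V f⁻¹ : ℤ) := by
  have h0 : f ≠ 0 := by
    rintro rfl
    exact h V.zero_mem
  rw [ordZ, if_neg h0, if_neg h]

theorem ordZ_div [CharZero κ] (H : OrdH κ D V) {a b : F} (ha : a ∈ V) (hb : b ∈ V)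
    (ha0 : a ≠ 0) (hb0 : b ≠ 0) : ordZ D V (a / b) = ordN D V a - ordN D V b := by
  have hf0 : a / b ≠ 0 := div_ne_zero ha0 hb0
  by_cases hf : a / b ∈ V
  · rw [ordZ_mem hf0 hf]
    have h1 := ordN_mul H hf hb hf0 hb0
    rw [div_mul_cancel₀ _ hb0] at h1
    rw [h1]
    push_cast
    ring
  · rw [ordZ_not_mem hf]
    have hf' : (a / b)⁻¹ ∈ V := (V.mem_or_inv_mem _).resolve_left hf
    have h1 := ordN_mul H hf' ha (inv_ne_zero hf0) ha0
    rw [inv_div, div_mul_cancel₀ _ ha0] at h1
    rw [inv_div, h1]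
    push_cast
    ring

theorem ord_frac {f : F} (hf : f ≠ 0) : ∃ a b : F, a ∈ V ∧ b ∈ V ∧ a ≠ 0 ∧ b ≠ 0 ∧ f = a / b := by
  rcases V.mem_or_inv_mem f with h | h
  · exact ⟨f, 1, h, V.one_mem, hf, one_ne_zero, (div_one f).symm⟩
  · exact ⟨1, f⁻¹, V.one_mem, h, one_ne_zero, inv_ne_zero hf, by simp⟩

theorem ordN_pos [CharZero κ] (H : OrdH κ D V) {x : F} (hx : x ∈ V) (hx0 : x ≠ 0) :
    0 < ordN D V x ↔ x ∈ V.nonunits := by
  have h1 := ordN_spec (H.ex x hx hx0)
  constructor
  · intro h
    exact h1.1 0 h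
  · intro h
    rcases Nat.eq_zero_or_pos (ordN D V x) with h2 | h2
    · rw [h2] at h1
      exact absurd h h1.2
    · exact h2

theorem ord_nonunits_mem {x : F} (hx : x ∈ V.nonunits) : x ∈ V := by
  rw [ValuationSubring.mem_nonunits_iff] at hx
  exact (V.valuation_le_one_iff x).1 hx.le

theorem ord_inv_nonunits {x : F} (hx : x ∉ V) : x⁻¹ ∈ V.nonunits := by
  rw [ValuationSubring.mem_nonunits_iff_or]
  right
  rwa [inv_inv]

/-- the place -/
noncomputable def ordP [CharZero κ] (H : OrdH κ D V) (hV : V ≠ ⊤) : Place κ F where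
  ord := ordZ D V
  ord_zero := by rw [ordZ, if_pos rfl]
  ord_mul := by
    intro f g hf hg
    obtain ⟨a, b, ha, hb, ha0, hb0, rfl⟩ := ord_frac (V := V) hf
    obtain ⟨c, d, hc, hd, hc0, hd0, rfl⟩ := ord_frac (V := V) hg
    rw [div_mul_div_comm, ordZ_div H (V.mul_mem _ _ ha hc) (V.mul_mem _ _ hb hd)
      (mul_ne_zero ha0 hc0) (mul_ne_zero hb0 hd0), ordZ_div H ha hb ha0 hb0,
      ordZ_div H hc hd hc0 hd0, ordN_mul H ha hc ha0 hc0, ordN_mul H hb hd hb0 hd0]
    push_cast
    ring
  ord_add := by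
    intro f g hf hg hfg
    obtain ⟨a, b, ha, hb, ha0, hb0, rfl⟩ := ord_frac (V := V) hf
    obtain ⟨c, d, hc, hd, hc0, hd0, rfl⟩ := ord_frac (V := V) hg
    have e1 : a / b + c / d = (a * d + b * c) / (b * d) := div_add_div _ _ hb0 hd0
    have h0 : a * d + b * c ≠ 0 := by
      intro h
      rw [e1, h, zero_div] at hfg
      exact hfg rfl
    have had := V.mul_mem _ _ ha hd
    have hbc := V.mul_mem _ _ hb hc
    have hs := V.add_mem _ _ had hbc
    rw [e1, ordZ_div H hs (V.mul_mem _ _ hb hd) h0 (mul_ne_zero hb0 hd0),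
      ordZ_div H ha hb ha0 hb0, ordZ_div H hc hd hc0 hd0, ordN_mul H hb hd hb0 hd0]
    have h1 := ord_A_add (ordN_spec (H.ex _ had (mul_ne_zero ha0 hd0)))
      (ordN_spec (H.ex _ hbc (mul_ne_zero hb0 hc0))) (ordN_spec (H.ex _ hs h0))
    rw [ordN_mul H ha hd ha0 hd0, ordN_mul H hb hc hb0 hc0] at h1
    push_cast
    omega
  ord_const := by
    intro c hc
    have h0 : algebraMap κ F c ≠ 0 := (map_ne_zero _).2 hc
    have h1 : algebraMap κ F c ∉ V.nonunits := by
      rw [ValuationSubring.mem_nonunits_iff_or]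
      rintro (h | h)
      · exact h0 h
      · apply h
        rw [← map_inv₀]
        exact H.con _
    rw [ordZ_mem h0 (H.con c)]
    have h2 : ordN D V (algebraMap κ F c) = 0 := ordN_eq ⟨fun i hi => absurd hi (by omega), h1⟩
    rw [h2]
    rfl
  surj := by
    obtain ⟨y, hy⟩ : ∃ y, y ∉ V := by
      by_contra hcon
      push Not at hcon
      exact hV (ValuationSubring.ext _ _ fun x => ⟨fun _ => ValuationSubring.mem_top x,
        fun _ => hcon x⟩)
    have hy0 : y ≠ 0 := by
      rintro rfl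
      exact hy V.zero_mem
    have hx := ord_inv_nonunits hy
    have hxV := ord_nonunits_mem hx
    have hx0 := inv_ne_zero hy0
    have hpos := (ordN_pos H hxV hx0).2 hx
    have hA := ordN_spec (H.ex _ hxV hx0)
    obtain ⟨n, hn⟩ := Nat.exists_eq_succ_of_ne_zero hpos.ne'
    rw [hn] at hA
    have hA1 : OrdA D V (D^[n] y⁻¹) 1 := by
      refine ⟨fun i hi => ?_, ?_⟩
      · have : i = 0 := by omega
        subst this
        exact hA.1 n (Nat.lt_succ_self n)
      · rw [Function.iterate_one, ← Function.iterate_succ_apply' D]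
        exact hA.2
    have ht0 : D^[n] y⁻¹ ≠ 0 := by
      intro h
      apply hA1.2
      rw [h, Function.iterate_one, map_zero, ValuationSubring.mem_nonunits_iff, map_zero]
      exact zero_lt_one
    refine ⟨D^[n] y⁻¹, ht0, ?_⟩
    rw [ordZ_mem ht0 (ord_it_mem H.der hxV n), ordN_eq hA1]
    rfl

end

/-- **(ORD)** -/
theorem t_ORD : S_ORD := by
  intro k κ F _ _ _ _ _ _ D V hκ hD hj hV
  have H : OrdH κ D V := ⟨hκ, hD, hj⟩
  have hord : ∀ x, (ordP H hV).ord x = ordZ D V x := fun x => rfl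
  have hR : ∀ x, (ordP H hV).Reg x ↔ x ∈ V := by
    intro x
    unfold Place.Reg
    rw [hord]
    constructor
    · rintro (h | h)
      · rw [h]; exact V.zero_mem
      · by_contra hx
        rw [ordZ_not_mem hx] at h
        have h1 := ord_inv_nonunits hx
        have hx0 : x ≠ 0 := by
          rintro rfl
          exact hx V.zero_mem
        have h2 := (ordN_pos H (ord_nonunits_mem h1) (inv_ne_zero hx0)).2 h1
        omega
    · intro hx
      by_cases hx0 : x = 0
      · exact Or.inl hx0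
      · right
        rw [ordZ_mem hx0 hx]
        omega
  refine ⟨ordP H hV, hR, ?_, ?_⟩
  · intro x
    constructor
    · rintro (h | h)
      · rw [h, ValuationSubring.mem_nonunits_iff, map_zero]
        exact zero_lt_one
      · have hx0 : x ≠ 0 := by
          rintro rfl
          rw [Place.ord_zero] at h
          omega
        have hxV : x ∈ V := (hR x).1 (Or.inr (by omega))
        rw [hord, ordZ_mem hx0 hxV] at h
        exact (ordN_pos H hxV hx0).1 (by omega)
    · intro hx
      by_cases hx0 : x = 0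
      · exact Or.inl hx0
      · right
        have hxV := ord_nonunits_mem hx
        have h1 := (ordN_pos H hxV hx0).2 hx
        rw [hord, ordZ_mem hx0 hxV]
        omega
  · intro x hx hx0
    have hxV := ord_nonunits_mem hx
    have hpos := (ordN_pos H hxV hx0).2 hx
    have hA := ordN_spec (H.ex _ hxV hx0)
    obtain ⟨n, hn⟩ := Nat.exists_eq_succ_of_ne_zero hpos.ne'
    rw [hn] at hA
    have hA1 : OrdA D V (D x) n := by
      refine ⟨fun i hi => ?_, ?_⟩
      · rw [← Function.iterate_succ_apply]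
        exact hA.1 (i + 1) (by omega)
      · rw [← Function.iterate_succ_apply]
        exact hA.2
    have hD0 : D x ≠ 0 := by
      intro h
      apply hA1.2
      rw [h, iterate_map_zero, ValuationSubring.mem_nonunits_iff, map_zero]
      exact zero_lt_one
    rw [hord, hord, ordZ_mem hx0 hxV, ordZ_mem hD0 (hD x hxV), ordN_eq hA1, hn]
    push_cast
    ring

end Pool.Agent.N131.MV
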